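import Mathlib

/-!
# Cyclic coverings
-/

set_option autoImplicit false

namespace Pool.Agent.W5h68.SP

/-- The ring `A[s] / (s ^ d - u)`; for a unit `u` its spectrum is a finite flat covering of `Spec A` of
degree `d`, a torsor under the group of the `d`-th roots of unity. -/
abbrev Cyc (A : Type) [CommRing A] (d : ℕ) (u : A) : Type :=
  Polynomial A ⧸ Ideal.span {(Polynomial.X ^ d - Polynomial.C u : Polynomial A)}

end Pool.Agent.W5h68.SP
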