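import Mathlib

/-!
# Polynomial identities with a double root
-/

set_option autoImplicit false

namespace Pool.Agent.N746.RK

open Polynomial

theorem binomP (S E : ℤ[X]) (b : ℕ) (hS : S.natDegree ≤ b) (hE : E.natDegree ≤ b) (e : ℕ) (he : 2 ≤ e) :
    ∃ G : ℤ[X], (S + E) ^ e = E ^ e + e * S * E ^ (e - 1) + S ^ 2 * G ∧ G.natDegree ≤ (e - 2) * b := by
  induction e, he using Nat.le_induction with
  | base => exact ⟨1, by push_cast; ring, by simp⟩
  | succ e he ih =>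
    obtain ⟨G, h1, h2⟩ := ih
    obtain ⟨k, rfl⟩ : ∃ k, e = k + 2 := ⟨e - 2, by omega⟩
    refine ⟨G * (S + E) + ((k + 2 : ℕ) : ℤ[X]) * E ^ (k + 1), ?_, ?_⟩
    · rw [pow_succ, h1]
      simp only [show k + 2 - 1 = k + 1 by omega, show k + 2 + 1 - 1 = k + 2 by omega]
      push_cast
      ring
    · simp only [show k + 2 - 2 = k by omega, show k + 2 + 1 - 2 = k + 1 by omega] at h2 ⊢
      have h3 : (S + E).natDegree ≤ b := (natDegree_add_le _ _).trans (max_le hS hE)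
      have h4 : (G * (S + E)).natDegree ≤ (k + 1) * b := by
        refine natDegree_mul_le.trans ?_
        rw [add_mul, one_mul]
        exact Nat.add_le_add h2 h3
      have h5 : (((k + 2 : ℕ) : ℤ[X]) * E ^ (k + 1)).natDegree ≤ (k + 1) * b := by
        refine natDegree_mul_le.trans ?_
        rw [natDegree_natCast, zero_add]
        exact natDegree_pow_le.trans (Nat.mul_le_mul_left _ hE)
      exact (natDegree_add_le _ _).trans (max_le h4 h5)

theorem dpos (x1 y1 : ℤ[X]) (b : ℕ) (hx : x1.natDegree ≤ b) (hy : y1.natDegree ≤ b) (e : ℕ)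
    (he : 2 ≤ e) :
    ∃ G : ℤ[X], (e : ℤ[X]) ^ e * y1 ^ (e + 1) - x1 * (((e : ℤ[X]) + 1) * y1 - x1) ^ e =
      (x1 - y1) ^ 2 * G ∧ G.natDegree ≤ (e - 1) * b := by
  obtain ⟨k, rfl⟩ : ∃ k, e = k + 2 := ⟨e - 2, by omega⟩
  have hS : (y1 - x1).natDegree ≤ b := (natDegree_sub_le _ _).trans (max_le hy hx)
  have hE : (((k + 2 : ℕ) : ℤ[X]) * y1).natDegree ≤ b := by
    refine natDegree_mul_le.trans ?_
    rw [natDegree_natCast, zero_add]
    exact hy
  obtain ⟨G, h1, h2⟩ := binomP (y1 - x1) (((k + 2 : ℕ) : ℤ[X]) * y1) b hS hE (k + 2) (by omega)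
  simp only [show k + 2 - 1 = k + 1 by omega, show k + 2 - 2 = k by omega] at h1 h2 ⊢
  refine ⟨((k + 2 : ℕ) : ℤ[X]) * (((k + 2 : ℕ) : ℤ[X]) * y1) ^ (k + 1) - x1 * G, ?_, ?_⟩
  · have e1 : (((k + 2 : ℕ) : ℤ[X]) + 1) * y1 - x1 = y1 - x1 + ((k + 2 : ℕ) : ℤ[X]) * y1 := by ring
    rw [e1, h1]
    ring
  · refine (natDegree_sub_le _ _).trans (max_le ?_ ?_)
    · refine natDegree_mul_le.trans ?_
      rw [natDegree_natCast, zero_add]
      exact natDegree_pow_le.trans (Nat.mul_le_mul_left _ hE)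
    · refine natDegree_mul_le.trans ?_
      rw [add_mul, one_mul, add_comm]
      exact Nat.add_le_add h2 hx

theorem dneg (x1 y1 : ℤ[X]) (b : ℕ) (hx : x1.natDegree ≤ b) (hy : y1.natDegree ≤ b) (e : ℕ)
    (he : 2 ≤ e) :
    ∃ G : ℤ[X], (x1 + ((e : ℤ[X]) - 1) * y1) ^ e - (e : ℤ[X]) ^ e * x1 * y1 ^ (e - 1) =
      (x1 - y1) ^ 2 * G ∧ G.natDegree ≤ (e - 2) * b := by
  obtain ⟨k, rfl⟩ : ∃ k, e = k + 2 := ⟨e - 2, by omega⟩
  have hS : (x1 - y1).natDegree ≤ b := (natDegree_sub_le _ _).trans (max_le hx hy)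
  have hE : (((k + 2 : ℕ) : ℤ[X]) * y1).natDegree ≤ b := by
    refine natDegree_mul_le.trans ?_
    rw [natDegree_natCast, zero_add]
    exact hy
  obtain ⟨G, h1, h2⟩ := binomP (x1 - y1) (((k + 2 : ℕ) : ℤ[X]) * y1) b hS hE (k + 2) (by omega)
  simp only [show k + 2 - 1 = k + 1 by omega, show k + 2 - 2 = k by omega] at h1 h2 ⊢
  refine ⟨G, ?_, h2⟩
  have e1 : x1 + (((k + 2 : ℕ) : ℤ[X]) - 1) * y1 = x1 - y1 + ((k + 2 : ℕ) : ℤ[X]) * y1 := by ring
  rw [e1, h1]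
  ring

end Pool.Agent.N746.RK
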