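import Pool.Agent.H79.L.N757_TL_Tr
import Pool.Agent.H79.L.N746_RK_Poly

/-!
# The Newton map over a number field
-/

set_option autoImplicit false

namespace Pool.Agent.N746.RK

open NumberField IsDedekindDomain Height Real Polynomial Pool.Agent.N757.RD Pool.Agent.N757.TL

variable {K : Type} [Field K] [NumberField K]

/-- the primes at which `x` meets `∞` or one of the `n`-th roots of `k` -/
def IR (n : ℕ) (k x : K) : Set (HeightOneSpectrum (𝓞 K)) :=
  {p | 1 < FinitePlace.mk p x ∨ FinitePlace.mk p (x ^ n - k) < 1}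

/-- the inequality for `∞` and the `n`-th roots of `k` -/
def RT (n : ℕ) (k : K) : Prop :=
  ∀ ε : ℝ, 0 < ε → ∃ C : ℝ, ∀ x : K, x ^ n ≠ k →
    ((n : ℝ) - 1) * D x ≤ (1 + ε) * W (IR n k x) + C

/-- the primes at which `x` meets `0`, `∞` or one of the `n`-th roots of `k` -/
def JR (n : ℕ) (k x : K) : Set (HeightOneSpectrum (𝓞 K)) :=
  {p | FinitePlace.mk p x ≠ 1 ∨ FinitePlace.mk p (x ^ n - k) < 1}

/-- the inequality for `0`, `∞` and the `n`-th roots of `k` -/
def BT (n : ℕ) (k : K) : Prop :=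
  ∀ ε : ℝ, 0 < ε → ∃ C : ℝ, ∀ x : K, (x ≠ 0 ∧ x ^ n ≠ k) →
    (n : ℝ) * D x ≤ (1 + ε) * W (JR n k x) + C

theorem finite_gt (x : K) : {p : HeightOneSpectrum (𝓞 K) | 1 < FinitePlace.mk p x}.Finite := by
  by_cases hx : x = 0
  · convert Set.finite_empty
    ext p
    simp [hx, zero_le_one]
  · exact (finite_ne_one hx).subset fun p hp => ne_of_gt hp

theorem finite_IR {n : ℕ} {k x : K} (h : x ^ n ≠ k) : (IR n k x).Finite :=
  (finite_gt x).union (finite_lows (sub_ne_zero.2 h))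

theorem finite_JR {n : ℕ} {k x : K} (hx : x ≠ 0) (h : x ^ n ≠ k) : (JR n k x).Finite :=
  (finite_ne_one hx).union (finite_lows (sub_ne_zero.2 h))

theorem root_D_le {n : ℕ} (hn : 1 ≤ n) {k x : K} (h : x ^ n = k) : D x ≤ D k := by
  have h1 : D (x ^ n) = n * D x := logHeight₁_pow x n
  rw [h] at h1
  have h2 : (1 : ℝ) ≤ n := by exact_mod_cast hn
  have h3 := D_nonneg x
  nlinarith

/-- **The Newton map.** -/
theorem root_to_B {n : ℕ} (hn : 2 ≤ n) {k : ℤ} (hk : k ≠ 0) (h : RT n ((k : ℤ) : K)) :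
    BT n ((k : ℤ) : K) := by
  obtain ⟨m, rfl⟩ : ∃ m, n = m + 2 := ⟨n - 2, by omega⟩
  set F : ℤ[X] := C ((m : ℤ) + 1) * X ^ (m + 2) + C k with hF
  set G₀ : ℤ[X] := C ((m : ℤ) + 2) * X ^ (m + 1) with hG₀
  have dF : F.natDegree ≤ m + 2 := by
    rw [hF]
    refine (natDegree_add_le _ _).trans (max_le (natDegree_C_mul_X_pow_le _ _) ?_)
    rw [natDegree_C]; omega
  have cF : F.coeff (m + 2) ≠ 0 := by
    rw [hF, coeff_add, coeff_C_mul_X_pow, if_pos rfl, coeff_C_of_ne_zero (by omega), add_zero]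
    omega
  have hBez : (C ((m : ℤ) + 2)) * F + (-(C ((m : ℤ) + 1) * X)) * G₀ = C (((m : ℤ) + 2) * k) := by
    rw [hF, hG₀, C_mul]
    ring
  have hc₀ : ((m : ℤ) + 2) * k ≠ 0 := mul_ne_zero (by omega) hk
  obtain ⟨C1, hC1, hge⟩ := D_ratio_ge dF (by omega) cF hc₀ hBez
  -- the double root
  obtain ⟨G, hG1, hG2⟩ := dneg (C k) (X ^ (m + 2)) (m + 2) (by rw [natDegree_C]; omega)
    (natDegree_X_pow_le _) (m + 2) (by omega)
  simp only [show m + 2 - 1 = m + 1 by omega, show m + 2 - 2 = m by omega] at hG1 hG2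
  have hd := dg_pos (K := K)
  have hn0 : ((m : ℤ) + 2) ≠ 0 := by omega
  have hbad := finite_ne_one (K := K) (y := (((m : ℤ) + 2 : ℤ) : K)) (by exact_mod_cast hn0)
  set Wb : ℝ := W {p : HeightOneSpectrum (𝓞 K) | FinitePlace.mk p (((m : ℤ) + 2 : ℤ) : K) ≠ 1} with hWb
  have hWb0 : 0 ≤ Wb := W_nonneg _
  have hln : 0 ≤ Real.log (nrm G) * dg K := mul_nonneg (log_nrm_nonneg _) hd.le
  have hC1d : 0 ≤ C1 * dg K := by positivity
  have hDk := D_nonneg ((k : ℤ) : K)
  set Cc : ℝ := ((m : ℝ) + 1) * (C1 * dg K) + C1 * dg K + D ((k : ℤ) : K) + Wb + Real.log (nrm G) * dg K with hCc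
  have hCc0 : 0 ≤ Cc := by positivity
  refine step (h := fun x : K => ((m + 2 : ℕ) : ℝ) * D x) (r := fun x => W (JR (m + 2) ((k : ℤ) : K) x))
    (h' := fun y : K => (((m + 2 : ℕ) : ℝ) - 1) * D y)
    (r' := fun y => W (IR (m + 2) ((k : ℤ) : K) y)) (N := (m : ℝ) + 1) (C := Cc)
    (P := fun x : K => x ≠ 0 ∧ x ^ (m + 2) ≠ ((k : ℤ) : K))
    (Q := fun y : K => y ^ (m + 2) ≠ ((k : ℤ) : K))
    (fun x => mul_nonneg (Nat.cast_nonneg _) (D_nonneg x)) (fun x => W_nonneg _)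
    (by have : (0 : ℝ) ≤ m := Nat.cast_nonneg _; linarith) hCc0 ?_ h
  rintro x ⟨hx0, hxk⟩
  have hFx : aeval x F = ((m : K) + 1) * x ^ (m + 2) + ((k : ℤ) : K) := by
    rw [hF]; simp
  have hGx : aeval x G₀ = ((m : K) + 2) * x ^ (m + 1) := by
    rw [hG₀]; simp [map_ofNat]
  have hnK : ((m : K) + 2) ≠ 0 := by exact_mod_cast hn0
  have hGx0 : aeval x G₀ ≠ 0 := by
    rw [hGx]; exact mul_ne_zero hnK (pow_ne_zero _ hx0)
  have hgex := hge K x hGx0
  push_cast at hgex
  set y : K := aeval x F / aeval x G₀ with hy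
  by_cases hyk : y ^ (m + 2) = ((k : ℤ) : K)
  · left
    have h1 := root_D_le (by omega) hyk
    have h2 : 0 ≤ ((m : ℝ) + 1) * (C1 * dg K) := by positivity
    show ((m + 2 : ℕ) : ℝ) * D x ≤ Cc
    push_cast
    linarith
  right
  have hid : y ^ (m + 2) - ((k : ℤ) : K) =
      (x ^ (m + 2) - ((k : ℤ) : K)) ^ 2 * aeval x G / (aeval x G₀) ^ (m + 2) := by
    have h1 := congrArg (aeval x) hG1
    simp only [eq_intCast, map_intCast, map_sub, map_mul, map_pow, map_add, aeval_X, map_natCast,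
      map_one] at h1
    rw [eq_div_iff (pow_ne_zero _ hGx0), hy, sub_mul, div_pow, div_mul_cancel₀ _ (pow_ne_zero _ hGx0)]
    have e1 : (aeval x F) ^ (m + 2) =
        (((k : ℤ) : K) + (((m + 2 : ℕ) : K) - 1) * x ^ (m + 2)) ^ (m + 2) := by
      rw [hFx]; push_cast; ring
    have e2 : ((k : ℤ) : K) * (aeval x G₀) ^ (m + 2) =
        ((m + 2 : ℕ) : K) ^ (m + 2) * ((k : ℤ) : K) * (x ^ (m + 2)) ^ (m + 1) := by
      rw [hGx, mul_pow, ← pow_mul, ← pow_mul, mul_comm (m + 1) (m + 2)]; push_cast; ring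
    rw [e1, e2, h1]
    ring
  have hGG : aeval x G ≠ 0 := by
    intro h0
    rw [h0, mul_zero, zero_div] at hid
    exact hyk (sub_eq_zero.1 hid)
  refine ⟨y, hyk, ?_, ?_⟩
  · push_cast
    have h1 : ((m : ℝ) + 1) * (((m : ℝ) + 2) * D x) ≤ ((m : ℝ) + 1) * (D y + C1 * dg K) :=
      mul_le_mul_of_nonneg_left hgex (by positivity)
    have : (m : ℝ) + 2 - 1 = m + 1 := by ring
    rw [this]
    linarith
  · have hsub : IR (m + 2) ((k : ℤ) : K) y ⊆ JR (m + 2) ((k : ℤ) : K) x ∪ (lows (aeval x G) ∪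
        {p : HeightOneSpectrum (𝓞 K) | FinitePlace.mk p (((m : ℤ) + 2 : ℤ) : K) ≠ 1}) := by
      intro p hp
      by_cases hpn : FinitePlace.mk p (((m : ℤ) + 2 : ℤ) : K) = 1
      swap
      · exact Or.inr (Or.inr hpn)
      by_cases hpJ : p ∈ JR (m + 2) ((k : ℤ) : K) x
      · exact Or.inl hpJ
      right; left
      simp only [JR, Set.mem_ofPred_eq, not_or, not_lt, not_not] at hpJ
      obtain ⟨hx1, hxk1⟩ := hpJ
      have hmax : max 1 (FinitePlace.mk p x) = 1 := max_eq_left hx1.le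
      have hint : ∀ P : ℤ[X], FinitePlace.mk p (aeval x P) ≤ 1 := by
        intro P
        have := fin_aeval_le p x P
        rwa [hmax, one_pow] at this
      have hG01 : FinitePlace.mk p (aeval x G₀) = 1 := by
        rw [hGx, map_mul, map_pow, hx1, one_pow, mul_one]
        have : (((m : ℤ) + 2 : ℤ) : K) = (m : K) + 2 := by push_cast; ring
        rwa [this] at hpn
      rcases hp with h3 | h3
      · rw [hy, map_div₀, hG01, div_one] at h3
        have := hint F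
        linarith
      · rw [hid, map_div₀, map_pow, hG01, one_pow, div_one, map_mul, map_pow] at h3
        change FinitePlace.mk p (aeval x G) < 1
        by_contra hcon
        push Not at hcon
        have h4 : 1 ≤ FinitePlace.mk p (x ^ (m + 2) - ((k : ℤ) : K)) ^ 2 := one_le_pow₀ hxk1
        have := one_le_mul_of_one_le_of_one_le h4 hcon
        linarith
    have f1 := finite_JR hx0 hxk
    have f2 := finite_lows hGG
    have h3 := W_mono hsub (f1.union (f2.union hbad))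
    have h4 := W_union f1 (f2.union hbad)
    have h5 := W_union f2 hbad
    have h6 := W_lows_le hGG
    have h7 := D_aeval_le x G
    have h8 : (G.natDegree : ℝ) * D x ≤ ((m : ℝ) * ((m : ℝ) + 2)) * D x := by
      refine mul_le_mul_of_nonneg_right ?_ (D_nonneg x)
      exact_mod_cast hG2
    push_cast
    have e3 : ((m : ℝ) + 1 - 1) * (((m : ℝ) + 2) * D x) = ((m : ℝ) * ((m : ℝ) + 2)) * D x := by ring
    rw [e3]
    have : 0 ≤ ((m : ℝ) + 1) * (C1 * dg K) := by positivity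
    linarith

end Pool.Agent.N746.RK
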