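import Pool.Agent.H79.L.N757_RD_Resid

/-!
# Three powers

The map `F n`: take an `n`-th power, interchange two of the cusps, and so on, three times. The image
of every point has the following property: at every place all of the ratios of the coordinates of
`(y : 1 - y : -1)` are at most `H ^ κ`, `κ = φ(n) / n`.
-/

set_option autoImplicit false

namespace Pool.Agent.N757.RD

open NumberField IsDedekindDomain Height Real Polynomial

variable {K : Type} [Field K] [NumberField K]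

/-- `x` is nowhere small -/
def Lo (x : K) (B : ℝ) : Prop := ∀ v : Pl K, mt v * -Real.log (av v x) ≤ B

/-- `x` is nowhere large -/
def Hi (x : K) (B : ℝ) : Prop := ∀ v : Pl K, mt v * Real.log (av v x) ≤ B

theorem Lo.mono {x : K} {B B' : ℝ} (h : Lo x B) (hB : B ≤ B') : Lo x B' := fun v => (h v).trans hB

theorem Hi.mono {x : K} {B B' : ℝ} (h : Hi x B) (hB : B ≤ B') : Hi x B' := fun v => (h v).trans hB

theorem Lo.pow {x : K} {B : ℝ} (h : Lo x B) (n : ℕ) : Lo (x ^ n) (n * B) := by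
  intro v
  rw [map_pow, Real.log_pow]
  have := mul_le_mul_of_nonneg_left (h v) (Nat.cast_nonneg (α := ℝ) n)
  linarith

theorem Hi.pow {x : K} {B : ℝ} (h : Hi x B) (n : ℕ) : Hi (x ^ n) (n * B) := by
  intro v
  rw [map_pow, Real.log_pow]
  have := mul_le_mul_of_nonneg_left (h v) (Nat.cast_nonneg (α := ℝ) n)
  linarith

theorem Lo.hi_inv {x : K} {B : ℝ} (h : Lo x B) : Hi x⁻¹ B := by
  intro v
  rw [map_inv₀, Real.log_inv]
  exact h v

theorem av_one_sub_le (v : Pl K) (x : K) : av v (1 - x) ≤ 1 + av v x := by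
  have := (av v).sub_le (1 : K) 0 x
  rw [sub_zero, map_one] at this
  have h2 : av v (0 - x) = av v x := by rw [zero_sub, (av v).map_neg]
  rwa [h2] at this

theorem log2_mt (v : Pl K) : (mt v : ℝ) * Real.log 2 ≤ Real.log 2 * dg K := by
  rw [mul_comm]
  exact mul_le_mul_of_nonneg_left (mt_le_dg v) (Real.log_nonneg (by norm_num))

theorem Hi.one_sub {x : K} {B : ℝ} (h : Hi x B) (hB : 0 ≤ B) :
    Hi (1 - x) (B + Real.log 2 * dg K) := by
  intro v
  have hmt : (0 : ℝ) ≤ mt v := Nat.cast_nonneg _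
  have hl2 := log2_mt v
  have h2 : 0 ≤ Real.log 2 := Real.log_nonneg (by norm_num)
  have h3 : 0 ≤ Real.log 2 * dg K := mul_nonneg h2 dg_pos.le
  rcases eq_or_lt_of_le ((av v).nonneg (1 - x)) with h0 | h0
  · rw [← h0, Real.log_zero, mul_zero]
    positivity
  · have h1 := av_one_sub_le v x
    by_cases hx : av v x ≤ 1
    · have h4 : Real.log (av v (1 - x)) ≤ Real.log 2 := Real.log_le_log h0 (by linarith)
      have := mul_le_mul_of_nonneg_left h4 hmt
      linarith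
    · push Not at hx
      have h4 : Real.log (av v (1 - x)) ≤ Real.log (2 * av v x) :=
        Real.log_le_log h0 (by linarith)
      rw [Real.log_mul (by norm_num) (by linarith)] at h4
      have := mul_le_mul_of_nonneg_left h4 hmt
      have := h v
      linarith

theorem Lo.one_sub_inv {y : K} {B : ℝ} (hy0 : y ≠ 0) (hy1 : y ≠ 1) (h : Lo (1 - y) B)
    (hB : 0 ≤ B) : Lo (1 - y⁻¹) (B + Real.log 2 * dg K) := by
  intro v
  have hmt : (0 : ℝ) ≤ mt v := Nat.cast_nonneg _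
  have hl2 := log2_mt v
  have h2 : 0 ≤ Real.log 2 := Real.log_nonneg (by norm_num)
  have hya : 0 < av v y := (av v).pos hy0
  have hyb : 0 < av v (1 - y) := (av v).pos (sub_ne_zero.2 hy1.symm)
  have e : (1 : K) - y⁻¹ = -((1 - y) / y) := by field_simp; ring
  rw [e, (av v).map_neg, map_div₀, Real.log_div hyb.ne' hya.ne']
  by_cases hx : av v y ≤ 2
  · have h4 : Real.log (av v y) ≤ Real.log 2 := Real.log_le_log hya hx
    have := mul_le_mul_of_nonneg_left h4 hmt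
    have := h v
    linarith
  · push Not at hx
    have h5 : av v y ≤ 1 + av v (1 - y) := by
      have := av_one_sub_le v (1 - y)
      rwa [sub_sub_cancel] at this
    have h6 : av v y ≤ 2 * av v (1 - y) := by linarith
    have h7 := Real.log_le_log hya h6
    rw [Real.log_mul (by norm_num) hyb.ne'] at h7
    have h8 : -(Real.log (av v (1 - y)) - Real.log (av v y)) ≤ Real.log 2 := by linarith
    have := mul_le_mul_of_nonneg_left h8 hmt
    linarith

/-- three powers -/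
def F (n : ℕ) (x : K) : K := (1 - ((1 - x ^ n) ^ n)⁻¹) ^ n

/-- the number `z` with `F n x = z ^ n` -/
def Fz (n : ℕ) (x : K) : K := 1 - ((1 - x ^ n) ^ n)⁻¹

omit [NumberField K] in
theorem F_eq (n : ℕ) (x : K) : F n x = Fz n x ^ n := rfl

/-- the statement about the sizes of `y` -/
def Sizes (y : K) (B : ℝ) : Prop := Hi y B ∧ Lo y B ∧ Hi (1 - y) B ∧ Lo (1 - y) B

theorem chain_sizes (n : ℕ) (hn : 0 < n) : ∃ C : ℝ, 0 ≤ C ∧
    ∀ (K : Type) [Field K] [NumberField K] (x : K), x ≠ 0 → x ≠ 1 →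
      D x ≤ C * dg K ∨ (Fz n x ≠ 0 ∧ Fz n x ≠ 1 ∧ F n x ≠ 0 ∧ F n x ≠ 1 ∧
        Sizes (F n x) ((n.totient : ℝ) / n * D (F n x) + C * dg K)) := by
  obtain ⟨C0, hC0, hloc⟩ := pow_local n hn
  set cn : ℝ := Real.log (nrm (geo n)) with hcn
  have hcn0 : 0 ≤ cn := log_nrm_nonneg _
  have l2 : 0 ≤ Real.log 2 := Real.log_nonneg (by norm_num)
  have hc1 := c1_nonneg
  have hn1 : (1 : ℝ) ≤ n := by exact_mod_cast hn
  have hn0 : (0 : ℝ) < n := by linarith
  set κ : ℝ := (n.totient : ℝ) / n with hκ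
  have hκ0 : 0 ≤ κ := by positivity
  have hκn : κ * n = n.totient := by rw [hκ]; field_simp
  have hκ1 : κ ≤ 1 := by
    rw [hκ, div_le_one hn0]
    exact_mod_cast Nat.totient_le n
  -- constants
  set a1 : ℝ := c1 + C0 with ha1
  set a2 : ℝ := n * a1 + C0 + Real.log 2 + c1 with ha2
  have ha1' : 0 ≤ a1 := by positivity
  have ha2' : 0 ≤ a2 := by positivity
  set CC : ℝ := n * a2 + C0 + Real.log 2 + 2 * (cn + c1) with hCC
  have hCC' : 0 ≤ CC := by positivity
  refine ⟨CC, hCC', ?_⟩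
  intro K _ _ x h0 h1
  have hd := dg_pos (K := K)
  have hDx := D_nonneg x
  have ecn : cn * dg K ≤ CC * dg K := by
    refine mul_le_mul_of_nonneg_right ?_ hd.le
    have : 0 ≤ (n : ℝ) * a2 := by positivity
    linarith
  have ecn2 : (cn + c1) * dg K ≤ CC * dg K := by
    refine mul_le_mul_of_nonneg_right ?_ hd.le
    have : 0 ≤ (n : ℝ) * a2 := by positivity
    linarith
  have ecn3 : 2 * (cn + c1) * dg K ≤ CC * dg K := by
    refine mul_le_mul_of_nonneg_right ?_ hd.le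
    have : 0 ≤ (n : ℝ) * a2 := by positivity
    linarith
  rcases good_pow (K := K) hn x h0 h1 with h | ⟨y0, y1, -, -, -⟩
  · left; linarith
  -- first power
  have lo1' : ∀ v : Pl K, mt v * -Real.log (av v (1 - x ^ n)) ≤ n.totient * D x + C0 * dg K :=
    hloc K x y1
  obtain ⟨Y1, hY1⟩ : ∃ y : K, y = x ^ n := ⟨_, rfl⟩
  have hD1 : D Y1 = n * D x := by rw [hY1]; exact D_pow x n
  change x ^ n ≠ 0 at y0
  change x ^ n ≠ 1 at y1
  rw [← hY1] at y0 y1 lo1'
  have hx1 : D x ≤ D Y1 := by rw [hD1]; nlinarith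
  have X20 : (1 : K) - Y1 ≠ 0 := sub_ne_zero.2 y1.symm
  have X21 : (1 : K) - Y1 ≠ 1 := by
    intro h
    exact y0 (sub_eq_self.1 h)
  have lo1 : Lo (1 - Y1) (κ * D Y1 + C0 * dg K) := by
    intro v
    refine (lo1' v).trans (le_of_eq ?_)
    rw [hD1, ← mul_assoc, hκn]
  have hD2 : D Y1 ≤ D (1 - Y1) + c1 * dg K := D_le_one_sub Y1
  obtain ⟨X2, hX2⟩ : ∃ y : K, y = 1 - Y1 := ⟨_, rfl⟩
  rw [← hX2] at X20 X21 lo1 hD2
  have lo2 : Lo X2 (κ * D X2 + a1 * dg K) := by
    refine lo1.mono ?_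
    have h3 : κ * D Y1 ≤ κ * (D X2 + c1 * dg K) := mul_le_mul_of_nonneg_left hD2 hκ0
    have h4 : κ * (c1 * dg K) ≤ 1 * (c1 * dg K) :=
      mul_le_mul_of_nonneg_right hκ1 (by positivity)
    rw [ha1]
    linarith
  rcases good_pow (K := K) hn X2 X20 X21 with h | ⟨y20, y21, -, -, -⟩
  · left; linarith
  have lo4' : ∀ v : Pl K, mt v * -Real.log (av v (1 - X2 ^ n)) ≤ n.totient * D X2 + C0 * dg K :=
    hloc K X2 y21
  obtain ⟨Y2, hY2⟩ : ∃ y : K, y = X2 ^ n := ⟨_, rfl⟩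
  have hDY2 : D Y2 = n * D X2 := by rw [hY2]; exact D_pow X2 n
  change X2 ^ n ≠ 0 at y20
  change X2 ^ n ≠ 1 at y21
  have lo2p := lo2.pow n
  rw [← hY2] at y20 y21 lo4' lo2p
  have hx2 : D X2 ≤ D Y2 := by rw [hDY2]; nlinarith [D_nonneg X2]
  have lo3 : Lo Y2 (κ * D Y2 + n * a1 * dg K) := by
    refine lo2p.mono (le_of_eq ?_)
    rw [hDY2]
    ring
  have lo4 : Lo (1 - Y2) (κ * D Y2 + C0 * dg K) := by
    intro v
    refine (lo4' v).trans (le_of_eq ?_)
    rw [hDY2, ← mul_assoc, hκn]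
  have hpos1 : 0 ≤ κ * D Y2 + n * a1 * dg K := by
    have := D_nonneg Y2
    positivity
  have hpos2 : 0 ≤ κ * D Y2 + C0 * dg K := by
    have := D_nonneg Y2
    positivity
  have hi5 := (lo3.hi_inv).one_sub hpos1
  have lo5 := Lo.one_sub_inv y20 y21 lo4 hpos2
  have X30 : (1 : K) - Y2⁻¹ ≠ 0 := by
    intro h
    have : Y2⁻¹ = 1 := (sub_eq_zero.1 h).symm
    exact y21 (inv_eq_one.1 this)
  have X31 : (1 : K) - Y2⁻¹ ≠ 1 := by
    intro h
    exact inv_ne_zero y20 (sub_eq_self.1 h)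
  have hD3 : D Y2 ≤ D (1 - Y2⁻¹) + c1 * dg K := by
    rw [← D_inv Y2]
    exact D_le_one_sub _
  obtain ⟨X3, hX3⟩ : ∃ y : K, y = 1 - Y2⁻¹ := ⟨_, rfl⟩
  rw [← hX3] at X30 X31 hi5 lo5 hD3
  have hB3 : κ * D Y2 ≤ κ * D X3 + c1 * dg K := by
    have h3 : κ * D Y2 ≤ κ * (D X3 + c1 * dg K) := mul_le_mul_of_nonneg_left hD3 hκ0
    have h4 : κ * (c1 * dg K) ≤ 1 * (c1 * dg K) :=
      mul_le_mul_of_nonneg_right hκ1 (by positivity)
    linarith
  have hna1 : 0 ≤ n * a1 * dg K := by positivity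
  have hC0d : 0 ≤ C0 * dg K := by positivity
  have hi6 : Hi X3 (κ * D X3 + a2 * dg K) := by
    refine hi5.mono ?_
    rw [ha2]
    linarith
  have lo6 : Lo X3 (κ * D X3 + a2 * dg K) := by
    refine lo5.mono ?_
    rw [ha2]
    linarith
  have hcnd : 0 ≤ cn * dg K := by positivity
  rcases good_pow (K := K) hn X3 X30 X31 with h | ⟨y30, y31, -, -, -⟩
  · left; linarith
  have lo8' : ∀ v : Pl K, mt v * -Real.log (av v (1 - X3 ^ n)) ≤ n.totient * D X3 + C0 * dg K :=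
    hloc K X3 y31
  have hFz : Fz n x = X3 := by rw [hX3, hY2, hX2, hY1]; rfl
  have hF : F n x = X3 ^ n := by rw [F_eq, hFz]
  rw [hF, hFz]
  have hDY3 : D (X3 ^ n) = n * D X3 := D_pow X3 n
  change X3 ^ n ≠ 0 at y30
  change X3 ^ n ≠ 1 at y31
  have hi7' := hi6.pow n
  have lo7' := lo6.pow n
  obtain ⟨Y3, hY3⟩ : ∃ y : K, y = X3 ^ n := ⟨_, rfl⟩
  rw [← hY3] at hDY3 y30 y31 hi7' lo7' lo8' ⊢
  have hDY3' := D_nonneg Y3
  have hi7 : Hi Y3 (κ * D Y3 + n * a2 * dg K) := by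
    refine hi7'.mono (le_of_eq ?_)
    rw [hDY3]
    ring
  have lo7 : Lo Y3 (κ * D Y3 + n * a2 * dg K) := by
    refine lo7'.mono (le_of_eq ?_)
    rw [hDY3]
    ring
  have lo8 : Lo (1 - Y3) (κ * D Y3 + C0 * dg K) := by
    intro v
    refine (lo8' v).trans (le_of_eq ?_)
    rw [hDY3, ← mul_assoc, hκn]
  have hpos3 : 0 ≤ κ * D Y3 + n * a2 * dg K := by positivity
  have hi8 := hi7.one_sub hpos3
  have hna2 : 0 ≤ n * a2 * dg K := by positivity
  have hl2d : 0 ≤ Real.log 2 * dg K := by positivity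
  have hcc : 0 ≤ (cn + c1) * dg K := by positivity
  have hCCe : CC * dg K = n * a2 * dg K + C0 * dg K + Real.log 2 * dg K +
      2 * ((cn + c1) * dg K) := by
    rw [hCC]; ring
  right
  refine ⟨X30, X31, y30, y31, hi7.mono ?_, lo7.mono ?_, hi8.mono ?_, lo8.mono ?_⟩
  · linarith
  · linarith
  · linarith
  · linarith

end Pool.Agent.N757.RD
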