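import Pool.Agent.H79.L.N757_RD_Poly

/-!
# Local sizes of `1 - x ^ n`, and reduction modulo primes
-/

set_option autoImplicit false

namespace Pool.Agent.N757.RD

open NumberField IsDedekindDomain Height Real Polynomial

theorem exists_clear (p : ℚ[X]) : ∃ (A : ℤ[X]) (b : ℤ), b ≠ 0 ∧
    A.map (Int.castRingHom ℚ) = C (b : ℚ) * p := by
  obtain ⟨b, hbm, hb⟩ := IsLocalization.integerNormalization_spec (nonZeroDivisors ℤ) p
  refine ⟨IsLocalization.integerNormalization (nonZeroDivisors ℤ) p, b,
    nonZeroDivisors.ne_zero hbm, ?_⟩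
  have : (algebraMap ℤ ℚ) = Int.castRingHom ℚ := rfl
  rw [this] at hb
  rw [hb]
  rw [← Polynomial.smul_eq_C_mul]
  ext i
  simp [Polynomial.coeff_smul]

theorem exists_int_bezout {P Q : ℤ[X]}
    (h : IsCoprime (P.map (Int.castRingHom ℚ)) (Q.map (Int.castRingHom ℚ))) :
    ∃ (A B : ℤ[X]) (c : ℤ), c ≠ 0 ∧ A * P + B * Q = C c := by
  obtain ⟨a, b, hab⟩ := h
  obtain ⟨A, s, hs, hA⟩ := exists_clear a
  obtain ⟨B, t, ht, hB⟩ := exists_clear b
  refine ⟨C t * A, C s * B, s * t, mul_ne_zero hs ht, ?_⟩
  apply Polynomial.map_injective (Int.castRingHom ℚ) Int.cast_injective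
  simp only [Polynomial.map_add, Polynomial.map_mul, hA, hB, Polynomial.map_C]
  simp only [eq_intCast, map_mul]
  linear_combination (C (s : ℚ) * C (t : ℚ)) * hab

/-- the product of the other cyclotomic factors -/
noncomputable def cofactor (n m : ℕ) : ℤ[X] :=
  ∏ k ∈ n.divisors.erase m, cyclotomic k ℤ

theorem cyclo_bezout (n m : ℕ) : ∃ (A B : ℤ[X]) (c : ℤ), c ≠ 0 ∧
    A * cyclotomic m ℤ + B * cofactor n m = C c := by
  apply exists_int_bezout
  unfold cofactor
  rw [Polynomial.map_prod]
  refine IsCoprime.prod_right fun k hk => ?_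
  rw [map_cyclotomic, map_cyclotomic]
  exact cyclotomic.isCoprime_rat (Finset.ne_of_mem_erase hk).symm

theorem cyclo_mul_cofactor {n m : ℕ} (hn : 0 < n) (hm : m ∈ n.divisors) :
    cyclotomic m ℤ * cofactor n m = X ^ n - 1 := by
  unfold cofactor
  rw [Finset.mul_prod_erase _ (fun k => cyclotomic k ℤ) hm, prod_cyclotomic_eq_X_pow_sub_one hn]

section

variable {K : Type} [Field K] [NumberField K]

theorem av_neg (v : Pl K) (x : K) : av v (-x) = av v x := (av v).map_neg x

theorem one_le_fin (p : HeightOneSpectrum (𝓞 K)) {y : K} (h : 1 < FinitePlace.mk p y) :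
    FinitePlace.mk p y ≤ FinitePlace.mk p (1 - y) := by
  have h1 := fin_add_le p (1 : K) (-(1 - y))
  have h2 : (1 : K) + -(1 - y) = y := by ring
  rw [h2, map_one, map_neg_eq_map] at h1
  rcases le_max_iff.1 h1 with h3 | h3
  · linarith
  · exact h3

end

/-- **The size of `1 - x ^ n` at one place.** -/
theorem pow_local (n : ℕ) (hn : 0 < n) : ∃ C₀ : ℝ, 0 ≤ C₀ ∧
    ∀ (K : Type) [Field K] [NumberField K] (x : K), x ^ n ≠ 1 → ∀ v : Pl K,
      mt v * -Real.log (av v (1 - x ^ n)) ≤ n.totient * D x + C₀ * dg K := by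
  classical
  choose A B c hc hAB using cyclo_bezout n
  choose C1 hC10 hC1 using fun m => local_sep (hc m) (hAB m)
  set S1 : ℝ := ∑ m ∈ n.divisors, C1 m with hS1
  set S2 : ℝ := ∑ m ∈ n.divisors, Real.log (nrm (cyclotomic m ℤ)) with hS2
  have hS10 : 0 ≤ S1 := Finset.sum_nonneg fun m _ => hC10 m
  have hS20 : 0 ≤ S2 := Finset.sum_nonneg fun m _ => log_nrm_nonneg _
  refine ⟨S1 + S2, by positivity, ?_⟩
  intro K _ _ x hx v
  have hd := dg_pos (K := K)
  have hD := D_nonneg x
  have hmt : (0 : ℝ) ≤ mt v := Nat.cast_nonneg _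
  by_cases hsmall : (match v with | .inl w => w x ≤ 2 | .inr p => FinitePlace.mk p x ≤ 1)
  swap
  · have h1 : 1 ≤ av v (1 - x ^ n) := by
      cases v with
      | inl w =>
        simp only [not_le] at hsmall
        have h2 : w (x ^ n) ≤ w (1 - x ^ n) + 1 := by
          have h3 := w.val.sub_le (0 : K) (1 - x ^ n) 1
          have h4 : w.val (0 - 1) = 1 := by simp
          rw [h4] at h3
          have h5 : w.val (0 - (1 - x ^ n)) = w (1 - x ^ n) := by
            rw [zero_sub, w.val.map_neg]; rfl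
          have h6 := w.val.add_le (x ^ n - 1) 1
          rw [sub_add_cancel, w.val.map_one] at h6
          have h7 : w.val (x ^ n - 1) = w.val (1 - x ^ n) := by
            rw [← w.val.map_neg, neg_sub]
          rw [h7] at h6
          exact h6
        have h8 : (2 : ℝ) ≤ w (x ^ n) := by
          rw [map_pow]
          calc (2 : ℝ) = 2 ^ 1 := by norm_num
            _ ≤ 2 ^ n := pow_le_pow_right₀ (by norm_num) hn
            _ ≤ w x ^ n := pow_le_pow_left₀ (by norm_num) hsmall.le n
        rw [av_inl]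
        linarith
      | inr p =>
        simp only [not_le] at hsmall
        have h2 : 1 < FinitePlace.mk p (x ^ n) := by
          rw [map_pow]
          exact one_lt_pow₀ hsmall hn.ne'
        rw [av_inr]
        exact h2.le.trans (one_le_fin p h2)
    have h2 : 0 ≤ Real.log (av v (1 - x ^ n)) := Real.log_nonneg h1
    have h3 : (mt v : ℝ) * -Real.log (av v (1 - x ^ n)) ≤ 0 :=
      mul_nonpos_of_nonneg_of_nonpos hmt (by linarith)
    have h4 : 0 ≤ (n.totient : ℝ) * D x + (S1 + S2) * dg K := by positivity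
    linarith
  · have hprod : ∏ m ∈ n.divisors, aeval x (cyclotomic m ℤ) = x ^ n - 1 := by
      rw [← map_prod, prod_cyclotomic_eq_X_pow_sub_one hn]
      simp
    have hne : ∀ m ∈ n.divisors, aeval x (cyclotomic m ℤ) ≠ 0 := by
      intro m hm h0
      apply hx
      rw [← sub_eq_zero, ← hprod]
      exact Finset.prod_eq_zero hm h0
    have hcof : ∀ m ∈ n.divisors, aeval x (cyclotomic m ℤ) * aeval x (cofactor n m) = x ^ n - 1 := by
      intro m hm
      rw [← map_mul, cyclo_mul_cofactor hn hm]
      simp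
    have hxn : x ^ n - 1 ≠ 0 := sub_ne_zero.2 hx
    have hcne : ∀ m ∈ n.divisors, aeval x (cofactor n m) ≠ 0 := by
      intro m hm h0
      apply hxn
      rw [← hcof m hm, h0, mul_zero]
    have hneg : av v (1 - x ^ n) = av v (x ^ n - 1) := by rw [← av_neg, neg_sub]
    rw [hneg]
    by_cases hex : ∃ m ∈ n.divisors,
        mt v * -Real.log (av v (aeval x (cofactor n m))) ≤ C1 m * dg K
    · obtain ⟨m, hm, h1⟩ := hex
      rw [← hcof m hm, map_mul, Real.log_mul ((av v).ne_zero (hne m hm))
        ((av v).ne_zero (hcne m hm))]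
      have h2 := neg_log_av_le v (aeval x (cyclotomic m ℤ))
      have h3 := D_aeval_le x (cyclotomic m ℤ)
      rw [natDegree_cyclotomic] at h3
      have h4 : (m.totient : ℝ) ≤ n.totient := by
        exact_mod_cast Nat.le_of_dvd (Nat.totient_pos.2 hn)
          (Nat.totient_dvd_of_dvd (Nat.dvd_of_mem_divisors hm))
      have h5 : (m.totient : ℝ) * D x ≤ n.totient * D x := mul_le_mul_of_nonneg_right h4 hD
      have h6 : C1 m ≤ S1 := Finset.single_le_sum (fun k _ => hC10 k) hm
      have h7 : Real.log (nrm (cyclotomic m ℤ)) ≤ S2 :=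
        Finset.single_le_sum (f := fun m => Real.log (nrm (cyclotomic m ℤ)))
          (fun k _ => log_nrm_nonneg _) hm
      have h8 : C1 m * dg K ≤ S1 * dg K := mul_le_mul_of_nonneg_right h6 hd.le
      have h9 : Real.log (nrm (cyclotomic m ℤ)) * dg K ≤ S2 * dg K :=
        mul_le_mul_of_nonneg_right h7 hd.le
      nlinarith
    · push Not at hex
      have h1 : ∀ m ∈ n.divisors,
          mt v * -Real.log (av v (aeval x (cyclotomic m ℤ))) ≤ C1 m * dg K := by
        intro m hm
        rcases hC1 m K x v hsmall (hne m hm) (hcne m hm) with h | h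
        · exact h
        · exact absurd h (not_le.2 (hex m hm))
      rw [← hprod, map_prod, Real.log_prod (fun m hm => (av v).ne_zero (hne m hm)),
        ← Finset.sum_neg_distrib, Finset.mul_sum]
      refine (Finset.sum_le_sum h1).trans ?_
      rw [← Finset.sum_mul]
      have h2 : 0 ≤ (n.totient : ℝ) * D x + S2 * dg K := by positivity
      nlinarith

end Pool.Agent.N757.RD
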