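import Pool.Agent.H79.L.N757_RD_Near

/-!
# The reduction, in terms of one number
-/

set_option autoImplicit false

namespace Pool.Agent.N757.RD

open NumberField IsDedekindDomain Height Real Polynomial

section Fin

variable {K : Type} [Field K] [NumberField K]

theorem mk_le_half (p : HeightOneSpectrum (𝓞 K)) {y : K} (h : FinitePlace.mk p y < 1) :
    FinitePlace.mk p y ≤ 1 / 2 := by
  by_cases hy : y = 0
  · rw [hy, map_zero]; norm_num
  · have hpos : 0 < FinitePlace.mk p y := FinitePlace.pos_iff.2 hy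
    have hN : (2 : ℝ) ≤ (Ideal.absNorm p.asIdeal : ℝ) := by
      exact_mod_cast HeightOneSpectrum.one_lt_absNorm p
    have h1 := logN_le p hy h
    rw [map_inv₀] at h1
    have h2 : (Ideal.absNorm p.asIdeal : ℝ) ≤ (FinitePlace.mk p y)⁻¹ :=
      (Real.log_le_log_iff (by linarith) (inv_pos.2 hpos)).1 h1
    have h3 : (2 : ℝ) ≤ (FinitePlace.mk p y)⁻¹ := hN.trans h2
    rw [le_inv_comm₀ (by norm_num) hpos] at h3
    linarith

theorem mk_pow_sub (p : HeightOneSpectrum (𝓞 K)) {y : K} (hy : FinitePlace.mk p y ≤ 1) (i : ℕ) :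
    FinitePlace.mk p (1 - y ^ i) ≤ FinitePlace.mk p (1 - y) := by
  rw [← aeval_geo, map_mul]
  have h1 := fin_aeval_le p y (geo i)
  rw [max_eq_left hy, one_pow] at h1
  exact mul_le_of_le_one_right (apply_nonneg _ _) h1

theorem mk_norm_lt (p : HeightOneSpectrum (𝓞 K)) :
    FinitePlace.mk p ((Ideal.absNorm p.asIdeal : ℕ) : K) ≤ 1 / 2 := by
  apply mk_le_half
  have h1 : ((Ideal.absNorm p.asIdeal : ℕ) : K) =
      algebraMap (𝓞 K) K ((Ideal.absNorm p.asIdeal : ℕ) : 𝓞 K) := by simp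
  rw [h1, FinitePlace.mk_apply, FinitePlace.norm_lt_one_iff_mem K p]
  exact Ideal.absNorm_mem p.asIdeal

theorem unit_step (p : HeightOneSpectrum (𝓞 K)) {y : K} (hy : FinitePlace.mk p y ≤ 1) {t : ℝ}
    (ht : t ≤ 1 / 2) (h : FinitePlace.mk p (1 - y) ≤ t) :
    FinitePlace.mk p (1 - y ^ Ideal.absNorm p.asIdeal) ≤ t / 2 := by
  set N := Ideal.absNorm p.asIdeal with hN
  have h0 := apply_nonneg (FinitePlace.mk p) (1 - y)
  have e : (1 : K) - y ^ N = (1 - y) * ((N : K) + -∑ i ∈ Finset.range N, (1 - y ^ i)) := by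
    have h1 := mul_geom_sum y N
    rw [Finset.sum_sub_distrib]
    simp only [Finset.sum_const, Finset.card_range, nsmul_eq_mul, mul_one]
    linear_combination h1
  rw [e, map_mul]
  have h2 : FinitePlace.mk p ((N : K) + -∑ i ∈ Finset.range N, (1 - y ^ i)) ≤ 1 / 2 := by
    refine (fin_add_le p _ _).trans (max_le (mk_norm_lt p) ?_)
    rw [map_neg_eq_map]
    exact fin_sum_le p _ _ (by norm_num) fun i _ => (mk_pow_sub p hy i).trans (h.trans ht)
  have h3 := apply_nonneg (FinitePlace.mk p) ((N : K) + -∑ i ∈ Finset.range N, (1 - y ^ i))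
  have ht0 : 0 ≤ t := h0.trans h
  calc FinitePlace.mk p (1 - y) * FinitePlace.mk p ((N : K) + -∑ i ∈ Finset.range N, (1 - y ^ i))
      ≤ t * (1 / 2) := mul_le_mul h h2 h3 ht0
    _ = t / 2 := by ring

theorem unit_near (p : HeightOneSpectrum (𝓞 K)) {x : K} (hx : FinitePlace.mk p x = 1) (k : ℕ) :
    FinitePlace.mk p (1 - x ^ ((Ideal.absNorm p.asIdeal - 1) * Ideal.absNorm p.asIdeal ^ k)) ≤
      (1 / 2) ^ (k + 1) := by
  induction k with
  | zero =>
    obtain ⟨o, -, ho1, ho⟩ := exists_order p hx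
    have h1 := mk_le_half p ((ho _).2 ho1)
    simpa using h1
  | succ k ih =>
    have h1 : x ^ ((Ideal.absNorm p.asIdeal - 1) * Ideal.absNorm p.asIdeal ^ (k + 1)) =
        (x ^ ((Ideal.absNorm p.asIdeal - 1) * Ideal.absNorm p.asIdeal ^ k)) ^
          Ideal.absNorm p.asIdeal := by
      rw [← pow_mul]
      congr 1
      ring
    rw [h1]
    have h2 : (1 / 2 : ℝ) ^ (k + 1) ≤ 1 / 2 := by
      calc (1 / 2 : ℝ) ^ (k + 1) ≤ (1 / 2) ^ 1 :=
            pow_le_pow_of_le_one (by norm_num) (by norm_num) (by omega)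
        _ = 1 / 2 := pow_one _
    have h3 := unit_step p (y := x ^ ((Ideal.absNorm p.asIdeal - 1) * Ideal.absNorm p.asIdeal ^ k))
      (by rw [map_pow, hx, one_pow]) h2 ih
    refine h3.trans (le_of_eq ?_)
    ring

theorem finite_near (p : HeightOneSpectrum (𝓞 K)) {δ : ℝ} (hδ : 0 < δ) :
    ∃ n0 : ℕ, 0 < n0 ∧ ∀ n : ℕ, n0 ∣ n → 0 < n → ∀ x : K, x ≠ 0 →
      Near (av (K := K) (.inr p)) δ (x ^ n) := by
  obtain ⟨k, hk⟩ := exists_pow_lt_of_lt_one hδ (by norm_num : (1 / 2 : ℝ) < 1)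
  have hN := HeightOneSpectrum.one_lt_absNorm p
  set N := Ideal.absNorm p.asIdeal with hNdef
  have hN1 : 0 < N - 1 := by omega
  have hNk : 0 < N ^ k := by positivity
  refine ⟨(N - 1) * N ^ k, by positivity, fun n hn hn0 x hx => ?_⟩
  have hkn : k ≤ n := by
    have h1 : k < N ^ k := Nat.lt_pow_self hN
    have h2 : N ^ k ≤ (N - 1) * N ^ k := Nat.le_mul_of_pos_left _ hN1
    have h3 := Nat.le_of_dvd hn0 hn
    omega
  have hpow : (1 / 2 : ℝ) ^ n < δ := (pow_le_pow_of_le_one (by norm_num) (by norm_num) hkn).trans_lt hk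
  rcases lt_trichotomy (FinitePlace.mk p x) 1 with h | h | h
  · left
    rw [av_inr, map_pow]
    exact (pow_le_pow_left₀ (apply_nonneg _ _) (mk_le_half p h) n).trans_lt hpow
  · right; left
    rw [av_inr]
    obtain ⟨c, rfl⟩ := hn
    rw [pow_mul]
    refine (mk_pow_sub p ?_ c).trans_lt ?_
    · rw [map_pow, h, one_pow]
    · refine (unit_near p h k).trans_lt ?_
      refine lt_of_le_of_lt ?_ hk
      exact pow_le_pow_of_le_one (by norm_num) (by norm_num) (by omega)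
  · right; right
    rw [av_inr, map_pow]
    have h1 : FinitePlace.mk p x⁻¹ < 1 := by
      rw [map_inv₀]
      exact inv_lt_one_of_one_lt₀ h
    have h2 := mk_le_half p h1
    rw [map_inv₀] at h2
    have hpos : 0 < FinitePlace.mk p x := by linarith
    have h3 : 2 ≤ FinitePlace.mk p x := by
      rw [inv_le_comm₀ hpos (by norm_num)] at h2
      simpa using h2
    have h4 : (2 : ℝ) ^ n ≤ FinitePlace.mk p x ^ n := pow_le_pow_left₀ (by norm_num) h3 n
    have h5 : (1 / 2 : ℝ) ^ n * 2 ^ n = 1 := by rw [← mul_pow]; norm_num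
    have h6 : (0 : ℝ) < 2 ^ n := by positivity
    nlinarith

theorem exists_near (S : Finset (Pl K)) {δ : ℝ} (hδ : 0 < δ) :
    ∃ N : Finset ℕ, (∀ n ∈ N, 0 < n) ∧ ∀ x : K, x ≠ 0 → ∃ n ∈ N, ∀ v ∈ S,
      Near (av v) δ (x ^ n) := by
  classical
  choose n0 hn0 hn0' using fun p : HeightOneSpectrum (𝓞 K) => finite_near p hδ
  set m0 : ℕ := ∏ v ∈ S, (match v with | .inl _ => 1 | .inr p => n0 p) with hm0
  have hm0pos : 0 < m0 := by
    refine Finset.prod_pos fun v _ => ?_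
    cases v with
    | inl w => exact one_pos
    | inr p => exact hn0 p
  obtain ⟨N, hN1, hN2⟩ := all_near (InfinitePlace K) m0 hm0pos hδ
  refine ⟨N, fun n hn => (hN1 n hn).2, fun x hx => ?_⟩
  obtain ⟨n, hn, hnear⟩ := hN2 fun w => w.embedding x
  refine ⟨n, hn, fun v hv => ?_⟩
  cases v with
  | inl w =>
    have h1 := hnear w
    unfold CNear at h1
    unfold Near
    rw [av_inl, av_inl]
    have e1 : w (x ^ n) = ‖w.embedding x ^ n‖ := by
      rw [← InfinitePlace.norm_embedding_eq, map_pow]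
    have e2 : w (1 - x ^ n) = ‖1 - w.embedding x ^ n‖ := by
      rw [← InfinitePlace.norm_embedding_eq, map_sub, map_one, map_pow]
    rw [e1, e2]
    exact h1
  | inr p =>
    refine hn0' p n ?_ (hN1 n hn).2 x hx
    refine dvd_trans ?_ (hN1 n hn).1
    exact Finset.dvd_prod_of_mem
      (fun v : Pl K => (match v with | .inl _ => 1 | .inr p => n0 p : ℕ)) hv

omit [NumberField K] in
theorem Near.mono {α : AbsoluteValue K ℝ} {δ δ' : ℝ} {x : K} (h : Near α δ x) (hd : δ ≤ δ') :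
    Near α δ' x := by
  rcases h with h | h | h
  · exact Or.inl (by linarith)
  · exact Or.inr (Or.inl (by linarith))
  · exact Or.inr (Or.inr (lt_of_lt_of_le h (mul_le_mul_of_nonneg_right hd (α.nonneg x))))

theorem av_four_pos (v : Pl K) : 0 < av v (4 : K) := (av v).pos (by norm_num)

/-- closeness after all the maps -/
theorem S_near (S : Finset (Pl K)) (m : ℕ) (hm : 0 < m) {δ : ℝ} (hδ : 0 < δ) :
    ∃ δ' : ℝ, 0 < δ' ∧ ∀ x : K, (∀ v ∈ S, Near (av v) δ' x) → q x ≠ 0 → q x ≠ 1 →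
      ∀ v ∈ S, av v (F m (q (wm (q x)))) < δ := by
  classical
  choose d1 hd1 hd1' using fun v : Pl K => F_near (av v) m hm hδ
  choose d2 hd2 hd2' using fun v : Pl K => qwq_near (av v) (av_four_pos v) (hd1 v)
  have hmin : ∃ δ' : ℝ, 0 < δ' ∧ ∀ v ∈ S, δ' ≤ d2 v := by
    induction S using Finset.induction_on with
    | empty => exact ⟨1, one_pos, fun v hv => absurd hv (Finset.notMem_empty v)⟩
    | insert a s ha ih =>
      obtain ⟨δ', h1, h2⟩ := ih
      refine ⟨min δ' (d2 a), lt_min h1 (hd2 a), fun v hv => ?_⟩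
      rcases Finset.mem_insert.1 hv with rfl | hv
      · exact min_le_right _ _
      · exact (min_le_left _ _).trans (h2 v hv)
  obtain ⟨δ', h1, h2⟩ := hmin
  refine ⟨δ', h1, fun x hx h0 h1' v hv => ?_⟩
  exact hd1' v _ (hd2' v x ((hx v hv).mono (h2 v hv)) h0 h1')

end Fin

/-- `F m` is a good map -/
theorem good_F (m : ℕ) (hm : 0 < m) : ∃ C : ℝ, 0 ≤ C ∧
    ∀ (K : Type) [Field K] [NumberField K], Good K ((m : ℝ) ^ 3) C (F m) := by
  have hm1 : (1 : ℝ) ≤ m := by exact_mod_cast hm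
  set c : ℝ := Real.log (nrm (geo m)) with hc
  have hc0 : 0 ≤ c := log_nrm_nonneg _
  have hc1 := c1_nonneg
  -- constants of the compositions
  set a1 : ℝ := c + c1 + 1 * c with ha1
  have ha1' : 0 ≤ a1 := by positivity
  set a2 : ℝ := a1 + c + m * a1 with ha2
  have ha2' : 0 ≤ a2 := by positivity
  set a3 : ℝ := a2 + 0 + 1 * a2 with ha3
  have ha3' : 0 ≤ a3 := by positivity
  set a4 : ℝ := a3 + c1 + 1 * a3 with ha4
  have ha4' : 0 ≤ a4 := by positivity
  set a5 : ℝ := a4 + c + m * a4 with ha5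
  have ha5' : 0 ≤ a5 := by positivity
  refine ⟨a5, ha5', ?_⟩
  intro K _ _
  have g1 : Good K m c (fun x => x ^ m) := good_pow hm
  have g2 : Good K (1 * m) a1 (fun x => 1 - x ^ m) := g1.comp good_one_sub hm1 le_rfl hc0 hc1
  have g3 : Good K (m * (1 * m)) a2 (fun x => (1 - x ^ m) ^ m) :=
    g2.comp (good_pow hm) (by linarith) hm1 ha1' hc0
  have hmm : (1 : ℝ) ≤ m * (1 * m) := by nlinarith
  have g4 : Good K (1 * (m * (1 * m))) a3 (fun x => ((1 - x ^ m) ^ m)⁻¹) :=
    g3.comp good_inv hmm le_rfl ha2' le_rfl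
  have g5 : Good K (1 * (1 * (m * (1 * m)))) a4 (fun x => 1 - ((1 - x ^ m) ^ m)⁻¹) :=
    g4.comp good_one_sub (by linarith) le_rfl ha3' hc1
  have g6 : Good K (m * (1 * (1 * (m * (1 * m))))) a5 (fun x => (1 - ((1 - x ^ m) ^ m)⁻¹) ^ m) :=
    g5.comp (good_pow hm) (by linarith) hm1 ha4' hc0
  have e : (m : ℝ) * (1 * (1 * (m * (1 * m)))) = (m : ℝ) ^ 3 := by ring
  rw [e] at g6
  exact g6

/-- `wm` is a good map -/
theorem good_wm (K : Type) [Field K] [NumberField K] : Good K 1 (2 * c1) (wm : K → K) := by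
  have hc1 := c1_nonneg
  have g1 : Good K (1 * 1) (0 + c1 + 1 * 0) (fun x : K => 1 - x⁻¹) :=
    good_inv.comp good_one_sub le_rfl le_rfl le_rfl hc1
  have g2 : Good K (1 * (1 * 1)) ((0 + c1 + 1 * 0) + 0 + 1 * (0 + c1 + 1 * 0))
      (fun x : K => (1 - x⁻¹)⁻¹) :=
    g1.comp good_inv (by norm_num) le_rfl (by linarith) le_rfl
  have e : (1 : ℝ) * (1 * 1) = 1 := by norm_num
  rw [e] at g2
  exact g2.mono (by linarith)

end Pool.Agent.N757.RD
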