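import Pool.Agent.H79.L.N757_RD_Cyclo

/-!
# Maps which transfer the abc inequality

`R x` is the radical (times the degree) of the point `(x : 1 - x : -1)`. A map `f` of the projective
line which is unramified outside of the points over `0, 1, ∞`, of degree `N`, and maps `0, 1, ∞` to
`0, 1, ∞`, satisfies `D (f x) = N D x + O(1)` and `R (f x) ≤ R x + (N - 1) D x + O(1)`.
-/

set_option autoImplicit false

namespace Pool.Agent.N757.RD

open NumberField IsDedekindDomain Height Real Polynomial

variable {K : Type} [Field K] [NumberField K]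

/-- the primes dividing the point `(x : 1 - x : -1)` -/
def I (x : K) : Set (HeightOneSpectrum (𝓞 K)) :=
  {p | FinitePlace.mk p x ≠ 1 ∨ FinitePlace.mk p (1 - x) ≠ 1}

/-- the radical, times the degree -/
noncomputable def R (x : K) : ℝ := W (I x)

theorem finite_I {x : K} (h0 : x ≠ 0) (h1 : x ≠ 1) : (I x).Finite :=
  (finite_ne_one h0).union (finite_ne_one (sub_ne_zero.2 h1.symm))

theorem R_nonneg (x : K) : 0 ≤ R x := W_nonneg _

theorem R_one_sub (x : K) : R (1 - x) = R x := by
  unfold R I
  congr 1
  ext p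
  simp only [Set.mem_ofPred_eq, sub_sub_cancel]
  exact or_comm

theorem fin_one_sub_eq (p : HeightOneSpectrum (𝓞 K)) (x : K) :
    FinitePlace.mk p (1 - x) = FinitePlace.mk p (x - 1) := by
  rw [← map_neg_eq_map (FinitePlace.mk p) (1 - x), neg_sub]

theorem R_inv {x : K} (h0 : x ≠ 0) : R x⁻¹ = R x := by
  unfold R I
  congr 1
  ext p
  simp only [Set.mem_ofPred_eq]
  have hp : 0 < FinitePlace.mk p x := FinitePlace.pos_iff.2 h0
  have h1 : (1 : K) - x⁻¹ = (x - 1) / x := by field_simp
  rw [h1, map_div₀, map_inv₀, ← fin_one_sub_eq]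
  by_cases hx : FinitePlace.mk p x = 1
  · rw [hx]; simp
  · constructor
    · intro _; exact Or.inl hx
    · intro _; left
      intro h
      exact hx (inv_eq_one.1 h)

theorem D_one_sub_le (x : K) : D (1 - x) ≤ D x + Real.log (nrm (1 - X : ℤ[X])) * dg K := by
  have h1 := D_aeval_le x (1 - X : ℤ[X])
  have h2 : aeval x (1 - X : ℤ[X]) = 1 - x := by simp
  rw [h2] at h1
  have h3 : (1 - X : ℤ[X]).natDegree ≤ 1 := by
    have := natDegree_sub_le (1 : ℤ[X]) X
    simpa using this
  have h4 : ((1 - X : ℤ[X]).natDegree : ℝ) * D x ≤ 1 * D x :=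
    mul_le_mul_of_nonneg_right (by exact_mod_cast h3) (D_nonneg x)
  linarith

/-- a constant for the map `1 - x` -/
noncomputable def c1 : ℝ := Real.log (nrm (1 - X : ℤ[X]))

theorem c1_nonneg : 0 ≤ c1 := log_nrm_nonneg _

theorem D_one_sub_le' (x : K) : D (1 - x) ≤ D x + c1 * dg K := D_one_sub_le x

theorem D_le_one_sub (x : K) : D x ≤ D (1 - x) + c1 * dg K := by
  have := D_one_sub_le' (1 - x)
  rwa [sub_sub_cancel] at this

/-- maps of degree `N` which transfer the abc inequality; `C` is a constant, up to the degree -/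
def Good (K : Type) [Field K] [NumberField K] (N C : ℝ) (f : K → K) : Prop :=
  ∀ x : K, x ≠ 0 → x ≠ 1 → D x ≤ C * dg K ∨
    (f x ≠ 0 ∧ f x ≠ 1 ∧ N * D x ≤ D (f x) + C * dg K ∧ D (f x) ≤ N * D x + C * dg K ∧
      R (f x) ≤ R x + (N - 1) * D x + C * dg K)

theorem Good.comp {N C M C' : ℝ} {f g : K → K} (hf : Good K N C f) (hg : Good K M C' g)
    (hN : 1 ≤ N) (hM : 1 ≤ M) (hC : 0 ≤ C) (hC' : 0 ≤ C') :
    Good K (M * N) (C + C' + M * C) (fun x => g (f x)) := by
  intro x h0 h1
  have hd := dg_pos (K := K)
  have hD := D_nonneg x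
  have e1 : 0 ≤ C * dg K := by positivity
  have e2 : 0 ≤ C' * dg K := by positivity
  have e3 : 0 ≤ M * C * dg K := by positivity
  rcases hf x h0 h1 with h | ⟨f0, f1, fa, fb, fc⟩
  · left; nlinarith
  · rcases hg (f x) f0 f1 with h | ⟨g0, g1, ga, gb, gc⟩
    · left; nlinarith
    · right
      refine ⟨g0, g1, ?_, ?_, ?_⟩
      · have : M * (N * D x) ≤ M * (D (f x) + C * dg K) :=
          mul_le_mul_of_nonneg_left fa (by linarith)
        nlinarith
      · have : M * D (f x) ≤ M * (N * D x + C * dg K) :=
          mul_le_mul_of_nonneg_left fb (by linarith)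
        nlinarith
      · have : (M - 1) * D (f x) ≤ (M - 1) * (N * D x + C * dg K) :=
          mul_le_mul_of_nonneg_left fb (by linarith)
        nlinarith

theorem Good.mono {N C C' : ℝ} {f : K → K} (hf : Good K N C f) (h : C ≤ C') : Good K N C' f := by
  intro x h0 h1
  have hd := dg_pos (K := K)
  have e : C * dg K ≤ C' * dg K := mul_le_mul_of_nonneg_right h hd.le
  rcases hf x h0 h1 with h | ⟨f0, f1, fa, fb, fc⟩
  · left; linarith
  · right; exact ⟨f0, f1, by linarith, by linarith, by linarith⟩

theorem good_one_sub : Good K 1 c1 (fun x => 1 - x) := by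
  intro x h0 h1
  right
  refine ⟨sub_ne_zero.2 h1.symm, fun h => h0 ?_, ?_, ?_, ?_⟩
  · simpa using h
  · rw [one_mul]; exact D_le_one_sub x
  · rw [one_mul]; exact D_one_sub_le' x
  · rw [R_one_sub]
    have := mul_nonneg c1_nonneg (dg_pos (K := K)).le
    linarith

theorem good_inv : Good K 1 0 (fun x => x⁻¹) := by
  intro x h0 h1
  right
  refine ⟨inv_ne_zero h0, fun h => h1 (inv_eq_one.1 h), ?_, ?_, ?_⟩
  · rw [D_inv]; linarith
  · rw [D_inv]; linarith
  · rw [R_inv h0]; linarith

/-- the polynomial `1 + X + ... + X ^ (n - 1)` -/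
noncomputable def geo (n : ℕ) : ℤ[X] := ∑ i ∈ Finset.range n, X ^ i

omit [NumberField K] in
theorem aeval_geo (n : ℕ) (x : K) : (1 - x) * aeval x (geo n) = 1 - x ^ n := by
  unfold geo
  rw [map_sum]
  simp only [map_pow, aeval_X]
  have := mul_geom_sum x n
  linear_combination -this

theorem natDegree_geo (n : ℕ) : (geo n).natDegree ≤ n - 1 := by
  unfold geo
  refine natDegree_sum_le_of_forall_le _ _ fun i hi => ?_
  rw [natDegree_X_pow]
  have := Finset.mem_range.1 hi
  omega

theorem D_eq_zero_of_pow {n : ℕ} (hn : 0 < n) {x : K} (h : x ^ n = 1) : D x = 0 := by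
  have h1 : D (x ^ n) = n * D x := logHeight₁_pow x n
  rw [h] at h1
  have h2 : D (1 : K) = 0 := logHeight₁_one
  rw [h2] at h1
  have h3 : (n : ℝ) ≠ 0 := by exact_mod_cast hn.ne'
  rcases mul_eq_zero.1 h1.symm with h | h
  · exact absurd h h3
  · exact h

theorem D_pow (x : K) (n : ℕ) : D (x ^ n) = n * D x := logHeight₁_pow x n

theorem good_pow {n : ℕ} (hn : 0 < n) : Good K n (Real.log (nrm (geo n))) (fun x => x ^ n) := by
  intro x h0 h1
  have hd := dg_pos (K := K)
  have hc : 0 ≤ Real.log (nrm (geo n)) * dg K := mul_nonneg (log_nrm_nonneg _) hd.le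
  by_cases hx : x ^ n = 1
  · left
    rw [D_eq_zero_of_pow hn hx]
    exact hc
  · right
    refine ⟨pow_ne_zero n h0, hx, ?_, ?_, ?_⟩
    · rw [D_pow]; linarith
    · rw [D_pow]; linarith
    · have hG : aeval x (geo n) ≠ 0 := by
        intro h
        have := aeval_geo n x
        rw [h, mul_zero] at this
        exact hx (sub_eq_zero.1 this.symm).symm
      have hsub : I (x ^ n) ⊆ I x ∪ lows (aeval x (geo n)) := by
        intro p hp
        by_cases hpx : p ∈ I x
        · exact Or.inl hpx
        · right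
          simp only [I, Set.mem_ofPred_eq, not_or, not_not] at hpx
          obtain ⟨h2, h3⟩ := hpx
          have h4 : FinitePlace.mk p (x ^ n) = 1 := by rw [map_pow, h2, one_pow]
          have h5 : FinitePlace.mk p (1 - x ^ n) ≠ 1 := by
            rcases hp with h | h
            · exact absurd h4 h
            · exact h
          rw [← aeval_geo, map_mul, h3, one_mul] at h5
          have h6 := fin_aeval_le p x (geo n)
          rw [h2, max_self, one_pow] at h6
          exact lt_of_le_of_ne h6 h5
      unfold R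
      have h7 := W_mono hsub ((finite_I h0 h1).union (finite_lows hG))
      have h8 := W_union (finite_I h0 h1) (finite_lows hG)
      have h9 := W_lows_le hG
      have h10 := D_aeval_le x (geo n)
      have h11 : ((geo n).natDegree : ℝ) * D x ≤ ((n : ℝ) - 1) * D x := by
        refine mul_le_mul_of_nonneg_right ?_ (D_nonneg x)
        have h12 := natDegree_geo n
        have h13 : (((geo n).natDegree : ℕ) : ℝ) ≤ ((n - 1 : ℕ) : ℝ) := by exact_mod_cast h12
        rwa [Nat.cast_sub hn, Nat.cast_one] at h13
      linarith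

/-- the map `4 x (1 - x)` -/
def q (x : K) : K := 4 * x * (1 - x)

omit [NumberField K] in
theorem one_sub_q (x : K) : 1 - q x = (1 - 2 * x) ^ 2 := by unfold q; ring

/-- a constant for the map `1 - 2 x` -/
noncomputable def c2 : ℝ := Real.log (nrm (1 - 2 * X : ℤ[X]))

theorem c2_nonneg : 0 ≤ c2 := log_nrm_nonneg _

theorem D_one_sub_two (x : K) : D (1 - 2 * x) ≤ D x + c2 * dg K := by
  have h1 := D_aeval_le x (1 - 2 * X : ℤ[X])
  have h2 : aeval x (1 - 2 * X : ℤ[X]) = 1 - 2 * x := by
    rw [map_sub, map_mul, aeval_X, map_one, map_ofNat]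
  rw [h2] at h1
  have h3 : (1 - 2 * X : ℤ[X]).natDegree ≤ 1 := by compute_degree
  have h4 : ((1 - 2 * X : ℤ[X]).natDegree : ℝ) * D x ≤ 1 * D x :=
    mul_le_mul_of_nonneg_right (by exact_mod_cast h3) (D_nonneg x)
  unfold c2
  linarith

theorem D_two : D (2 : K) ≤ dg K * Real.log 2 := by
  have := D_intCast_le (K := K) 2 (by norm_num)
  simpa using this

theorem D_le_one_sub_two (x : K) : D x ≤ D (1 - 2 * x) + (c1 + Real.log 2) * dg K := by
  have h1 : x = (1 - (1 - 2 * x)) * 2⁻¹ := by ring
  have h2 : D x ≤ D (1 - (1 - 2 * x)) + D ((2 : K)⁻¹) := by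
    conv_lhs => rw [h1]
    exact logHeight₁_mul_le _ _
  rw [D_inv] at h2
  have h3 := D_one_sub_le' (1 - 2 * x)
  have h4 := D_two (K := K)
  nlinarith

theorem D_eq_zero_of_two {x : K} (h : 1 - 2 * x = 0) : D x ≤ (c1 + Real.log 2) * dg K := by
  have h1 := D_le_one_sub_two x
  rw [h] at h1
  have h2 : D (0 : K) = 0 := logHeight₁_zero
  linarith

theorem good_q : Good K 2 (2 * (2 * c1 + c2 + 2 * Real.log 2)) (q : K → K) := by
  intro x h0 h1
  have hd := dg_pos (K := K)
  have hD := D_nonneg x
  have l2 : 0 ≤ Real.log 2 := Real.log_nonneg (by norm_num)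
  have k1 := mul_nonneg c1_nonneg hd.le
  have k2 := mul_nonneg c2_nonneg hd.le
  have k3 := mul_nonneg l2 hd.le
  by_cases hx : 1 - 2 * x = 0
  · left
    have := D_eq_zero_of_two hx
    nlinarith
  · right
    have hq0 : q x ≠ 0 := by
      unfold q
      exact mul_ne_zero (mul_ne_zero (by norm_num) h0) (sub_ne_zero.2 h1.symm)
    have hq1 : q x ≠ 1 := by
      intro h
      have h2 := one_sub_q x
      rw [h, sub_self] at h2
      exact hx (pow_eq_zero_iff (by norm_num) |>.1 h2.symm)
    have e1 : D (1 - q x) = 2 * D (1 - 2 * x) := by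
      rw [one_sub_q, D_pow]; norm_num
    have e2 := D_one_sub_two x
    have e3 := D_le_one_sub_two x
    have e4 := D_one_sub_le' (q x)
    have e5 := D_le_one_sub (q x)
    refine ⟨hq0, hq1, by nlinarith, by nlinarith, ?_⟩
    have h20 : (2 : K) ≠ 0 := by norm_num
    have hsub : I (q x) ⊆ I x ∪ (lows (1 - 2 * x) ∪ lows (2 : K)) := by
      intro p hp
      by_cases hpx : p ∈ I x
      · exact Or.inl hpx
      · right
        simp only [I, Set.mem_ofPred_eq, not_or, not_not] at hpx
        obtain ⟨h2, h3⟩ := hpx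
        by_cases hp2 : FinitePlace.mk p (2 : K) < 1
        · exact Or.inr hp2
        · left
          have h4 : FinitePlace.mk p (2 : K) = 1 := by
            refine le_antisymm ?_ (not_lt.1 hp2)
            have := fin_intCast_le (K := K) p 2
            simpa using this
          have h5 : FinitePlace.mk p (q x) = 1 := by
            have : q x = 2 * 2 * x * (1 - x) := by unfold q; ring
            rw [this, map_mul, map_mul, map_mul, h4, h2, h3]
            norm_num
          have h6 : FinitePlace.mk p (1 - q x) ≠ 1 := by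
            rcases hp with h | h
            · exact absurd h5 h
            · exact h
          rw [one_sub_q, map_pow] at h6
          have h7 : FinitePlace.mk p (1 - 2 * x) ≤ 1 := by
            have h8 := fin_add_le p (1 : K) (-(2 * x))
            rw [← sub_eq_add_neg, map_one, map_neg_eq_map, map_mul, h4, h2, one_mul,
              max_self] at h8
            exact h8
          refine lt_of_le_of_ne h7 fun h => h6 ?_
          rw [h, one_pow]
    unfold R
    have f1 := finite_I h0 h1
    have f2 := finite_lows hx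
    have f3 := finite_lows (K := K) h20
    have h7 := W_mono hsub (f1.union (f2.union f3))
    have h8 := W_union f1 (f2.union f3)
    have h9 := W_union f2 f3
    have h10 := W_lows_le hx
    have h11 := W_lows_le (K := K) h20
    have h12 := D_two (K := K)
    nlinarith

end Pool.Agent.N757.RD
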