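import Pool.Agent.H79.L.N757_RD_Reduce

/-!
# Points of the line `a + b + c = 0`
-/

set_option autoImplicit false

namespace Pool.Agent.N757.RD

open NumberField IsDedekindDomain Height Real Polynomial

variable {K : Type} [Field K] [NumberField K]

/-- the height, times the degree -/
noncomputable def H3 (x : Fin 3 → K) : ℝ :=
  ∑ w : InfinitePlace K, (w.mult : ℝ) * Real.log (max (w (x 0)) (max (w (x 1)) (w (x 2)))) +
    ∑ᶠ v : HeightOneSpectrum (𝓞 K), Real.log
      (max (FinitePlace.mk v (x 0)) (max (FinitePlace.mk v (x 1)) (FinitePlace.mk v (x 2))))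

theorem finsum_equiv (f : FinitePlace K → ℝ) :
    ∑ᶠ v : HeightOneSpectrum (𝓞 K), f (FinitePlace.mk v) = ∑ᶠ v : FinitePlace K, f v := by
  refine finsum_comp_equiv (f := f) (FinitePlace.equivHeightOneSpectrum.symm) |>.symm ▸ ?_
  rfl

theorem product_formula {z : K} (hz : z ≠ 0) :
    ∑ w : InfinitePlace K, (w.mult : ℝ) * Real.log (w z) +
      ∑ᶠ v : HeightOneSpectrum (𝓞 K), Real.log (FinitePlace.mk v z) = 0 := by
  have h1 := NumberField.prod_abs_eq_one hz
  have h2 := congrArg Real.log h1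
  have hinf : 0 < ∏ w : InfinitePlace K, w z ^ w.mult :=
    Finset.prod_pos fun w _ => pow_pos (w.pos_iff.2 hz) _
  have hfin : 0 < ∏ᶠ w : FinitePlace K, w z := by
    exact finprod_induction (fun a : ℝ => 0 < a) one_pos (fun _ _ => mul_pos)
      fun w => FinitePlace.pos_iff.2 hz
  rw [Real.log_one, Real.log_mul hinf.ne' hfin.ne', Real.log_prod
    (fun w _ => (pow_pos (w.pos_iff.2 hz) _).ne')] at h2
  rw [finsum_equiv (fun v => Real.log (v z))]
  have h3 : Real.log (∏ᶠ w : FinitePlace K, w z) = ∑ᶠ w : FinitePlace K, Real.log (w z) := by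
    rw [Real.log_finprod fun w => FinitePlace.pos_iff.2 hz]
  rw [h3] at h2
  rw [← h2]
  congr 1
  refine Finset.sum_congr rfl fun w _ => ?_
  rw [Real.log_pow]

theorem sum_mult : (∑ w : InfinitePlace K, (w.mult : ℝ)) = dg K := by
  unfold dg
  rw [← InfinitePlace.sum_mult_eq]
  push_cast
  rfl

theorem D_eq (y : K) : D y = ∑ w : InfinitePlace K, (w.mult : ℝ) * log⁺ (w y) +
    ∑ᶠ v : HeightOneSpectrum (𝓞 K), log⁺ (FinitePlace.mk v y) := by
  unfold D
  rw [NumberField.logHeight₁_eq, finsum_equiv (fun v => log⁺ (v y))]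

theorem supp_posLog (y : K) :
    (Function.support fun v : HeightOneSpectrum (𝓞 K) => log⁺ (FinitePlace.mk v y)).Finite := by
  by_cases hy : y = 0
  · subst hy
    convert Set.finite_empty
    ext v
    simp
  · refine (finite_ne_one hy).subset fun v hv h => hv ?_
    simp only
    rw [h]
    simp

theorem supp_log {y : K} (hy : y ≠ 0) :
    (Function.support fun v : HeightOneSpectrum (𝓞 K) => Real.log (FinitePlace.mk v y)).Finite := by
  refine (finite_ne_one hy).subset fun v hv h => hv ?_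
  simp only
  rw [h]
  simp

/-- the number `-a / c` -/
noncomputable def yy (x : Fin 3 → K) : K := -x 0 / x 2

omit [NumberField K] in
theorem yy_ne_zero {x : Fin 3 → K} (hx : x 0 * x 1 * x 2 ≠ 0) : yy x ≠ 0 := by
  have h0 : x 0 ≠ 0 := fun h => hx (by rw [h]; ring)
  have h2 : x 2 ≠ 0 := fun h => hx (by rw [h]; ring)
  exact div_ne_zero (neg_ne_zero.2 h0) h2

omit [NumberField K] in
theorem one_sub_yy {x : Fin 3 → K} (hs : x 0 + x 1 + x 2 = 0) (hx : x 0 * x 1 * x 2 ≠ 0) :
    1 - yy x = -x 1 / x 2 := by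
  have h2 : x 2 ≠ 0 := fun h => hx (by rw [h]; ring)
  unfold yy
  field_simp
  linear_combination hs

omit [NumberField K] in
theorem yy_ne_one {x : Fin 3 → K} (hs : x 0 + x 1 + x 2 = 0) (hx : x 0 * x 1 * x 2 ≠ 0) :
    yy x ≠ 1 := by
  have h1 : x 1 ≠ 0 := fun h => hx (by rw [h]; ring)
  have h2 : x 2 ≠ 0 := fun h => hx (by rw [h]; ring)
  intro h
  have h3 := one_sub_yy hs hx
  rw [h, sub_self] at h3
  exact div_ne_zero (neg_ne_zero.2 h1) h2 h3.symm

theorem max_fin (v : HeightOneSpectrum (𝓞 K)) (y : K) :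
    max (FinitePlace.mk v y) (max (FinitePlace.mk v (1 - y)) 1) = max 1 (FinitePlace.mk v y) := by
  have h1 : FinitePlace.mk v (1 - y) ≤ max 1 (FinitePlace.mk v y) := by
    have := fin_add_le v (1 : K) (-y)
    rwa [← sub_eq_add_neg, map_one, map_neg_eq_map] at this
  apply le_antisymm
  · exact max_le (le_max_right _ _) (max_le h1 (le_max_left _ _))
  · exact max_le ((le_max_right _ _).trans (le_max_right _ _)) (le_max_left _ _)

theorem H3_bounds {x : Fin 3 → K} (hs : x 0 + x 1 + x 2 = 0) (hx : x 0 * x 1 * x 2 ≠ 0) :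
    D (yy x) ≤ H3 x ∧ H3 x ≤ D (yy x) + Real.log 2 * dg K := by
  have h0 : x 0 ≠ 0 := fun h => hx (by rw [h]; ring)
  have h2 : x 2 ≠ 0 := fun h => hx (by rw [h]; ring)
  have e0 : x 0 = -(x 2 * yy x) := by unfold yy; field_simp
  have e1 : x 1 = -(x 2 * (1 - yy x)) := by rw [one_sub_yy hs hx]; field_simp
  obtain ⟨y, hy⟩ : ∃ y, y = yy x := ⟨_, rfl⟩
  obtain ⟨c, hc⟩ : ∃ c, c = x 2 := ⟨_, rfl⟩
  rw [← hy, ← hc] at e0 e1
  rw [← hc] at h2
  rw [← hy]
  have hy0 : y ≠ 0 := by rw [hy]; exact yy_ne_zero hx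
  have hfin : ∀ v : HeightOneSpectrum (𝓞 K), Real.log
      (max (FinitePlace.mk v (x 0)) (max (FinitePlace.mk v (x 1)) (FinitePlace.mk v (x 2)))) =
      Real.log (FinitePlace.mk v c) + log⁺ (FinitePlace.mk v y) := by
    intro v
    have hcp : 0 < FinitePlace.mk v c := FinitePlace.pos_iff.2 h2
    have e : max (FinitePlace.mk v (x 0)) (max (FinitePlace.mk v (x 1)) (FinitePlace.mk v (x 2))) =
        FinitePlace.mk v c * max 1 (FinitePlace.mk v y) := by
      rw [e0, e1, ← hc, map_neg_eq_map, map_neg_eq_map, map_mul, map_mul, ← max_fin v y,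
        mul_max_of_nonneg _ _ hcp.le, mul_max_of_nonneg _ _ hcp.le, mul_one]
    have hm : 0 < max 1 (FinitePlace.mk v y) := lt_max_of_lt_left one_pos
    rw [e, Real.log_mul hcp.ne' hm.ne', log_max_one _ (apply_nonneg _ _)]
  have hinf : ∀ w : InfinitePlace K, ∃ t : ℝ, 0 ≤ t ∧ t ≤ Real.log 2 ∧ Real.log
      (max (w (x 0)) (max (w (x 1)) (w (x 2)))) = Real.log (w c) + log⁺ (w y) + t := by
    intro w
    have hcp : 0 < w c := w.pos_iff.2 h2
    have e : max (w (x 0)) (max (w (x 1)) (w (x 2))) =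
        w c * max (w y) (max (w (1 - y)) 1) := by
      have n1 : w (-(c * y)) = w (c * y) := w.val.map_neg _
      have n2 : w (-(c * (1 - y))) = w (c * (1 - y)) := w.val.map_neg _
      rw [e0, e1, ← hc, n1, n2, map_mul, map_mul,
        mul_max_of_nonneg _ _ hcp.le, mul_max_of_nonneg _ _ hcp.le, mul_one]
    have hyn : 0 ≤ w y := apply_nonneg _ _
    have hm : 0 < max 1 (w y) := lt_max_of_lt_left one_pos
    have hm2 : max 1 (w y) ≤ max (w y) (max (w (1 - y)) 1) :=
      max_le ((le_max_right _ _).trans (le_max_right _ _)) (le_max_left _ _)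
    have hm3 : max (w y) (max (w (1 - y)) 1) ≤ 2 * max 1 (w y) := by
      have h3 : w (1 - y) ≤ 1 + w y := av_one_sub_le (.inl w) y
      have h4 : (1 : ℝ) ≤ max 1 (w y) := le_max_left _ _
      have h5 : w y ≤ max 1 (w y) := le_max_right _ _
      exact max_le (by linarith) (max_le (by linarith) (by linarith))
    refine ⟨Real.log (max (w y) (max (w (1 - y)) 1)) - log⁺ (w y), ?_, ?_, ?_⟩
    · rw [← log_max_one _ hyn]
      have := Real.log_le_log hm hm2
      linarith
    · rw [← log_max_one _ hyn]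
      have := Real.log_le_log (hm.trans_le hm2) hm3
      rw [Real.log_mul (by norm_num) hm.ne'] at this
      linarith
    · rw [e, Real.log_mul hcp.ne' (hm.trans_le hm2).ne']
      ring
  choose t ht0 ht2 ht using hinf
  have hH : H3 x = D y + ∑ w : InfinitePlace K, (w.mult : ℝ) * t w := by
    unfold H3
    rw [finsum_congr hfin, finsum_add_distrib (supp_log h2) (supp_posLog y)]
    have e2 : ∑ w : InfinitePlace K, (w.mult : ℝ) * Real.log
        (max (w (x 0)) (max (w (x 1)) (w (x 2)))) = ∑ w : InfinitePlace K, (w.mult : ℝ) *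
        Real.log (w c) + ∑ w : InfinitePlace K, (w.mult : ℝ) * log⁺ (w y) +
        ∑ w : InfinitePlace K, (w.mult : ℝ) * t w := by
      rw [← Finset.sum_add_distrib, ← Finset.sum_add_distrib]
      refine Finset.sum_congr rfl fun w _ => ?_
      rw [ht w]
      ring
    rw [e2, D_eq]
    have := product_formula h2
    linarith
  rw [hH]
  have s1 : 0 ≤ ∑ w : InfinitePlace K, (w.mult : ℝ) * t w :=
    Finset.sum_nonneg fun w _ => mul_nonneg (Nat.cast_nonneg _) (ht0 w)
  have s2 : ∑ w : InfinitePlace K, (w.mult : ℝ) * t w ≤ Real.log 2 * dg K := by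
    rw [← sum_mult, mul_comm, Finset.sum_mul]
    exact Finset.sum_le_sum fun w _ => mul_le_mul_of_nonneg_left (ht2 w) (Nat.cast_nonneg _)
  constructor <;> linarith

theorem mk_yy {x : Fin 3 → K} (v : HeightOneSpectrum (𝓞 K)) :
    FinitePlace.mk v (yy x) = FinitePlace.mk v (x 0) / FinitePlace.mk v (x 2) := by
  unfold yy
  rw [map_div₀, map_neg_eq_map]

theorem mk_one_sub_yy {x : Fin 3 → K} (hs : x 0 + x 1 + x 2 = 0) (hx : x 0 * x 1 * x 2 ≠ 0)
    (v : HeightOneSpectrum (𝓞 K)) :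
    FinitePlace.mk v (1 - yy x) = FinitePlace.mk v (x 1) / FinitePlace.mk v (x 2) := by
  rw [one_sub_yy hs hx, map_div₀, map_neg_eq_map]

/-- the primes at which the valuations of the coordinates are not all equal -/
theorem I_yy {x : Fin 3 → K} (hs : x 0 + x 1 + x 2 = 0) (hx : x 0 * x 1 * x 2 ≠ 0) :
    I (yy x) = {v | ¬ (FinitePlace.mk v (x 0) = FinitePlace.mk v (x 1) ∧
      FinitePlace.mk v (x 1) = FinitePlace.mk v (x 2))} := by
  have h2 : x 2 ≠ 0 := fun h => hx (by rw [h]; ring)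
  ext v
  have hv : FinitePlace.mk v (x 2) ≠ 0 := (FinitePlace.pos_iff.2 h2).ne'
  simp only [I, Set.mem_ofPred_eq]
  rw [mk_yy, mk_one_sub_yy hs hx, ne_eq, ne_eq, div_eq_one_iff_eq hv, div_eq_one_iff_eq hv]
  constructor
  · rintro (h | h) ⟨h3, h4⟩
    · exact h (h3.trans h4)
    · exact h h4
  · intro h
    by_contra hcon
    push Not at hcon
    exact h ⟨hcon.1.trans hcon.2.symm, hcon.2⟩

theorem supp_yy {x : Fin 3 → K} (hx : x 0 * x 1 * x 2 ≠ 0) :
    supp (yy x) = {v | FinitePlace.mk v (x 0) ≠ FinitePlace.mk v (x 2)} := by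
  have h2 : x 2 ≠ 0 := fun h => hx (by rw [h]; ring)
  ext v
  have hv : FinitePlace.mk v (x 2) ≠ 0 := (FinitePlace.pos_iff.2 h2).ne'
  simp only [supp, Set.mem_ofPred_eq]
  rw [mk_yy, ne_eq, ne_eq, div_eq_one_iff_eq hv]

end Pool.Agent.N757.RD
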