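import Mathlib

/-!
# Powers in a quadratic extension, and the covers of the twisted line

`pw s u v n` are the coefficients of `(u + v w) ^ n`, where `w ^ 2 = s`.
-/

set_option autoImplicit false

namespace Pool.Agent.N757.TL

open Polynomial

section ring

variable {R : Type} [CommRing R]

/-- the coefficients of `(u + v w) ^ n`, `w ^ 2 = s` -/
def pw (s u v : R) : ℕ → R × R
  | 0 => (1, 0)
  | n + 1 => (u * (pw s u v n).1 + s * v * (pw s u v n).2, v * (pw s u v n).1 + u * (pw s u v n).2)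

theorem pw_eval {S : Type} [CommRing S] (φ : R →+* S) {s : R} {w : S} (hw : w ^ 2 = φ s) (u v : R)
    (n : ℕ) : φ (pw s u v n).1 + w * φ (pw s u v n).2 = (φ u + w * φ v) ^ n := by
  induction n with
  | zero => simp [pw]
  | succ n ih =>
    rw [pow_succ', ← ih]
    simp only [pw, map_add, map_mul]
    linear_combination (-(φ v * φ (pw s u v n).2)) * hw

theorem pw_dvd (s u v : R) (n : ℕ) : s ∣ (pw s u v n).1 - u ^ n ∧
    s ∣ (pw s u v (n + 1)).2 - (n + 1) * u ^ n * v := by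
  have h1 : ∀ n : ℕ, s ∣ (pw s u v n).1 - u ^ n := by
    intro n
    induction n with
    | zero => simp [pw]
    | succ n ih =>
      obtain ⟨c, hc⟩ := ih
      refine ⟨u * c + v * (pw s u v n).2, ?_⟩
      simp only [pw]
      linear_combination u * hc
  refine ⟨h1 n, ?_⟩
  induction n with
  | zero => simp [pw]
  | succ n ih =>
    obtain ⟨c, hc⟩ := ih
    obtain ⟨d, hd⟩ := h1 (n + 1)
    refine ⟨v * d + u * c, ?_⟩
    rw [show (pw s u v (n + 1 + 1)).2 = v * (pw s u v (n + 1)).1 + u * (pw s u v (n + 1)).2 from rfl]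
    push_cast
    linear_combination v * hd + u * hc

/-- first component of the product -/
def Fp (s : R) (κ e : ℕ) (x : R) : R :=
  (pw s x 1 κ).1 * (pw s (2 * e * x) (-κ) (2 * e)).1 +
    s * ((pw s x 1 κ).2 * (pw s (2 * e * x) (-κ) (2 * e)).2)

/-- second component of the product -/
def Vp (s : R) (κ e : ℕ) (x : R) : R :=
  (pw s x 1 κ).1 * (pw s (2 * e * x) (-κ) (2 * e)).2 +
    (pw s x 1 κ).2 * (pw s (2 * e * x) (-κ) (2 * e)).1

theorem FV_eval {S : Type} [CommRing S] (φ : R →+* S) {s : R} {w : S} (hw : w ^ 2 = φ s) (κ e : ℕ)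
    (x : R) : φ (Fp s κ e x) + w * φ (Vp s κ e x) =
      (φ x + w) ^ κ * (2 * e * φ x - κ * w) ^ (2 * e) := by
  have h1 := pw_eval φ hw x 1 κ
  have h2 := pw_eval φ hw (2 * e * x) (-κ) (2 * e)
  simp only [map_one, mul_one, map_mul, map_ofNat, map_natCast, map_neg] at h1 h2
  have h3 : 2 * (e : S) * φ x - κ * w = 2 * e * φ x + w * -κ := by ring
  rw [h3, ← h1, ← h2]
  simp only [Fp, Vp, map_add, map_mul]
  linear_combination (-(φ (pw s x 1 κ).2 * φ (pw s (2 * e * x) (-κ) (2 * e)).2)) * hw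

theorem Vp_dvd (s : R) {κ e : ℕ} (hκ : 1 ≤ κ) (he : 1 ≤ e) (x : R) : s ∣ Vp s κ e x := by
  obtain ⟨k, rfl⟩ : ∃ k, κ = k + 1 := ⟨κ - 1, by omega⟩
  obtain ⟨j, hj⟩ : ∃ j, 2 * e = j + 1 := ⟨2 * e - 1, by omega⟩
  unfold Vp
  obtain ⟨a, ha⟩ := (pw_dvd s x 1 (k + 1)).1
  obtain ⟨b, hb⟩ := (pw_dvd s x 1 k).2
  obtain ⟨c, hc⟩ := (pw_dvd s (2 * e * x) (-((k + 1 : ℕ) : R)) (j + 1)).1
  obtain ⟨d, hd⟩ := (pw_dvd s (2 * e * x) (-((k + 1 : ℕ) : R)) j).2
  rw [hj]
  have hj' : (2 * e : R) = j + 1 := by exact_mod_cast congrArg (Nat.cast : ℕ → R) hj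
  rw [hj'] at hc hd ⊢
  generalize (pw s x 1 (k + 1)).1 = A at *
  generalize (pw s x 1 (k + 1)).2 = B at *
  generalize (pw s ((j + 1) * x) (-((k + 1 : ℕ) : R)) (j + 1)).1 = A' at *
  generalize (pw s ((j + 1) * x) (-((k + 1 : ℕ) : R)) (j + 1)).2 = B' at *
  have hA : A = x ^ (k + 1) + s * a := by linear_combination ha
  have hB : B = (k + 1) * x ^ k * 1 + s * b := by linear_combination hb
  have hA' : A' = ((j + 1) * x) ^ (j + 1) + s * c := by linear_combination hc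
  have hB' : B' = (j + 1) * ((j + 1) * x) ^ j * -((k + 1 : ℕ) : R) + s * d := by linear_combination hd
  rw [hA, hB, hA', hB']
  push_cast
  refine ⟨a * ((j + 1) * ((j + 1) * x) ^ j * -((k : R) + 1) + s * d) + x ^ (k + 1) * d +
    b * (((j + 1) * x) ^ (j + 1) + s * c) + (k + 1) * x ^ k * c, ?_⟩
  ring

end ring

/-! ### degrees -/

theorem pw_degree {s u v : ℤ[X]} {u₀ v₀ : ℤ} (hs : s.natDegree ≤ 2) (hs2 : s.coeff 2 = 1)
    (hu : u = C u₀ * X) (hv : v = C v₀) (n : ℕ) :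
    (pw s u v (n + 1)).1.natDegree ≤ n + 1 ∧ (pw s u v (n + 1)).2.natDegree ≤ n ∧
      (pw s u v (n + 1)).1.coeff (n + 1) + (pw s u v (n + 1)).2.coeff n = (u₀ + v₀) ^ (n + 1) ∧
      (pw s u v (n + 1)).1.coeff (n + 1) - (pw s u v (n + 1)).2.coeff n = (u₀ - v₀) ^ (n + 1) := by
  have hu1 : u.natDegree ≤ 1 := by
    rw [hu]
    have := natDegree_C_mul_X_pow_le u₀ 1
    rwa [pow_one] at this
  have hv0 : v.natDegree ≤ 0 := by rw [hv]; simp
  have huc : u.coeff 1 = u₀ := by rw [hu]; simp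
  have hvc : v.coeff 0 = v₀ := by rw [hv]; simp
  induction n with
  | zero =>
    simp only [pw, mul_one, mul_zero, add_zero, zero_add, pow_one]
    exact ⟨hu1, hv0, by rw [huc, hvc], by rw [huc, hvc]⟩
  | succ n ih =>
    obtain ⟨h1, h2, h3, h4⟩ := ih
    rw [show (pw s u v (n + 1 + 1)) = (u * (pw s u v (n + 1)).1 + s * v * (pw s u v (n + 1)).2,
      v * (pw s u v (n + 1)).1 + u * (pw s u v (n + 1)).2) from rfl]
    generalize (pw s u v (n + 1)).1 = A at *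
    generalize (pw s u v (n + 1)).2 = B at *
    simp only
    have hsv : (s * v).natDegree ≤ 2 := natDegree_mul_le.trans (by omega)
    have hsvc : (s * v).coeff 2 = v₀ := by
      rw [hv, coeff_mul_C, hs2, one_mul]
    have d1 : (u * A).natDegree ≤ n + 1 + 1 := natDegree_mul_le.trans (by omega)
    have d2 : (s * v * B).natDegree ≤ n + 1 + 1 := natDegree_mul_le.trans (by omega)
    have d3 : (v * A).natDegree ≤ n + 1 := natDegree_mul_le.trans (by omega)
    have d4 : (u * B).natDegree ≤ n + 1 := natDegree_mul_le.trans (by omega)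
    have c1 : (u * A).coeff (n + 1 + 1) = u₀ * A.coeff (n + 1) := by
      rw [show n + 1 + 1 = 1 + (n + 1) by ring, coeff_mul_add_eq_of_natDegree_le hu1 h1, huc]
    have c2 : (s * v * B).coeff (n + 1 + 1) = v₀ * B.coeff n := by
      rw [show n + 1 + 1 = 2 + n by ring, coeff_mul_add_eq_of_natDegree_le hsv h2, hsvc]
    have c3 : (v * A).coeff (n + 1) = v₀ * A.coeff (n + 1) := by
      rw [hv, coeff_C_mul]
    have c4 : (u * B).coeff (n + 1) = u₀ * B.coeff n := by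
      rw [show n + 1 = 1 + n by ring, coeff_mul_add_eq_of_natDegree_le hu1 h2, huc]
    refine ⟨natDegree_add_le_of_degree_le d1 d2, natDegree_add_le_of_degree_le d3 d4, ?_, ?_⟩
    · rw [coeff_add, coeff_add, c1, c2, c3, c4, pow_succ', ← h3]; ring
    · rw [coeff_add, coeff_add, c1, c2, c3, c4, pow_succ', ← h4]; ring

/-- the polynomial `X ^ 2 - m` -/
noncomputable def sP (m : ℤ) : ℤ[X] := X ^ 2 - C m

theorem sP_degree (m : ℤ) : (sP m).natDegree ≤ 2 ∧ (sP m).coeff 2 = 1 := by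
  constructor
  · unfold sP; compute_degree
  · unfold sP
    rw [coeff_sub, coeff_X_pow, coeff_C]
    simp

/-- the numerator -/
noncomputable def FP (m : ℤ) (κ e : ℕ) : ℤ[X] := Fp (sP m) κ e X

/-- the second component -/
noncomputable def VP (m : ℤ) (κ e : ℕ) : ℤ[X] := Vp (sP m) κ e X

theorem FV_degree (m : ℤ) {κ e : ℕ} (hκ : 1 ≤ κ) (he : 1 ≤ e) :
    (FP m κ e).natDegree ≤ κ + 2 * e ∧ (VP m κ e).natDegree ≤ κ + 2 * e - 1 ∧
      2 * (FP m κ e).coeff (κ + 2 * e) = 2 ^ κ * (2 * e - κ) ^ (2 * e) := by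
  obtain ⟨hs, hs2⟩ := sP_degree m
  obtain ⟨k, rfl⟩ : ∃ k, κ = k + 1 := ⟨κ - 1, by omega⟩
  obtain ⟨j, hj⟩ : ∃ j, 2 * e = j + 1 := ⟨2 * e - 1, by omega⟩
  have hj' : (2 * e : ℤ) = j + 1 := by exact_mod_cast hj
  obtain ⟨a1, a2, a3, a4⟩ := pw_degree (s := sP m) (u := X) (v := 1) (u₀ := 1) (v₀ := 1) hs hs2
    (by simp) (by simp) k
  obtain ⟨b1, b2, b3, b4⟩ := pw_degree (s := sP m) (u := 2 * (e : ℤ[X]) * X)
    (v := -((k + 1 : ℕ) : ℤ[X])) (u₀ := 2 * e) (v₀ := -((k + 1 : ℕ) : ℤ)) hs hs2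
    (by simp) (by simp) j
  unfold FP VP Fp Vp
  rw [hj]
  generalize (pw (sP m) X 1 (k + 1)).1 = A at *
  generalize (pw (sP m) X 1 (k + 1)).2 = B at *
  generalize (pw (sP m) (2 * (e : ℤ[X]) * X) (-((k + 1 : ℕ) : ℤ[X])) (j + 1)).1 = A' at *
  generalize (pw (sP m) (2 * (e : ℤ[X]) * X) (-((k + 1 : ℕ) : ℤ[X])) (j + 1)).2 = B' at *
  have hBB : (B * B').natDegree ≤ k + j := natDegree_mul_le.trans (by omega)
  have d1 : (A * A').natDegree ≤ k + 1 + (j + 1) := natDegree_mul_le.trans (by omega)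
  have d2 : (sP m * (B * B')).natDegree ≤ k + 1 + (j + 1) := natDegree_mul_le.trans (by omega)
  have d3 : (A * B').natDegree ≤ k + 1 + (j + 1) - 1 := natDegree_mul_le.trans (by omega)
  have d4 : (B * A').natDegree ≤ k + 1 + (j + 1) - 1 := natDegree_mul_le.trans (by omega)
  refine ⟨natDegree_add_le_of_degree_le d1 d2, natDegree_add_le_of_degree_le d3 d4, ?_⟩
  rw [coeff_add, coeff_mul_add_eq_of_natDegree_le a1 b1,
    show k + 1 + (j + 1) = 2 + (k + j) by ring, coeff_mul_add_eq_of_natDegree_le hs hBB, hs2,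
    coeff_mul_add_eq_of_natDegree_le a2 b2]
  have e1 : A.coeff (k + 1) - B.coeff k = 0 := by rw [a4]; simp
  have e2 : A.coeff (k + 1) = B.coeff k := by linarith
  have e3 : 2 * A.coeff (k + 1) = 2 ^ (k + 1) := by
    have : (1 : ℤ) + 1 = 2 := by norm_num
    rw [this] at a3
    linarith
  rw [e2]
  have e4 : A'.coeff (j + 1) + B'.coeff j = (2 * (e : ℤ) - ((k + 1 : ℕ) : ℤ)) ^ (j + 1) := by
    rw [b3]; ring
  rw [← e4, ← e3, e2]
  ring

/-- the denominator: `m ^ t ((4 e² - κ²) X² + κ² m) ^ e`, `κ = 2 t + 1` -/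
noncomputable def QP (m : ℤ) (κ e : ℕ) : ℤ[X] := C (4 * (e : ℤ) ^ 2 - (κ : ℤ) ^ 2) * X ^ 2 + C ((κ : ℤ) ^ 2 * m)

/-- the denominator -/
noncomputable def GP (m : ℤ) (t e : ℕ) : ℤ[X] := C (m ^ t) * QP m (2 * t + 1) e ^ e

theorem QP_degree (m : ℤ) (κ e : ℕ) : (QP m κ e).natDegree ≤ 2 := by
  unfold QP; compute_degree

theorem GP_degree (m : ℤ) (t e : ℕ) : (GP m t e).natDegree ≤ 2 * e := by
  unfold GP
  refine natDegree_mul_le.trans ?_
  rw [natDegree_C, zero_add]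
  exact natDegree_pow_le.trans (by have := QP_degree m (2 * t + 1) e; nlinarith)

/-- evaluation at `x`, with `w ^ 2 = x ^ 2 - m` -/
theorem eval_FV {S : Type} [CommRing S] (m : ℤ) (κ e : ℕ) (x w : S) (hw : w ^ 2 = x ^ 2 - m) :
    aeval x (FP m κ e) + w * aeval x (VP m κ e) = (x + w) ^ κ * (2 * e * x - κ * w) ^ (2 * e) := by
  have h := FV_eval (aeval x : ℤ[X] →ₐ[ℤ] S).toRingHom (s := sP m) (w := w) (by
    simp [sP, hw]) κ e X
  simp only [AlgHom.toRingHom_eq_coe, RingHom.coe_coe, aeval_X] at h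
  exact h

theorem eval_QP {S : Type} [CommRing S] (m : ℤ) (κ e : ℕ) (x w : S) (hw : w ^ 2 = x ^ 2 - m) :
    aeval x (QP m κ e) = (2 * e * x - κ * w) * (2 * e * x + κ * w) := by
  unfold QP
  rw [map_add, map_mul, aeval_C, map_pow, aeval_X, aeval_C]
  simp only [algebraMap_int_eq, eq_intCast,
    Int.cast_sub, Int.cast_mul, Int.cast_pow, Int.cast_ofNat, Int.cast_natCast]
  linear_combination (κ : S) ^ 2 * hw

theorem eval_VP_dvd {S : Type} [CommRing S] (m : ℤ) {κ e : ℕ} (hκ : 1 ≤ κ) (he : 1 ≤ e) :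
    ∃ V₁ : ℤ[X], ∀ x : S, aeval x (VP m κ e) = (x ^ 2 - m) * aeval x V₁ := by
  obtain ⟨V₁, hV⟩ := Vp_dvd (sP m) hκ he X
  refine ⟨V₁, fun x => ?_⟩
  unfold VP
  rw [hV, map_mul]
  congr 1
  simp [sP]

end Pool.Agent.N757.TL
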