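import Mathlib

/-!
# Belyi polynomials

For every finite set `T` of algebraic numbers there is a nonconstant polynomial `f` with rational
coefficients which maps `T` and the zeros of its derivative to `{0, 1}`.
-/

set_option autoImplicit false

namespace Pool.Agent.Q290.NF

open Polynomial

/-- the algebraic numbers -/
abbrev Om : Type := AlgebraicClosure ℚ

/-- `f` maps `T` and its critical points into `U` -/
def Maps (f : ℚ[X]) (T U : Set Om) : Prop :=
  (∀ x ∈ T, aeval x f ∈ U) ∧ ∀ x : Om, aeval x (derivative f) = 0 → aeval x f ∈ U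

theorem Maps.comp {f g : ℚ[X]} {T U V : Set Om} (h1 : Maps f T U) (h2 : Maps g U V) :
    Maps (g.comp f) T V := by
  refine ⟨fun x hx => ?_, fun x hx => ?_⟩
  · rw [aeval_comp]
    exact h2.1 _ (h1.1 x hx)
  · rw [aeval_comp]
    rw [derivative_comp, map_mul, mul_eq_zero, aeval_comp] at hx
    rcases hx with hx | hx
    · exact h2.1 _ (h1.2 x hx)
    · exact h2.2 _ hx

theorem om_int (x : Om) : IsIntegral ℚ x :=
  (((AlgebraicClosure.isAlgebraic ℚ).isAlgebraic x).isIntegral)

theorem deg_minpoly_le (y : Om) (g : ℚ[X]) :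
    (minpoly ℚ (aeval y g)).natDegree ≤ (minpoly ℚ y).natDegree := by
  have : FiniteDimensional ℚ (IntermediateField.adjoin ℚ {y}) :=
    IntermediateField.adjoin.finiteDimensional (om_int y)
  obtain ⟨z, hz⟩ : ∃ z : IntermediateField.adjoin ℚ {y}, z =
    aeval (IntermediateField.AdjoinSimple.gen ℚ y) g := ⟨_, rfl⟩
  have h1 : algebraMap (IntermediateField.adjoin ℚ {y}) Om z = aeval y g := by
    rw [hz, ← aeval_algebraMap_apply, IntermediateField.AdjoinSimple.algebraMap_gen]
  rw [← h1, minpoly.algebraMap_eq (algebraMap (IntermediateField.adjoin ℚ {y}) Om).injective,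
    ← IntermediateField.adjoin.finrank (om_int y)]
  exact minpoly.natDegree_le z

/-- the images of the roots of `R` are roots of a polynomial of at most the same degree -/
theorem push (g : ℚ[X]) : ∀ (n : ℕ) (R : ℚ[X]), R ≠ 0 → R.natDegree ≤ n →
    ∃ Q : ℚ[X], Q ≠ 0 ∧ Q.natDegree ≤ R.natDegree ∧
      ∀ y : Om, aeval y R = 0 → aeval (aeval y g) Q = 0 := by
  intro n
  induction n with
  | zero =>
    intro R hR hn
    refine ⟨1, one_ne_zero, by rw [natDegree_one]; exact Nat.zero_le _, ?_⟩
    intro y hy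
    exfalso
    obtain ⟨c, hc⟩ := natDegree_eq_zero.1 (Nat.le_zero.1 hn)
    rw [← hc, aeval_C] at hy
    have h1 : c = 0 := (algebraMap ℚ Om).injective (by rw [hy, map_zero])
    exact hR (by rw [← hc, h1, C_0])
  | succ n ih =>
    intro R hR hn
    by_cases h : ∃ y : Om, aeval y R = 0
    · obtain ⟨y0, hy0⟩ := h
      obtain ⟨R1, hR1⟩ := minpoly.dvd ℚ y0 hy0
      have hp0 : minpoly ℚ y0 ≠ 0 := minpoly.ne_zero (om_int y0)
      have hR10 : R1 ≠ 0 := by
        rintro rfl
        exact hR (by rw [hR1, mul_zero])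
      have hdeg : R.natDegree = (minpoly ℚ y0).natDegree + R1.natDegree := by
        conv_lhs => rw [hR1]
        exact natDegree_mul hp0 hR10
      have hpos : 0 < (minpoly ℚ y0).natDegree := minpoly.natDegree_pos (om_int y0)
      obtain ⟨Q1, hQ10, hQ1d, hQ1⟩ := ih R1 hR10 (by omega)
      refine ⟨minpoly ℚ (aeval y0 g) * Q1, mul_ne_zero (minpoly.ne_zero (om_int _)) hQ10, ?_, ?_⟩
      · rw [natDegree_mul (minpoly.ne_zero (om_int _)) hQ10, hdeg]
        exact Nat.add_le_add (deg_minpoly_le y0 g) hQ1d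
      · intro y hy
        rw [hR1, map_mul, mul_eq_zero] at hy
        rw [map_mul, mul_eq_zero]
        rcases hy with hy | hy
        · left
          have h1 : minpoly ℚ y0 ∣ (minpoly ℚ (aeval y0 g)).comp g := by
            refine minpoly.dvd ℚ y0 ?_
            rw [aeval_comp, minpoly.aeval]
          obtain ⟨c, hc⟩ := h1
          rw [← aeval_comp, hc, map_mul, hy, zero_mul]
        · right
          exact hQ1 y hy
    · refine ⟨1, one_ne_zero, by rw [natDegree_one]; exact Nat.zero_le _, ?_⟩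
      intro y hy
      exact absurd ⟨y, hy⟩ h

/-- **first step**: to rational numbers -/
theorem step1 : ∀ (n : ℕ) (P : ℚ[X]), P ≠ 0 → P.natDegree ≤ n → ∀ T : Set Om,
    (∀ x ∈ T, x ∈ Set.range (algebraMap ℚ Om) ∨ aeval x P = 0) →
    ∃ f : ℚ[X], 1 ≤ f.natDegree ∧ Maps f T (Set.range (algebraMap ℚ Om)) := by
  intro n
  induction n with
  | zero =>
    intro P hP hn T hT
    refine ⟨X, by rw [natDegree_X], ?_, ?_⟩
    · intro x hx
      rw [aeval_X]
      rcases hT x hx with h | h
      · exact h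
      · exfalso
        obtain ⟨c, hc⟩ := natDegree_eq_zero.1 (Nat.le_zero.1 hn)
        rw [← hc, aeval_C] at h
        have h1 : c = 0 := (algebraMap ℚ Om).injective (by rw [h, map_zero])
        exact hP (by rw [← hc, h1, C_0])
    · intro x hx
      rw [derivative_X, map_one] at hx
      exact absurd hx one_ne_zero
  | succ n ih =>
    intro P hP hn T hT
    rcases Nat.eq_zero_or_pos P.natDegree with h0 | h0
    · exact ih P hP (by omega) T hT
    · have hd0 : derivative P ≠ 0 := by
        intro h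
        have := natDegree_eq_zero_of_derivative_eq_zero h
        omega
      have hdd : (derivative P).natDegree ≤ n := by
        have := natDegree_derivative_lt (p := P) (by omega)
        omega
      obtain ⟨Q, hQ0, hQd, hQ⟩ := push P _ (derivative P) hd0 le_rfl
      obtain ⟨f, hf, hm⟩ := ih Q hQ0 (hQd.trans hdd)
        ({z | ∃ x ∈ T, z = aeval x P} ∪ {z | ∃ x : Om, aeval x (derivative P) = 0 ∧
          z = aeval x P}) (by
        rintro z (⟨x, hx, rfl⟩ | ⟨x, hx, rfl⟩)
        · left
          rcases hT x hx with ⟨c, rfl⟩ | h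
          · exact ⟨aeval c P, (aeval_algebraMap_apply Om c P).symm⟩
          · exact ⟨0, by rw [map_zero, h]⟩
        · right
          exact hQ x hx)
      refine ⟨f.comp P, ?_, Maps.comp (U := _) ⟨fun x hx => Or.inl ⟨x, hx, rfl⟩,
        fun x hx => Or.inr ⟨x, hx, rfl⟩⟩ hm⟩
      rw [natDegree_comp]
      exact Nat.mul_pos hf h0

/-- the affine map -/
theorem affine {a b : ℚ} (hab : a ≠ b) (T : Set Om) :
    (C (b - a)⁻¹ * (X - C a) : ℚ[X]).natDegree = 1 ∧
    Maps (C (b - a)⁻¹ * (X - C a)) T ((fun x => aeval x (C (b - a)⁻¹ * (X - C a))) '' T) := by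
  have h0 : (b - a)⁻¹ ≠ 0 := inv_ne_zero (sub_ne_zero.2 hab.symm)
  refine ⟨?_, fun x hx => ⟨x, hx, rfl⟩, fun x hx => ?_⟩
  · rw [natDegree_C_mul h0, natDegree_X_sub_C]
  · exfalso
    rw [derivative_C_mul, derivative_sub, derivative_X, derivative_C, sub_zero, mul_one,
      aeval_C] at hx
    exact h0 ((algebraMap ℚ Om).injective (by rw [hx, map_zero]))

/-- Belyi's polynomial -/
noncomputable def bel (m n : ℕ) (c : ℚ) : ℚ[X] := C c * (X ^ (m + 1) * (1 - X) ^ (n + 1))

theorem bel_deriv (m n : ℕ) (c : ℚ) : derivative (bel m n c) =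
    C c * (X ^ m * (1 - X) ^ n * (((m : ℚ[X]) + 1) * (1 - X) - ((n : ℚ[X]) + 1) * X)) := by
  unfold bel
  rw [derivative_C_mul, derivative_mul, derivative_X_pow, derivative_pow, derivative_sub,
    derivative_one, derivative_X]
  simp only [Nat.add_sub_cancel, Nat.cast_add, Nat.cast_one]
  have e : (C ((m : ℚ) + 1) : ℚ[X]) = (m : ℚ[X]) + 1 := by
    rw [C_add, C_1, map_natCast]
  have e' : (C ((n : ℚ) + 1) : ℚ[X]) = (n : ℚ[X]) + 1 := by
    rw [C_add, C_1, map_natCast]
  simp only [e, e']
  ring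

theorem bel_maps {m n : ℕ} {c : ℚ} (hc : c ≠ 0) {U : Set Om} (h0 : (0 : Om) ∈ U)
    (h1 : (1 : Om) ∈ U) (h2 : algebraMap ℚ Om ((m + 1) / (m + n + 2)) ∈ U) :
    Maps (bel m n c) U ((fun x => aeval x (bel m n c)) '' U) := by
  refine ⟨fun x hx => ⟨x, hx, rfl⟩, fun x hx => ?_⟩
  rw [bel_deriv] at hx
  simp only [map_mul, map_sub, map_add, map_pow, aeval_C, aeval_X, map_one, map_natCast] at hx
  have hcO : algebraMap ℚ Om c ≠ 0 := fun h => hc ((algebraMap ℚ Om).injective (by
    rw [h, map_zero]))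
  rcases mul_eq_zero.1 hx with h | h
  · exact absurd h hcO
  rcases mul_eq_zero.1 h with h | h
  · rcases mul_eq_zero.1 h with h | h
    · have : x = 0 := (pow_eq_zero_iff (n := m) (by
        rintro rfl
        rw [pow_zero] at h
        exact one_ne_zero h)).1 h
      exact ⟨x, this ▸ h0, rfl⟩
    · have : 1 - x = 0 := (pow_eq_zero_iff (n := n) (by
        rintro rfl
        rw [pow_zero] at h
        exact one_ne_zero h)).1 h
      have h4 : x = 1 := (sub_eq_zero.1 this).symm
      exact ⟨x, h4 ▸ h1, rfl⟩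
  · have hmn : ((m : Om) + n + 2) ≠ 0 := by
      have : ((m + n + 2 : ℕ) : Om) ≠ 0 := Nat.cast_ne_zero.2 (by omega)
      push_cast at this
      exact this
    have h4 : x = algebraMap ℚ Om ((m + 1) / (m + n + 2)) := by
      simp only [map_div₀, map_add, map_natCast, map_one, map_ofNat]
      rw [eq_div_iff hmn]
      linear_combination -h
    exact ⟨x, h4 ▸ h2, rfl⟩

/-- **second step**: from rational numbers to `0` and `1` -/
theorem step2 : ∀ (n : ℕ) (T : Finset ℚ), T.card ≤ n → ∃ f : ℚ[X], 1 ≤ f.natDegree ∧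
    Maps f ((algebraMap ℚ Om) '' (T : Set ℚ)) {0, 1} := by
  classical
  intro n
  induction n with
  | zero =>
    intro T hT
    obtain ⟨h1, h2⟩ := affine (a := 0) (b := 1) (by norm_num)
      ((algebraMap ℚ Om) '' (T : Set ℚ))
    refine ⟨_, h1.ge, ?_, ?_⟩
    · rintro x ⟨y, hy, rfl⟩
      rw [Finset.card_eq_zero.1 (Nat.le_zero.1 hT)] at hy
      exact absurd hy (Finset.notMem_empty y)
    · intro x hx
      obtain ⟨y, ⟨z, hz, -⟩, -⟩ := h2.2 x hx
      rw [Finset.card_eq_zero.1 (Nat.le_zero.1 hT)] at hz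
      exact absurd hz (Finset.notMem_empty z)
  | succ n ih =>
    intro T hT
    by_cases h3 : T.card ≤ 2
    · -- at most two points
      have hab : ∃ a b : ℚ, a ≠ b ∧ T ⊆ {a, b} := by
        rcases Nat.lt_or_ge T.card 2 with h | h
        · rcases Nat.lt_or_ge T.card 1 with h' | h'
          · refine ⟨0, 1, by norm_num, ?_⟩
            rw [Finset.card_eq_zero.1 (by omega : T.card = 0)]
            exact Finset.empty_subset _
          · obtain ⟨a, ha⟩ := Finset.card_eq_one.1 (by omega : T.card = 1)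
            refine ⟨a, a + 1, ?_, ?_⟩
            · intro h
              linarith
            · rw [ha]
              intro x hx
              rw [Finset.mem_singleton] at hx
              rw [Finset.mem_insert]
              exact Or.inl hx
        · obtain ⟨a, b, hab, ha⟩ := Finset.card_eq_two.1 (by omega : T.card = 2)
          exact ⟨a, b, hab, ha.subset⟩
      obtain ⟨a, b, hab, hT2⟩ := hab
      obtain ⟨h1, h2⟩ := affine hab ((algebraMap ℚ Om) '' (T : Set ℚ))
      have hba : (b - a) ≠ 0 := sub_ne_zero.2 hab.symm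
      have hval : ∀ x ∈ (algebraMap ℚ Om) '' (T : Set ℚ),
          aeval x (C (b - a)⁻¹ * (X - C a)) ∈ ({0, 1} : Set Om) := by
        rintro x ⟨y, hy, rfl⟩
        have hy2 := hT2 hy
        rw [Finset.mem_insert, Finset.mem_singleton] at hy2
        have e : aeval (algebraMap ℚ Om y) (C (b - a)⁻¹ * (X - C a)) =
            algebraMap ℚ Om ((b - a)⁻¹ * (y - a)) := by
          simp only [map_mul, map_sub, aeval_C, aeval_X]
        rw [e]
        rcases hy2 with rfl | rfl
        · left
          rw [sub_self, mul_zero, map_zero]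
        · right
          rw [inv_mul_cancel₀ hba, map_one]
          rfl
      refine ⟨_, h1.ge, hval, fun x hx => ?_⟩
      obtain ⟨y, hy, hyx⟩ := h2.2 x hx
      have hyx' : aeval y (C (b - a)⁻¹ * (X - C a)) = aeval x (C (b - a)⁻¹ * (X - C a)) := hyx
      rw [← hyx']
      exact hval y hy
    · -- three points
      have hne : T.Nonempty := Finset.card_pos.1 (by omega)
      obtain ⟨a, ha⟩ : ∃ a, a = T.min' hne := ⟨_, rfl⟩
      obtain ⟨b, hb⟩ : ∃ b, b = T.max' hne := ⟨_, rfl⟩
      have haT : a ∈ T := by rw [ha]; exact T.min'_mem hne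
      have hbT : b ∈ T := by rw [hb]; exact T.max'_mem hne
      have hr : ∃ r ∈ T, r ≠ a ∧ r ≠ b := by
        by_contra hcon
        push Not at hcon
        apply h3
        have h5 : T ⊆ {a, b} := by
          intro x hx
          rw [Finset.mem_insert, Finset.mem_singleton]
          by_cases hxa : x = a
          · exact Or.inl hxa
          · exact Or.inr (hcon x hx hxa)
        exact (Finset.card_le_card h5).trans Finset.card_le_two
      obtain ⟨r, hrT, hra, hrb⟩ := hr
      have har : a < r := lt_of_le_of_ne (by rw [ha]; exact T.min'_le r hrT) hra.symm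
      have hrb' : r < b := lt_of_le_of_ne (by rw [hb]; exact T.le_max' r hrT) hrb
      have hab : a < b := har.trans hrb'
      obtain ⟨ρ, hρ⟩ : ∃ ρ : ℚ, ρ = (b - a)⁻¹ * (r - a) := ⟨_, rfl⟩
      have hρ0 : 0 < ρ := by
        rw [hρ]
        exact mul_pos (inv_pos.2 (by linarith)) (by linarith)
      have hρ1 : ρ < 1 := by
        rw [hρ, inv_mul_lt_iff₀ (by linarith)]
        linarith
      obtain ⟨m, n', hmn⟩ : ∃ m n' : ℕ, ρ = (m + 1) / (m + n' + 2) := by
        have hnum : 0 < ρ.num := Rat.num_pos.2 hρ0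
        have hlt : ρ.num < ρ.den := by
          have h5 := Rat.num_div_den ρ
          have h6 : (0 : ℚ) < ρ.den := by exact_mod_cast ρ.den_pos
          have h7 : (ρ.num : ℚ) < ρ.den := by
            rw [← h5, div_lt_one h6] at hρ1
            exact hρ1
          exact_mod_cast h7
        refine ⟨ρ.num.toNat - 1, ρ.den - ρ.num.toNat - 1, ?_⟩
        have h5 : ((ρ.num.toNat - 1 : ℕ) : ℚ) + 1 = ρ.num := by
          have h6 : ρ.num.toNat - 1 + 1 = ρ.num.toNat := by omega
          have h7 : ((ρ.num.toNat : ℕ) : ℤ) = ρ.num := Int.toNat_of_nonneg hnum.le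
          calc ((ρ.num.toNat - 1 : ℕ) : ℚ) + 1 = ((ρ.num.toNat - 1 + 1 : ℕ) : ℚ) := by push_cast; ring
            _ = ((ρ.num.toNat : ℕ) : ℚ) := by rw [h6]
            _ = (((ρ.num.toNat : ℕ) : ℤ) : ℚ) := by push_cast; rfl
            _ = ρ.num := by rw [h7]
        have h8 : ((ρ.num.toNat - 1 : ℕ) : ℚ) + ((ρ.den - ρ.num.toNat - 1 : ℕ) : ℚ) + 2 =
            ρ.den := by
          have h6 : (ρ.num.toNat - 1) + (ρ.den - ρ.num.toNat - 1) + 2 = ρ.den := by omega
          calc _ = (((ρ.num.toNat - 1) + (ρ.den - ρ.num.toNat - 1) + 2 : ℕ) : ℚ) := by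
                push_cast; ring
            _ = ρ.den := by rw [h6]
        rw [h5, h8]
        exact (Rat.num_div_den ρ).symm
      obtain ⟨c, hc⟩ : ∃ c : ℚ, c = (ρ ^ (m + 1) * (1 - ρ) ^ (n' + 1))⁻¹ := ⟨_, rfl⟩
      have hρρ : ρ ^ (m + 1) * (1 - ρ) ^ (n' + 1) ≠ 0 :=
        mul_ne_zero (pow_ne_zero _ hρ0.ne') (pow_ne_zero _ (by linarith : (1 - ρ) ≠ 0))
      have hc0 : c ≠ 0 := by rw [hc]; exact inv_ne_zero hρρ
      obtain ⟨L, hL⟩ : ∃ L : ℚ[X], L = C (b - a)⁻¹ * (X - C a) := ⟨_, rfl⟩
      obtain ⟨B, hB⟩ : ∃ B : ℚ[X], B = bel m n' c := ⟨_, rfl⟩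
      have hLa : L.eval a = 0 := by rw [hL]; simp
      have hLb : L.eval b = 1 := by
        rw [hL]
        simp only [eval_mul, eval_C, eval_sub, eval_X]
        exact inv_mul_cancel₀ (by linarith : (b - a) ≠ 0)
      have hLr : L.eval r = ρ := by rw [hL, hρ]; simp
      have hB0 : B.eval 0 = 0 := by rw [hB]; unfold bel; simp
      have hB1 : B.eval 1 = 0 := by rw [hB]; unfold bel; simp
      obtain ⟨T1, hT1⟩ : ∃ T1 : Finset ℚ, T1 = T.image fun x => L.eval x := ⟨_, rfl⟩
      obtain ⟨T2, hT2⟩ : ∃ T2 : Finset ℚ, T2 = T.image fun x => B.eval (L.eval x) := ⟨_, rfl⟩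
      have hcard : T2.card ≤ n := by
        have h5 : T2 ⊆ (T.erase a).image fun x => B.eval (L.eval x) := by
          intro z hz
          rw [hT2, Finset.mem_image] at hz
          obtain ⟨x, hx, rfl⟩ := hz
          rw [Finset.mem_image]
          by_cases hxa : x = a
          · refine ⟨b, Finset.mem_erase.2 ⟨hab.ne', hbT⟩, ?_⟩
            rw [hxa, hLa, hLb, hB0, hB1]
          · exact ⟨x, Finset.mem_erase.2 ⟨hxa, hx⟩, rfl⟩
        have h6 := (Finset.card_le_card h5).trans Finset.card_image_le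
        rw [Finset.card_erase_of_mem haT] at h6
        omega
      obtain ⟨f, hf, hm⟩ := ih T2 hcard
      have e1 : (fun x => aeval x L) '' ((algebraMap ℚ Om) '' (T : Set ℚ)) =
          (algebraMap ℚ Om) '' (T1 : Set ℚ) := by
        rw [hT1, Finset.coe_image, Set.image_image, Set.image_image]
        refine Set.image_congr fun x _ => ?_
        rw [aeval_algebraMap_apply, coe_aeval_eq_eval]
      have e2 : (fun x => aeval x B) '' ((algebraMap ℚ Om) '' (T1 : Set ℚ)) =
          (algebraMap ℚ Om) '' (T2 : Set ℚ) := by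
        rw [hT1, hT2, Finset.coe_image, Finset.coe_image, Set.image_image, Set.image_image,
          Set.image_image]
        refine Set.image_congr fun x _ => ?_
        rw [aeval_algebraMap_apply, coe_aeval_eq_eval]
      have m1 : Maps L ((algebraMap ℚ Om) '' (T : Set ℚ)) ((algebraMap ℚ Om) '' (T1 : Set ℚ)) := by
        rw [← e1, hL]
        exact (affine hab.ne _).2
      have m2 : Maps B ((algebraMap ℚ Om) '' (T1 : Set ℚ)) ((algebraMap ℚ Om) '' (T2 : Set ℚ)) := by
        rw [← e2, hB]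
        refine bel_maps hc0 ?_ ?_ ?_
        · exact ⟨0, by rw [hT1]; exact Finset.mem_coe.2 (Finset.mem_image.2 ⟨a, haT, hLa⟩),
            map_zero _⟩
        · exact ⟨1, by rw [hT1]; exact Finset.mem_coe.2 (Finset.mem_image.2 ⟨b, hbT, hLb⟩),
            map_one _⟩
        · refine ⟨ρ, ?_, by rw [hmn]⟩
          rw [hT1]
          exact Finset.mem_coe.2 (Finset.mem_image.2 ⟨r, hrT, hLr⟩)
      refine ⟨f.comp (B.comp L), ?_, (m1.comp m2).comp hm⟩
      rw [natDegree_comp, natDegree_comp]
      refine Nat.mul_pos hf (Nat.mul_pos ?_ ?_)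
      · have h5 : B ≠ C 0 := by
          intro h
          have h6 : B.eval ρ = 1 := by
            rw [hB]
            unfold bel
            simp only [eval_mul, eval_C, eval_pow, eval_X, eval_sub, eval_one]
            rw [hc]
            exact inv_mul_cancel₀ hρρ
          rw [h, eval_C] at h6
          exact zero_ne_one h6
        rcases Nat.eq_zero_or_pos B.natDegree with h6 | h6
        · exfalso
          rw [natDegree_eq_zero] at h6
          obtain ⟨c', hc'⟩ := h6
          rw [← hc', eval_C] at hB0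
          exact h5 (by rw [← hc', hB0])
        · exact h6
      · rw [hL, (affine hab.ne ∅).1]
        exact Nat.one_pos

/-- **Belyi's theorem for finite sets of algebraic numbers** -/
theorem belyi (T : Finset Om) : ∃ f : ℚ[X], 1 ≤ f.natDegree ∧
    (∀ x ∈ T, aeval x f = 0 ∨ aeval x f = 1) ∧
    ∀ x : Om, aeval x (derivative f) = 0 → aeval x f = 0 ∨ aeval x f = 1 := by
  classical
  obtain ⟨P, hP⟩ : ∃ P : ℚ[X], P = ∏ x ∈ T, minpoly ℚ x := ⟨_, rfl⟩
  have hP0 : P ≠ 0 := by
    rw [hP]
    exact Finset.prod_ne_zero_iff.2 fun x _ => minpoly.ne_zero (om_int x)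
  obtain ⟨f1, hf1, hm1⟩ := step1 _ P hP0 le_rfl (T : Set Om) (by
    intro x hx
    right
    rw [hP, map_prod]
    exact Finset.prod_eq_zero hx (minpoly.aeval ℚ x))
  have hd0 : (derivative f1).map (algebraMap ℚ Om) ≠ 0 := by
    rw [Ne, Polynomial.map_eq_zero]
    intro h
    have := natDegree_eq_zero_of_derivative_eq_zero h
    omega
  obtain ⟨V, hV⟩ : ∃ V : Finset Om, V = (T ∪
    ((derivative f1).map (algebraMap ℚ Om)).roots.toFinset).image fun x => aeval x f1 := ⟨_, rfl⟩
  have hcrit : ∀ x : Om, aeval x (derivative f1) = 0 ↔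
      x ∈ ((derivative f1).map (algebraMap ℚ Om)).roots.toFinset := by
    intro x
    rw [Multiset.mem_toFinset, mem_roots hd0, IsRoot.def, eval_map, aeval_def]
  obtain ⟨U, hU⟩ : ∃ U : Finset ℚ, U = V.preimage (algebraMap ℚ Om)
    (algebraMap ℚ Om).injective.injOn := ⟨_, rfl⟩
  have hVU : ∀ x : Om, x ∈ T ∨ aeval x (derivative f1) = 0 →
      aeval x f1 ∈ (algebraMap ℚ Om) '' (U : Set ℚ) := by
    intro x hx
    have h1 : aeval x f1 ∈ Set.range (algebraMap ℚ Om) := by
      rcases hx with hx | hx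
      · exact hm1.1 x hx
      · exact hm1.2 x hx
    obtain ⟨c, hc⟩ := h1
    refine ⟨c, ?_, hc⟩
    rw [Finset.mem_coe, hU, Finset.mem_preimage, hc, hV, Finset.mem_image]
    refine ⟨x, ?_, rfl⟩
    rw [Finset.mem_union, ← hcrit]
    exact hx
  obtain ⟨f2, hf2, hm2⟩ := step2 _ U le_rfl
  have hm : Maps f1 (T : Set Om) ((algebraMap ℚ Om) '' (U : Set ℚ)) :=
    ⟨fun x hx => hVU x (Or.inl hx), fun x hx => hVU x (Or.inr hx)⟩
  have hc := hm.comp hm2
  refine ⟨f2.comp f1, ?_, fun x hx => hc.1 x hx, fun x hx => hc.2 x hx⟩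
  rw [natDegree_comp]
  exact Nat.mul_pos hf2 hf1

end Pool.Agent.Q290.NF
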