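import Pool.Agent.H79.L.W5h68_PJ_Forms

/-!
# Projective schemes given by systems of equations between formulas
-/

set_option autoImplicit false

open CategoryTheory AlgebraicGeometry MvPolynomial Pool.Agent.Y116.UV Pool.Agent.W5h68.SP

namespace Pool.Agent.W5h68.PJ

variable {k : Type} [Field k] {Q : (A : Type) → [CommRing A] → [Algebra k A] → Prop} {n : ℕ}
  {P : Sch k → Prop}

/-- **Projective systems.** -/
theorem proj_systems (hQ : ClK k Q)
    (hn : ∀ (A : Type) [CommRing A] [Algebra k A] [Algebra.FiniteType k A], ringKrullDim A ≤ n → Q A)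
    (hT : ∀ {A : Type} [CommRing A] [Algebra k A] [Algebra.FiniteType k A],
      Q (LaurentPolynomial A) → Q A) (hP : ClS k P)
    (hQP : ∀ {A : Type} [CommRing A] [Algebra k A] [Algebra.FiniteType k A], Q A → P (aff k A)) :
    ProjectiveSystems k n P := by
  intro r σ f w hf hw hh S hS hdim X i hX hi
  have h1 : ∀ i, Finite (σ i) := fun i => by
    have h2 : Finite {l : σ i // l ∉ (∅ : Set (σ i))} := (formula_hg hQ hn (hf i) ∅).fin
    exact Finite.of_equiv _ (Equiv.subtypeUnivEquiv
      (fun l : σ i => (Set.notMem_empty l : l ∉ (∅ : Set (σ i)))))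
  have h2 : Finite (Σ i, σ i) := inferInstance
  have hv : ∀ i, IsWeightedHomogeneous (fun _ : σ i => 1) (f i) (w i) := hh
  refine proj_of_cones hP hQ.toCl hT hQP ?_ (fun T => section_good hQ hn hf hw hv
    (fun h hh => ?_) hdim T) i hX hi
  · rintro _ ⟨h, hh, rfl⟩
    obtain ⟨m, hm, h3⟩ := hS h hh
    have h4 := whom_aeval (fun i => tup_whom f i (hv i)) h3
    exact ⟨m, hm, h4⟩
  · obtain ⟨m, _, h3⟩ := hS h hh
    exact ⟨m, h3⟩

end Pool.Agent.W5h68.PJ
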