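import Pool.Agent.H79.L.W5h68_PJ_FormDefs
import Pool.Agent.H89.L.Y116_UV_Defs

/-!
# Projective schemes given by systems of equations between formulas: definitions
-/

set_option autoImplicit false

open CategoryTheory AlgebraicGeometry MvPolynomial Pool.Agent.Y116.UV

namespace Pool.Agent.W5h68.PJ

/-- The grading of the polynomial ring `k[x_i : i ∈ σ]` by the degree. -/
abbrev gr (k σ : Type) [Field k] : ℕ → Submodule k (MvPolynomial σ k) :=
  homogeneousSubmodule σ k

/-- the grading by the degree -/
noncomputable instance gradedInst (k σ : Type) [Field k] : GradedAlgebra (gr k σ) :=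
  MvPolynomial.gradedAlgebra

/-- The projective space over `k` with the homogeneous coordinates `x_i`, `i ∈ σ`. -/
noncomputable def space (k σ : Type) [Field k] : Sch k :=
  Over.mk (Proj.toSpecZero (gr k σ) ≫ Spec.map (CommRingCat.ofHom (algebraMap k (gr k σ 0))))

/-- The open subset `g ≠ 0` of the projective space. -/
noncomputable def Dp {k σ : Type} [Field k] (g : MvPolynomial σ k) : (space k σ).left.Opens :=
  Proj.basicOpen (gr k σ) g

/-- The morphism `i` is a closed immersion into the projective space, and its image is the set of the
common zeros of the polynomials `g ∈ S`. -/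
structure Supp {k σ : Type} [Field k] (S : Set (MvPolynomial σ k)) {Z : Sch k} (i : Z ⟶ space k σ) :
    Prop where
  closed : IsClosedImmersion i.left
  range : Set.range i.left = {x | ∀ g ∈ S, x ∉ Dp g}

/-- `P` is true for the closed subschemes of projective spaces with the equations
`h(f_1, …, f_r) = 0`, `h ∈ S` (with any scheme structure on the set of the common zeros), where
`f_1, …, f_r` are homogeneous polynomials of degrees `w_1, …, w_r > 0` in disjoint sets of variables,
given by read-once formulas with quasi-homogeneous gates in at most `n + 1` variables, and `S` is a set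
of homogeneous polynomials for the weights `w_1, …, w_r` such that the cone `S = 0` has dimension at
most `n + 1`. -/
def ProjectiveSystems (k : Type) [Field k] (n : ℕ) (P : Sch k → Prop) : Prop :=
  ∀ (r : ℕ) (σ : Fin r → Type) (f : ∀ i, MvPolynomial (σ i) k) (w : Fin r → ℕ),
    (∀ i, Formula k n (σ i) (f i)) → (∀ i, 0 < w i) → (∀ i, (f i).IsHomogeneous (w i)) →
    ∀ S : Set (MvPolynomial (Fin r) k), (∀ h ∈ S, ∃ m, 0 < m ∧ IsWeightedHomogeneous w h m) →
    ringKrullDim (MvPolynomial (Fin r) k ⧸ Ideal.span S) ≤ (n + 1 : ℕ) →
    ∀ (X : Sch k) (i : X ⟶ space k (Σ i, σ i)), FT True X →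
    Supp ((aeval fun i => rename (Sigma.mk i) (f i)) '' S) i → P X

end Pool.Agent.W5h68.PJ
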