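import Pool.Agent.H89.L.W5h68_SP_Dm
import Pool.Agent.H89.L.Y116_UV_Geo
import Pool.Agent.H79.L.W5h68_PJ_SysDefs

/-!
# The charts of the projective space
-/

set_option autoImplicit false

open CategoryTheory AlgebraicGeometry MvPolynomial TopologicalSpace HomogeneousLocalization
  Pool.Agent.Y116.UV Pool.Agent.W5h68.SP

namespace Pool.Agent.W5h68.PJ

variable {k σ : Type} [Field k]

section

variable (k) in
/-- the ring of functions of a chart -/
abbrev Dh (i : σ) : Type := MvPolynomial σ k ⧸ Ideal.span {(X i - 1 : MvPolynomial σ k)}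

lemma x_mem (i : σ) : (X i : MvPolynomial σ k) ∈ gr k σ 1 := isHomogeneous_X k i

lemma dh_one (i : σ) : (Ideal.Quotient.mk (Ideal.span {(X i - 1 : MvPolynomial σ k)})) (X i) = 1 := by
  rw [← sub_eq_zero, ← map_one (Ideal.Quotient.mk _), ← map_sub]
  exact Ideal.Quotient.eq_zero_iff_mem.mpr (Ideal.mem_span_singleton_self _)

variable (k) in
/-- the localization -/
abbrev Lc (i : σ) : Type := Localization.Away (X i : MvPolynomial σ k)

variable (k) in
/-- from the localization -/
noncomputable def toDh' (i : σ) : Lc k i →+* Dh k i :=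
  IsLocalization.Away.lift (X i : MvPolynomial σ k) (g := Ideal.Quotient.mk _)
    (by rw [dh_one]; exact isUnit_one)

variable (k) in
/-- from the homogeneous localization -/
noncomputable def toDh (i : σ) : Away (gr k σ) (X i) →+* Dh k i :=
  (toDh' k i).comp (algebraMap (Away (gr k σ) (X i)) (Lc k i))

lemma toDh_mk (i : σ) (n : ℕ) (g : MvPolynomial σ k) (hg : g ∈ gr k σ (n • 1)) :
    toDh k i (Away.mk (gr k σ) (x_mem i) n g hg) = Ideal.Quotient.mk _ g := by
  change toDh' k i ((Away.mk (gr k σ) (x_mem i) n g hg).val) = _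
  rw [Away.val_mk]
  have h2 : ∀ p : MvPolynomial σ k, (toDh' k i) (algebraMap _ _ p) = Ideal.Quotient.mk _ p :=
    fun p => IsLocalization.Away.lift_eq _ _ p
  have h0 : (Localization.mk g ⟨(X i) ^ n, n, rfl⟩ : Lc k i) *
      algebraMap _ (Lc k i) ((X i : MvPolynomial σ k) ^ n) = algebraMap _ (Lc k i) g := by
    rw [Localization.mk_eq_mk']
    exact IsLocalization.mk'_spec (M := Submonoid.powers (X i : MvPolynomial σ k)) (Lc k i) g
      ⟨(X i) ^ n, n, rfl⟩
  have h1 := congrArg (toDh' k i) h0
  rw [map_mul, h2, h2, map_pow, dh_one, one_pow, mul_one] at h1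
  exact h1

/-- `x_j / x_i` -/
noncomputable def frac (i j : σ) : Lc k i :=
  IsLocalization.Away.invSelf (X i : MvPolynomial σ k) * algebraMap (MvPolynomial σ k) _ (X j)

lemma toDh_injective (i : σ) : Function.Injective (toDh k i) := by
  rw [injective_iff_map_eq_zero]
  intro a ha
  obtain ⟨n, g, hg, rfl⟩ := Away.mk_surjective (gr k σ) (x_mem i) a
  rw [toDh_mk, Ideal.Quotient.eq_zero_iff_mem] at ha
  let v : Lc k i := IsLocalization.Away.invSelf (X i : MvPolynomial σ k)
  let θ : MvPolynomial σ k →ₐ[k] Lc k i := aeval (frac i)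
  have hi : v * algebraMap (MvPolynomial σ k) (Lc k i) (X i) = 1 := by
    rw [mul_comm]
    exact IsLocalization.Away.mul_invSelf _
  have h1 : Ideal.span {(X i - 1 : MvPolynomial σ k)} ≤ RingHom.ker θ := by
    rw [Ideal.span_le, Set.singleton_subset_iff]
    change θ (X i - 1) = 0
    rw [map_sub, map_one, aeval_X]
    change v * algebraMap (MvPolynomial σ k) (Lc k i) (X i) - 1 = 0
    rw [hi, sub_self]
  have h2 : θ g = 0 := h1 ha
  have hg' : g.IsHomogeneous n := by
    rw [smul_eq_mul, mul_one] at hg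
    exact hg
  have h3 : θ g = v ^ n * algebraMap (MvPolynomial σ k) (Lc k i) g := by
    refine (aeval_hom hg' _ _).trans ?_
    congr 1
    have h4 : (aeval fun j => algebraMap (MvPolynomial σ k) (Lc k i) (X j)) =
        IsScalarTower.toAlgHom k (MvPolynomial σ k) (Lc k i) := by
      apply MvPolynomial.algHom_ext
      intro j
      rw [aeval_X]
      rfl
    rw [h4]
    rfl
  apply HomogeneousLocalization.val_injective
  rw [Away.val_mk, HomogeneousLocalization.val_zero]
  rw [h2] at h3
  have h5 : algebraMap (MvPolynomial σ k) (Lc k i) g = 0 := by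
    have h6 : (algebraMap (MvPolynomial σ k) (Lc k i) (X i)) ^ n *
        (v ^ n * algebraMap (MvPolynomial σ k) (Lc k i) g) = 0 := by
      rw [← h3, mul_zero]
    rw [← mul_assoc, ← mul_pow, mul_comm (algebraMap _ _ (X i)), hi, one_pow, one_mul] at h6
    exact h6
  rw [Localization.mk_eq_mk', IsLocalization.mk'_eq_zero_iff]
  rw [IsLocalization.map_eq_zero_iff (Submonoid.powers (X i : MvPolynomial σ k))] at h5
  exact h5

lemma toDh_surjective (i : σ) : Function.Surjective (toDh k i) := by
  intro a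
  obtain ⟨p, rfl⟩ := Ideal.Quotient.mk_surjective a
  induction p using MvPolynomial.induction_on with
  | C c =>
    refine ⟨Away.mk (gr k σ) (x_mem i) 0 (C c) (by
      rw [zero_smul]
      exact isHomogeneous_C _ c), ?_⟩
    rw [toDh_mk]
  | add p q hp hq =>
    obtain ⟨a, ha⟩ := hp
    obtain ⟨b, hb⟩ := hq
    exact ⟨a + b, by rw [map_add, ha, hb, map_add]⟩
  | mul_X p j hp =>
    obtain ⟨a, ha⟩ := hp
    refine ⟨a * Away.mk (gr k σ) (x_mem i) 1 (X j) (by
      rw [one_smul]
      exact isHomogeneous_X k j), ?_⟩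
    rw [map_mul, ha, toDh_mk, map_mul]

variable (k) in
/-- the isomorphism -/
noncomputable def eDh (i : σ) : Away (gr k σ) (X i) ≃+* Dh k i :=
  RingEquiv.ofBijective (toDh k i) ⟨toDh_injective i, toDh_surjective i⟩

lemma eDh_algebraMap (i : σ) : (toDh k i).comp
    ((fromZeroRingHom (gr k σ) (Submonoid.powers (X i))).comp (algebraMap k (gr k σ 0))) =
      algebraMap k (Dh k i) := by
  ext c
  have h1 : fromZeroRingHom (gr k σ) (Submonoid.powers (X i)) (algebraMap k (gr k σ 0) c) =
      Away.mk (gr k σ) (x_mem i) 0 (C c) (by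
        rw [zero_smul]
        exact isHomogeneous_C _ c) := by
    apply HomogeneousLocalization.val_injective
    rw [Away.val_mk]
    change Localization.mk _ _ = _
    congr 1
  change toDh k i (fromZeroRingHom (gr k σ) (Submonoid.powers (X i)) (algebraMap k (gr k σ 0) c)) = _
  rw [h1, toDh_mk]
  rfl

variable (k) in
/-- the chart -/
noncomputable def chart (i : σ) : aff k (Dh k i) ⟶ space k σ :=
  Over.homMk (Spec.map (CommRingCat.ofHom (toDh k i)) ≫
    Proj.awayι (gr k σ) (X i) (x_mem i) one_pos) (by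
    change (Spec.map _ ≫ _) ≫ (Proj.toSpecZero _ ≫ Spec.map _) = Spec.map _
    rw [Category.assoc, Proj.awayι_toSpecZero_assoc, ← Spec.map_comp, ← Spec.map_comp,
      ← CommRingCat.ofHom_comp, ← CommRingCat.ofHom_comp, eDh_algebraMap])

instance chart_iso (i : σ) : IsIso (Spec.map (CommRingCat.ofHom (toDh k i))) := by
  have h : IsIso (CommRingCat.ofHom (toDh k i)) :=
    inferInstanceAs (IsIso (eDh k i).toCommRingCatIso.hom)
  infer_instance

instance chart_open (i : σ) : IsOpenImmersion (chart k i).left := by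
  have h := chart_iso (k := k) i
  have h2 : IsOpenImmersion (Spec.map (CommRingCat.ofHom (toDh k i))) := inferInstance
  have h3 : IsOpenImmersion (Proj.awayι (gr k σ) (X i) (x_mem i) one_pos) := inferInstance
  exact IsOpenImmersion.comp (Spec.map (CommRingCat.ofHom (toDh k i)))
    (Proj.awayι (gr k σ) (X i) (x_mem i) one_pos)

lemma range_chart (i : σ) : Set.range (chart k i).left = (Dp (X i : MvPolynomial σ k) : Set _) := by
  have h1 := Scheme.Hom.opensRange_comp_of_isIso (Spec.map (CommRingCat.ofHom (toDh k i)))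
    (Proj.awayι (gr k σ) (X i) (x_mem i) one_pos)
  rw [Proj.opensRange_awayι] at h1
  exact congrArg (fun U : (Proj (gr k σ)).Opens => (U : Set (Proj (gr k σ)))) h1

/-- the homogeneous polynomial `g` in the chart -/
lemma chart_mem (i : σ) {g : MvPolynomial σ k} {m : ℕ} (hg : g.IsHomogeneous m) (hm : 0 < m)
    (y : PrimeSpectrum (Dh k i)) : (chart k i).left y ∈ Dp g ↔
      Ideal.Quotient.mk _ g ∉ y.asIdeal := by
  have h1 : (chart k i).left y ∈ Dp g ↔
      (Spec.map (CommRingCat.ofHom (toDh k i))) y ∈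
        Proj.awayι (gr k σ) (X i) (x_mem i) one_pos ⁻¹ᵁ Proj.basicOpen (gr k σ) g := Iff.rfl
  rw [h1, Proj.awayι_preimage_basicOpen (g_deg := hg) (hm' := hm)]
  change (Away.isLocalizationElem (x_mem i) hg) ∉
    (PrimeSpectrum.comap (toDh k i) y).asIdeal ↔ _
  change toDh k i (Away.isLocalizationElem (x_mem i) hg) ∉ y.asIdeal ↔ _
  have h2 : toDh k i (Away.isLocalizationElem (x_mem i) hg) = Ideal.Quotient.mk _ (g ^ 1) :=
    toDh_mk _ _ _ _
  rw [h2, pow_one]

end

end Pool.Agent.W5h68.PJ
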