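import Pool.Agent.H79.L.W5h68_PJ_Strata
import Pool.Agent.H89.L.W5h68_SP_Cl

/-!
# The strata of projective schemes and the affine cones
-/

set_option autoImplicit false

open CategoryTheory AlgebraicGeometry MvPolynomial Pool.Agent.Y116.UV Pool.Agent.W5h68.SP

namespace Pool.Agent.W5h68.PJ

variable {k : Type} [Field k]

section lau

variable {A D : Type} [CommRing A] [Algebra k A] [CommRing D] [Algebra k D]

lemma lau_lift (φ : A →ₐ[k] D) (u : Dˣ) : ∃ F : LaurentPolynomial A →ₐ[k] D,
    (∀ a, F (LaurentPolynomial.C a) = φ a) ∧ F (LaurentPolynomial.T 1) = u := by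
  refine ⟨{ LaurentPolynomial.eval₂ (φ : A →+* D) u with
    commutes' := fun r => by
      change LaurentPolynomial.eval₂ (φ : A →+* D) u (LaurentPolynomial.C (algebraMap k A r)) = _
      rw [LaurentPolynomial.eval₂_C]
      exact φ.commutes r }, fun a => ?_, ?_⟩
  · exact LaurentPolynomial.eval₂_C _ _ _
  · change LaurentPolynomial.eval₂ (φ : A →+* D) u (LaurentPolynomial.T 1) = _
    rw [LaurentPolynomial.eval₂_T]
    simp

lemma lau_ext {f g : LaurentPolynomial A →ₐ[k] D}
    (h1 : ∀ a, f (LaurentPolynomial.C a) = g (LaurentPolynomial.C a))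
    (h2 : f (LaurentPolynomial.T 1) = g (LaurentPolynomial.T 1)) : f = g := by
  have hn : ∀ n : ℕ, f (LaurentPolynomial.T n) = g (LaurentPolynomial.T n) := by
    intro n
    have h3 : (LaurentPolynomial.T n : LaurentPolynomial A) = LaurentPolynomial.T 1 ^ n := by
      rw [LaurentPolynomial.T_pow, mul_one]
    rw [h3, map_pow, map_pow, h2]
  have hz : ∀ n : ℤ, f (LaurentPolynomial.T n) = g (LaurentPolynomial.T n) := by
    intro n
    rcases Int.eq_nat_or_neg n with ⟨m, rfl | rfl⟩
    · exact hn m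
    · have h3 : (LaurentPolynomial.T (-(m : ℤ)) : LaurentPolynomial A) * LaurentPolynomial.T m = 1 := by
        rw [← LaurentPolynomial.T_add, neg_add_cancel, LaurentPolynomial.T_zero]
      have h4 : f (LaurentPolynomial.T (-(m : ℤ))) * f (LaurentPolynomial.T m) = 1 := by
        rw [← map_mul, h3, map_one]
      have h5 : g (LaurentPolynomial.T (-(m : ℤ))) * f (LaurentPolynomial.T m) = 1 := by
        rw [hn, ← map_mul, h3, map_one]
      calc f (LaurentPolynomial.T (-(m : ℤ)))
          = f (LaurentPolynomial.T (-(m : ℤ))) *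
            (g (LaurentPolynomial.T (-(m : ℤ))) * f (LaurentPolynomial.T m)) := by rw [h5, mul_one]
        _ = g (LaurentPolynomial.T (-(m : ℤ))) *
            (f (LaurentPolynomial.T (-(m : ℤ))) * f (LaurentPolynomial.T m)) := by ring
        _ = g (LaurentPolynomial.T (-(m : ℤ))) := by rw [h4, mul_one]
  apply AlgHom.ext
  intro p
  induction p using LaurentPolynomial.induction_on' with
  | add p q hp hq => rw [map_add, map_add, hp, hq]
  | C_mul_T n a => rw [map_mul, map_mul, h1, hz]

end lau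

section cone

variable {σ : Type}

/-- the affine cone -/
abbrev Cn (S : Set (MvPolynomial σ k)) : Type := MvPolynomial σ k ⧸ Ideal.span S

lemma quot_lift {A B : Type} [CommRing A] [Algebra k A] [CommRing B] [Algebra k B] (S : Set A)
    (φ : A →ₐ[k] B) (h : ∀ s ∈ S, φ s = 0) :
    ∃ ψ : (A ⧸ Ideal.span S) →ₐ[k] B, ∀ a, ψ (Ideal.Quotient.mk _ a) = φ a :=
  ⟨Ideal.Quotient.liftₐ _ φ (by
    have h1 : Ideal.span S ≤ RingHom.ker φ := by
      rw [Ideal.span_le]
      exact h
    exact fun a ha => h1 ha), fun a => rfl⟩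

lemma away_lift {A B : Type} [CommRing A] [Algebra k A] [CommRing B] [Algebra k B] (f : A)
    (φ : A →ₐ[k] B) (h : IsUnit (φ f)) :
    ∃ ψ : Localization.Away f →ₐ[k] B, ∀ a, ψ (algebraMap A _ a) = φ a :=
  ⟨IsLocalization.liftAlgHom (M := Submonoid.powers f) (f := φ) (by
      rintro ⟨_, n, rfl⟩
      change IsUnit (φ (f ^ n))
      rw [map_pow]
      exact h.pow n), fun a => by
        change IsLocalization.liftAlgHom _ (algebraMap _ _ a) = _
        rw [IsLocalization.liftAlgHom_apply, IsLocalization.lift_eq]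
        rfl⟩

variable {D : Type} [CommRing D] [Algebra k D]

/-- the open part `x_i ≠ 0` of the cone is the product of the affine part with `𝔾_m` -/
lemma cone_away {S : Set (MvPolynomial σ k)} (hS : ∀ g ∈ S, ∃ m, g.IsHomogeneous m) (i : σ)
    (p : MvPolynomial σ k →ₐ[k] D) (hps : Function.Surjective p) (hpi : p (X i) = 1)
    (hp0 : ∀ g ∈ S, p g = 0)
    (hl : ∀ (B : Type) [CommRing B] [Algebra k B] (φ : MvPolynomial σ k →ₐ[k] B), φ (X i) = 1 →
      (∀ g ∈ S, φ g = 0) → ∃ ψ : D →ₐ[k] B, ∀ g, ψ (p g) = φ g) :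
    Nonempty (Localization.Away (Ideal.Quotient.mk (Ideal.span S) (X i)) ≃ₐ[k]
      LaurentPolynomial D) := by
  let xi : Cn S := Ideal.Quotient.mk (Ideal.span S) (X i)
  let q : MvPolynomial σ k →ₐ[k] Cn S := Ideal.Quotient.mkₐ k _
  let j : Cn S →ₐ[k] Localization.Away xi := IsScalarTower.toAlgHom k _ _
  have hq0 : ∀ g ∈ S, q g = 0 := fun g hg =>
    Ideal.Quotient.eq_zero_iff_mem.mpr (Ideal.subset_span hg)
  -- the first homomorphism
  let y : σ → LaurentPolynomial D := fun l => LaurentPolynomial.T 1 * LaurentPolynomial.C (p (X l))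
  have hy : ∀ {g : MvPolynomial σ k} {m : ℕ}, g.IsHomogeneous m →
      aeval y g = LaurentPolynomial.T 1 ^ m * LaurentPolynomial.C (p g) := by
    intro g m hg
    refine (aeval_hom hg _ _).trans ?_
    congr 1
    have h1 : (aeval fun l => (LaurentPolynomial.C (p (X l)) : LaurentPolynomial D)) =
        (IsScalarTower.toAlgHom k D (LaurentPolynomial D)).comp p := by
      apply MvPolynomial.algHom_ext
      intro l
      rw [aeval_X]
      rfl
    rw [h1]
    rfl
  obtain ⟨F0, hF0⟩ := quot_lift S (aeval y) (fun g hg => by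
    obtain ⟨m, hm⟩ := hS g hg
    rw [hy hm, hp0 g hg, map_zero, mul_zero])
  have hF0x : F0 xi = LaurentPolynomial.T 1 := by
    change F0 (Ideal.Quotient.mk _ (X i)) = _
    rw [hF0, aeval_X]
    change LaurentPolynomial.T 1 * LaurentPolynomial.C (p (X i)) = _
    rw [hpi, map_one, mul_one]
  obtain ⟨F, hF⟩ := away_lift xi F0 (by
    rw [hF0x]
    exact LaurentPolynomial.isUnit_T _)
  -- the second homomorphism
  have hu : IsUnit (j xi) := IsLocalization.Away.algebraMap_isUnit xi
  let u : (Localization.Away xi)ˣ := hu.unit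
  have huv : ((u⁻¹ : (Localization.Away xi)ˣ) : Localization.Away xi) * j xi = 1 := by
    have h1 : (u : Localization.Away xi) = j xi := hu.unit_spec
    rw [← h1]
    exact u.inv_mul
  let z : σ → Localization.Away xi := fun l =>
    ((u⁻¹ : (Localization.Away xi)ˣ) : Localization.Away xi) * j (q (X l))
  have hz : ∀ {g : MvPolynomial σ k} {m : ℕ}, g.IsHomogeneous m →
      aeval z g = ((u⁻¹ : (Localization.Away xi)ˣ) : Localization.Away xi) ^ m * j (q g) := by
    intro g m hg
    refine (aeval_hom hg _ _).trans ?_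
    congr 1
    have h1 : (aeval fun l => j (q (X l))) = j.comp q := by
      apply MvPolynomial.algHom_ext
      intro l
      rw [aeval_X]
      rfl
    rw [h1]
    rfl
  obtain ⟨G2, hG2⟩ := hl _ (aeval z) (by
    rw [aeval_X]
    exact huv) (fun g hg => by
    obtain ⟨m, hm⟩ := hS g hg
    rw [hz hm, hq0 g hg, map_zero, mul_zero])
  obtain ⟨G, hG3, hG4⟩ := lau_lift G2 u
  refine ⟨AlgEquiv.ofAlgHom F G ?_ ?_⟩
  · apply lau_ext
    · intro a
      obtain ⟨a, rfl⟩ := hps a
      have h1 : (F.comp G2).comp p =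
          (IsScalarTower.toAlgHom k D (LaurentPolynomial D)).comp p := by
        apply MvPolynomial.algHom_ext
        intro l
        change F (G2 (p (X l))) = LaurentPolynomial.C (p (X l))
        rw [hG2, aeval_X]
        change F (((u⁻¹ : (Localization.Away xi)ˣ) : Localization.Away xi) * j (q (X l))) = _
        have h2 : F (j xi) = LaurentPolynomial.T 1 := (hF xi).trans hF0x
        have h3 : F ((u⁻¹ : (Localization.Away xi)ˣ) : Localization.Away xi) *
            LaurentPolynomial.T 1 = 1 := by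
          rw [← h2, ← map_mul, huv, map_one]
        have h4 : F (j (q (X l))) = LaurentPolynomial.T 1 * LaurentPolynomial.C (p (X l)) :=
          (hF _).trans ((hF0 _).trans (aeval_X _ _))
        rw [map_mul, h4, ← mul_assoc, h3, one_mul]
      have h5 := congrArg (fun φ : MvPolynomial σ k →ₐ[k] LaurentPolynomial D => φ a) h1
      change F (G (LaurentPolynomial.C _)) = LaurentPolynomial.C _
      rw [hG3]
      exact h5
    · change F (G (LaurentPolynomial.T 1)) = LaurentPolynomial.T 1
      rw [hG4]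
      have h1 : (u : Localization.Away xi) = j xi := hu.unit_spec
      rw [h1]
      exact (hF xi).trans hF0x
  · apply IsLocalization.algHom_ext (Submonoid.powers xi)
    apply Ideal.Quotient.algHom_ext
    apply MvPolynomial.algHom_ext
    intro l
    change G (F (j (q (X l)))) = j (q (X l))
    have h4 : F (j (q (X l))) = LaurentPolynomial.T 1 * LaurentPolynomial.C (p (X l)) :=
      (hF _).trans ((hF0 _).trans (aeval_X _ _))
    have h1 : (u : Localization.Away xi) = j xi := hu.unit_spec
    rw [h4, map_mul, hG3, hG4, hG2, aeval_X]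
    change _ * (((u⁻¹ : (Localization.Away xi)ˣ) : Localization.Away xi) * j (q (X l))) = _
    rw [← mul_assoc, u.mul_inv, one_mul]

/-- the coordinate hyperplane section of the cone -/
lemma cone_quot (S : Set (MvPolynomial σ k)) (f : MvPolynomial σ k) :
    Nonempty ((Cn S ⧸ Ideal.span {Ideal.Quotient.mk (Ideal.span S) f}) ≃ₐ[k] Cn (S ∪ {f})) := by
  have h1 : Ideal.span {Ideal.Quotient.mk (Ideal.span S) f} =
      (Ideal.span {f}).map (Ideal.Quotient.mkₐ k (Ideal.span S)) := by
    rw [Ideal.map_span, Set.image_singleton]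
    rfl
  have h2 : Ideal.span S ⊔ Ideal.span {f} = Ideal.span (S ∪ {f}) := (Ideal.span_union _ _).symm
  exact ⟨(Ideal.quotientEquivAlgOfEq k h1).trans ((DoubleQuot.quotQuotEquivQuotSupₐ k _ _).trans
    (Ideal.quotientEquivAlgOfEq k h2))⟩

variable {P : Sch k → Prop} (hP : ClS k P)
  {Q : (A : Type) → [CommRing A] → [Algebra k A] → Prop} (hQ : Cl k Q)
  (hT : ∀ {A : Type} [CommRing A] [Algebra k A] [Algebra.FiniteType k A],
    Q (LaurentPolynomial A) → Q A)

include hQ hT in
lemma chart_q [Finite σ] {S : Set (MvPolynomial σ k)} (hS : ∀ g ∈ S, ∃ m, g.IsHomogeneous m) (i : σ)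
    (p : MvPolynomial σ k →ₐ[k] D) (hps : Function.Surjective p) (hpi : p (X i) = 1)
    (hp0 : ∀ g ∈ S, p g = 0)
    (hl : ∀ (B : Type) [CommRing B] [Algebra k B] (φ : MvPolynomial σ k →ₐ[k] B), φ (X i) = 1 →
      (∀ g ∈ S, φ g = 0) → ∃ ψ : D →ₐ[k] B, ∀ g, ψ (p g) = φ g)
    (h0 : Q (Cn S)) (h1 : Q (Cn (S ∪ {X i}))) : Q D := by
  have hft : Algebra.FiniteType k (Cn S) := inferInstance
  have hftD : Algebra.FiniteType k D := Algebra.FiniteType.of_surjective p hps
  obtain ⟨e1⟩ := cone_away hS i p hps hpi hp0 hl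
  obtain ⟨e2⟩ := cone_quot S (X i)
  have h2 : Q (Cn S ⧸ Ideal.span {Ideal.Quotient.mk (Ideal.span S) (X i)}) := hQ.iso e2.symm h1
  have h3 := hQ.opened (Ideal.Quotient.mk (Ideal.span S) (X i)) h2 h0
  have hft2 : Algebra.FiniteType k (Localization.Away (Ideal.Quotient.mk (Ideal.span S) (X i))) :=
    Algebra.FiniteType.trans (S := Cn S) inferInstance inferInstance
  exact hT (hQ.iso e1 h3)

include hP hQ hT in
/-- **Projective schemes and affine cones.** -/
theorem proj_of_cones [Finite σ]
    (hQP : ∀ {A : Type} [CommRing A] [Algebra k A] [Algebra.FiniteType k A], Q A → P (aff k A))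
    {S : Set (MvPolynomial σ k)} (hS : ∀ g ∈ S, ∃ m, 0 < m ∧ g.IsHomogeneous m)
    (h : ∀ T : Set σ, Q (Cn (S ∪ X '' T))) {Z : Sch k} (f : Z ⟶ space k σ) (hZ : FT True Z)
    (hf : Supp S f) : P Z := by
  have := Fintype.ofFinite σ
  refine strata_list hP hS ?_ Finset.univ.toList ∅
    (fun i => Or.inr (Finset.mem_toList.mpr (Finset.mem_univ i))) f hZ ?_
  · intro T i _
    have hS' : ∀ g ∈ S ∪ X '' T, ∃ m, g.IsHomogeneous m := by
      rintro g (hg | ⟨l, _, rfl⟩)
      · obtain ⟨m, _, hm⟩ := hS g hg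
        exact ⟨m, hm⟩
      · exact ⟨1, isHomogeneous_X _ _⟩
    have h2 : (S ∪ X '' T) ∪ {X i} = S ∪ X '' (insert i T) := by
      rw [Set.image_insert_eq, Set.union_assoc, Set.union_singleton]
    refine hQP (chart_q hQ hT hS' i ((Ideal.Quotient.mkₐ k (Ideal.span ((Ideal.Quotient.mk
      (Ideal.span {(X i - 1 : MvPolynomial σ k)})) '' (S ∪ X '' T)))).comp
        (Ideal.Quotient.mkₐ k (Ideal.span {(X i - 1 : MvPolynomial σ k)}))) ?_ ?_ ?_ ?_ (h T) ?_)
    · exact (Ideal.Quotient.mkₐ_surjective k _).comp (Ideal.Quotient.mkₐ_surjective k _)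
    · change Ideal.Quotient.mk _ (Ideal.Quotient.mk _ (X i)) = 1
      rw [dh_one, map_one]
    · intro g hg
      exact Ideal.Quotient.eq_zero_iff_mem.mpr (Ideal.subset_span ⟨g, hg, rfl⟩)
    · intro B _ _ φ h3 h4
      obtain ⟨G1, hG1⟩ := quot_lift {(X i - 1 : MvPolynomial σ k)} φ (fun g hg => by
        rw [Set.mem_singleton_iff.mp hg, map_sub, map_one, h3, sub_self])
      obtain ⟨G2, hG2⟩ := quot_lift ((Ideal.Quotient.mk
          (Ideal.span {(X i - 1 : MvPolynomial σ k)})) '' (S ∪ X '' T)) G1 (fun g hg => by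
        obtain ⟨g, hg, rfl⟩ := hg
        rw [hG1, h4 g hg])
      exact ⟨G2, fun g => (hG2 _).trans (hG1 _)⟩
    · rw [h2]
      exact h _
  · rw [Set.image_empty, Set.union_empty]
    exact hf

end cone

end Pool.Agent.W5h68.PJ
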