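import Pool.Agent.H79.L.W5h68_PJ_Slice

/-!
# Cones over systems of equations between semi-invariant polynomials
-/

set_option autoImplicit false

open MvPolynomial Pool.Agent.W5h68.SP Pool.Agent.Z125.UN

namespace Pool.Agent.W5h68.PJ

variable {k : Type} [Field k]

lemma whom_aeval {ι σ : Type} {w : ι → ℕ} {v : σ → ℕ} {g : ι → MvPolynomial σ k}
    (hg : ∀ i, IsWeightedHomogeneous v (g i) (w i)) {h : MvPolynomial ι k} {m : ℕ}
    (hh : IsWeightedHomogeneous w h m) : IsWeightedHomogeneous v (aeval g h) m := by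
  rw [aeval_def, eval₂_eq]
  refine (weightedHomogeneousSubmodule k v m).sum_mem fun s hs => ?_
  have h1 : ∑ i ∈ s.support, s i • w i = m := by
    have h2 := hh (mem_support_iff.mp hs)
    rwa [Finsupp.weight_apply, Finsupp.sum] at h2
  have h2 : IsWeightedHomogeneous v (∏ i ∈ s.support, g i ^ s i) m := by
    rw [← h1]
    exact IsWeightedHomogeneous.prod _ _ _ fun i _ => (hg i).pow (s i)
  exact h2.C_mul _

lemma le_of_add_one {x : WithBot ℕ∞} {n : ℕ} (h : x + 1 ≤ ((n + 1 : ℕ) : WithBot ℕ∞)) : x ≤ n := by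
  rw [ENat.WithBot.add_one_le_natCast_iff] at h
  have h2 : ((n : WithBot ℕ∞) + 1) = ((n + 1 : ℕ) : WithBot ℕ∞) := by push_cast; rfl
  rw [← h2] at h
  exact ENat.WithBot.lt_add_one_iff.mp h

/-- the slice has smaller dimension -/
lemma dim_slice {σ : Type} {S : Set (MvPolynomial σ k)} {w : σ → ℕ}
    (hS : ∀ g ∈ S, ∃ m, IsWeightedHomogeneous w g m) (i : σ) (hi : 0 < w i)
    {D : Type} [CommRing D] [Algebra k D] (p : MvPolynomial σ k →ₐ[k] D)
    (hps : Function.Surjective p) (hp0 : ∀ h ∈ S, p h = 0) (hpi : p (X i) = 1)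
    (hlD : ∀ (B : Type) [CommRing B] [Algebra k B] (φ : MvPolynomial σ k →ₐ[k] B), φ (X i) = 1 →
      (∀ h ∈ S, φ h = 0) → ∃ ψ : D →ₐ[k] B, ∀ h, ψ (p h) = φ h) :
    ringKrullDim D + 1 ≤ ringKrullDim (Cn S) := by
  obtain ⟨e⟩ := slice hS (isWeightedHomogeneous_X k w i) hi p hps hp0 hpi hlD
  have h1 : ringKrullDim (LaurentPolynomial D) ≤ ringKrullDim (Cn S) := by
    rw [← ringKrullDim_eq_of_ringEquiv e.toRingEquiv]
    exact (cyc_dim _ hi _).trans (dim_away _)
  refine le_trans ?_ h1
  refine ringKrullDim_succ_le_of_surjective (LaurentPolynomial.eval₂ (RingHom.id _) 1) ?_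
    (t_sub_one (A := D)) ?_
  · intro a
    exact ⟨LaurentPolynomial.C a, by rw [LaurentPolynomial.eval₂_C]; rfl⟩
  · rw [map_sub, map_one, LaurentPolynomial.eval₂_T]
    simp

/-- the universal property of `Cn (S ∪ {g - 1})` -/
lemma cn_univ {σ : Type} (S : Set (MvPolynomial σ k)) (g : MvPolynomial σ k) :
    Function.Surjective (Ideal.Quotient.mkₐ k (Ideal.span (S ∪ {g - 1}))) ∧
    (∀ h ∈ S, Ideal.Quotient.mkₐ k (Ideal.span (S ∪ {g - 1})) h = 0) ∧
    Ideal.Quotient.mkₐ k (Ideal.span (S ∪ {g - 1})) g = 1 ∧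
    (∀ (B : Type) [CommRing B] [Algebra k B] (φ : MvPolynomial σ k →ₐ[k] B), φ g = 1 →
      (∀ h ∈ S, φ h = 0) → ∃ ψ : Cn (S ∪ {g - 1}) →ₐ[k] B, ∀ h,
        ψ (Ideal.Quotient.mkₐ k (Ideal.span (S ∪ {g - 1})) h) = φ h) := by
  refine ⟨Ideal.Quotient.mkₐ_surjective k _, fun h hh =>
    Ideal.Quotient.eq_zero_iff_mem.mpr (Ideal.subset_span (Or.inl hh)), ?_,
    fun B _ _ φ h1 h2 => ?_⟩
  · have h1 : Ideal.Quotient.mkₐ k (Ideal.span (S ∪ {g - 1})) (g - 1) = 0 :=
      Ideal.Quotient.eq_zero_iff_mem.mpr (Ideal.subset_span (Or.inr rfl))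
    rw [map_sub, map_one, sub_eq_zero] at h1
    exact h1
  · obtain ⟨ψ, hψ⟩ := quot_lift (S ∪ {g - 1}) φ (fun h hh => by
      rcases hh with hh | hh
      · exact h2 h hh
      · rw [Set.mem_singleton_iff.mp hh, map_sub, map_one, h1, sub_self])
    exact ⟨ψ, hψ⟩

variable {Q : (A : Type) → [CommRing A] → [Algebra k A] → Prop}

/-- the open part of a cone has the property if the slice has it -/
lemma away_of_slice {σ : Type} [Finite σ] (hQ : ClK k Q) {S : Set (MvPolynomial σ k)} {w : σ → ℕ}
    (hS : ∀ g ∈ S, ∃ m, IsWeightedHomogeneous w g m)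
    {g : MvPolynomial σ k} {e : ℕ} (hg : IsWeightedHomogeneous w g e) (he : 0 < e)
    {D : Type} [CommRing D] [Algebra k D] (p : MvPolynomial σ k →ₐ[k] D)
    (hps : Function.Surjective p) (hp0 : ∀ h ∈ S, p h = 0) (hpg : p g = 1)
    (hlD : ∀ (B : Type) [CommRing B] [Algebra k B] (φ : MvPolynomial σ k →ₐ[k] B), φ g = 1 →
      (∀ h ∈ S, φ h = 0) → ∃ ψ : D →ₐ[k] B, ∀ h, ψ (p h) = φ h) (hD : Q D) :
    Q (Localization.Away (Ideal.Quotient.mk (Ideal.span S) g)) := by
  obtain ⟨e'⟩ := slice hS hg he p hps hp0 hpg hlD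
  have h1 : Algebra.FiniteType k D := Algebra.FiniteType.of_surjective p hps
  have h2 : Algebra.FiniteType k (Cn S) := inferInstance
  have h3 : Algebra.FiniteType k (Localization.Away (Ideal.Quotient.mk (Ideal.span S) g)) :=
    Algebra.FiniteType.trans (S := Cn S) inferInstance inferInstance
  have h4 : Algebra.FiniteType k (LaurentPolynomial D) :=
    Algebra.FiniteType.trans (S := D) inferInstance inferInstance
  refine hQ.cyc e (algebraMap (Cn S) _ (Ideal.Quotient.mk (Ideal.span S) g)) he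
    (IsLocalization.Away.algebraMap_isUnit (Ideal.Quotient.mk (Ideal.span S) g)) ?_
  exact hQ.iso e'.symm (cl_laurent hQ.toCl hD)

variable {n r : ℕ} {σ : Fin r → Type} {f : ∀ i, MvPolynomial (σ i) k}

/-- **Weighted cones.** Systems of weighted homogeneous equations between semi-invariant weighted
homogeneous polynomials, given by a cone of dimension at most `n + 1`. -/
theorem cone_good (hQ : ClK k Q) (hn : ∀ (A : Type) [CommRing A] [Algebra k A]
    [Algebra.FiniteType k A], ringKrullDim A ≤ n → Q A) (hfin : ∀ i, Finite (σ i))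
    (hF : ∀ i, Fib Q (fun _ : Unit => f i)) {d : Fin r → ℕ} (hd : ∀ i, 0 < d i)
    (hs : ∀ i, Semi (f i) (d i)) {v : (Σ i, σ i) → ℕ} {w : Fin r → ℕ} (hw : ∀ i, 0 < w i)
    (hv : ∀ i, IsWeightedHomogeneous v (tup f i) (w i)) {S : Set (MvPolynomial (Fin r) k)}
    (hS : ∀ h ∈ S, ∃ m, IsWeightedHomogeneous w h m)
    (hdim : ringKrullDim (MvPolynomial (Fin r) k ⧸ Ideal.span S) ≤ (n + 1 : ℕ)) :
    Q (MvPolynomial (Σ i, σ i) k ⧸ Ideal.span (aeval (tup f) '' S)) := by
  have hfin' : Finite (Σ i, σ i) := inferInstance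
  have key : ∀ (l : List (Fin r)) (J : Set (Fin r)), (∀ i, i ∈ J ∨ i ∈ l) →
      Q (Cn (aeval (tup f) '' (S ∪ X '' J))) := by
    intro l
    induction l with
    | nil =>
      intro J hJ
      refine q_inverse hQ (fib_tup hQ σ hfin f hF) (multi_tup hs) hn hd _ ?_
      have h1 : ringKrullDim (MvPolynomial (Fin r) k ⧸ Ideal.span (S ∪ X '' J)) ≤ ringKrullDim k := by
        refine ringKrullDim_le_of_surjective (algebraMap k _) ?_
        intro x
        obtain ⟨p, rfl⟩ := Ideal.Quotient.mk_surjective x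
        induction p using MvPolynomial.induction_on with
        | C a => exact ⟨a, rfl⟩
        | add p q hp hq =>
          obtain ⟨a, ha⟩ := hp
          obtain ⟨b, hb⟩ := hq
          exact ⟨a + b, by rw [map_add, map_add, ha, hb]⟩
        | mul_X p i hp =>
          refine ⟨0, ?_⟩
          have h3 : Ideal.Quotient.mk (Ideal.span (S ∪ X '' J)) (X i) = 0 :=
            Ideal.Quotient.eq_zero_iff_mem.mpr (Ideal.subset_span (Or.inr ⟨i, by
              simpa using hJ i, rfl⟩))
          rw [map_zero, map_mul, h3, mul_zero]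
      refine h1.trans ?_
      rw [ringKrullDim_eq_zero_of_field]
      exact_mod_cast Nat.zero_le n
    | cons i l ih =>
      intro J hJ
      by_cases hi : i ∈ J
      · refine ih J (fun j => ?_)
        rcases hJ j with h1 | h1
        · exact Or.inl h1
        · rcases List.mem_cons.mp h1 with h1 | h1
          · left
            rw [h1]
            exact hi
          · exact Or.inr h1
      · have hSJ : ∀ h ∈ S ∪ X '' J, ∃ m, IsWeightedHomogeneous w h m := by
          rintro h (hh | ⟨j, _, rfl⟩)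
          · exact hS h hh
          · exact ⟨w j, isWeightedHomogeneous_X k w j⟩
        have hSf : ∀ g ∈ aeval (tup f) '' (S ∪ X '' J), ∃ m, IsWeightedHomogeneous v g m := by
          rintro _ ⟨h, hh, rfl⟩
          obtain ⟨m, hm⟩ := hSJ h hh
          exact ⟨m, whom_aeval hv hm⟩
        refine hQ.total (Ideal.Quotient.mk _ (tup f i)) ?_ ?_
        · obtain ⟨e⟩ := cone_quot (aeval (tup f) '' (S ∪ X '' J)) (tup f i)
          have h2 : aeval (tup f) '' (S ∪ X '' J) ∪ {tup f i} =
              aeval (tup f) '' (S ∪ X '' (insert i J)) := by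
            rw [Set.image_insert_eq, ← Set.union_singleton, ← Set.union_assoc,
              Set.image_union (aeval (tup f)) (S ∪ X '' J), Set.image_singleton, aeval_X]
          rw [h2] at e
          refine hQ.iso e.symm (ih _ fun j => ?_)
          rcases hJ j with h1 | h1
          · exact Or.inl (Or.inr h1)
          · rcases List.mem_cons.mp h1 with h1 | h1
            · exact Or.inl (Or.inl h1)
            · exact Or.inr h1
        · obtain ⟨h1, h2, h3, h4⟩ := cn_univ (aeval (tup f) '' (S ∪ X '' J)) (tup f i)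
          refine away_of_slice hQ hSf (hv i) (hw i) _ h1 h2 h3 h4 ?_
          have h5 : aeval (tup f) '' (S ∪ X '' J) ∪ {tup f i - 1} =
              aeval (tup f) '' (S ∪ X '' J ∪ {X i - 1}) := by
            rw [Set.image_union (aeval (tup f)) (S ∪ X '' J), Set.image_singleton, map_sub, aeval_X,
              map_one]
          rw [h5]
          refine q_inverse hQ (fib_tup hQ σ hfin f hF) (multi_tup hs) hn hd _ ?_
          obtain ⟨h6, h7, h8, h9⟩ := cn_univ (S ∪ X '' J) (X i)
          have h10 := dim_slice hSJ i (hw i) _ h6 h7 h8 h9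
          have h11 : ringKrullDim (Cn (S ∪ X '' J)) ≤ ringKrullDim (Cn S) := by
            refine ringKrullDim_le_of_surjective (Ideal.Quotient.factor
              (Ideal.span_mono (Set.subset_union_left))) (Ideal.Quotient.factor_surjective _)
          have h12 := (h10.trans h11).trans hdim
          exact le_of_add_one h12
  have h1 := key Finset.univ.toList ∅
    (fun i => Or.inr (Finset.mem_toList.mpr (Finset.mem_univ i)))
  rw [Set.image_empty, Set.union_empty] at h1
  exact h1

end Pool.Agent.W5h68.PJ
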