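import Mathlib

/-!
# Read-once forms: definitions
-/

set_option autoImplicit false

open MvPolynomial

namespace Pool.Agent.W5h68.PJ

/-- The polynomials given by read-once formulas with quasi-homogeneous gates in at most `n + 1`
variables: the smallest class of polynomials (in finite sets of variables `σ`) which

* contains the polynomial `x` in one variable `x`,
* is closed under changes of the names of the variables, and
* contains with the polynomials `f_1, …, f_r` in disjoint sets of variables, `r ≤ n + 1`, also the
  polynomial `h(f_1, …, f_r)`, if `h` is a nonzero polynomial in `r` variables which is homogeneous of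
  degree `e ≠ 0` for some integral weights `w_1, …, w_r` of the variables. -/
inductive Formula (k : Type) [Field k] (n : ℕ) : (σ : Type) → MvPolynomial σ k → Prop
  | var : Formula k n Unit (X ())
  | names {σ τ : Type} (e : σ ≃ τ) (f : MvPolynomial σ k) (hf : Formula k n σ f) :
      Formula k n τ (rename e f)
  | gate {r : ℕ} (hr : r ≤ n + 1) (σ : Fin r → Type) (f : ∀ i, MvPolynomial (σ i) k)
      (hf : ∀ i, Formula k n (σ i) (f i)) (h : MvPolynomial (Fin r) k) (w : Fin r → ℤ) (e : ℤ)
      (hw : IsWeightedHomogeneous w h e) (he : e ≠ 0) (h0 : h ≠ 0) :
      Formula k n (Σ i, σ i) (aeval (fun i => rename (Sigma.mk i) (f i)) h)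

end Pool.Agent.W5h68.PJ
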