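import Pool.Agent.H79.L.W5h68_SP_Fm

/-!
# Read-once formulas: the fibres
-/

set_option autoImplicit false

open MvPolynomial TensorProduct Pool.Agent.Z125.UN

namespace Pool.Agent.W5h68.SP

section fam

variable {k : Type} [Field k] {Q : (A : Type) → [CommRing A] → [Algebra k A] → Prop}

/-- the fibres of a tuple in one more block of variables -/
lemma fam_succ {r : ℕ} (σ : Fin (r + 1) → Type) (f : ∀ i, MvPolynomial (σ i) k)
    (c : Fin (r + 1) → k) : Nonempty (Ev (fun _ : Unit => f 0) (MvPolynomial (Σ i : Fin r, σ i.succ) k ⧸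
      Ideal.span (Set.range fun i => tup (fun i : Fin r => f i.succ) i - C (c i.succ)))
      (fun _ => algebraMap k _ (c 0)) ≃ₐ[k]
      (MvPolynomial (Σ i, σ i) k ⧸ Ideal.span (Set.range fun i => tup f i - C (c i)))) := by
  let I : Ideal (MvPolynomial (Σ i : Fin r, σ i.succ) k) :=
    Ideal.span (Set.range fun i => tup (fun i : Fin r => f i.succ) i - C (c i.succ))
  let J : Ideal (MvPolynomial (Σ i, σ i) k) := Ideal.span (Set.range fun i => tup f i - C (c i))
  let q : MvPolynomial (Σ i : Fin r, σ i.succ) k →ₐ[k] (MvPolynomial _ k ⧸ I) :=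
    Ideal.Quotient.mkₐ k I
  have hqs : Function.Surjective q := Ideal.Quotient.mkₐ_surjective k _
  let π : MvPolynomial (Σ i, σ i) k →ₐ[k] (MvPolynomial _ k ⧸ J) := Ideal.Quotient.mkₐ k J
  have hπ : ∀ i, π (tup f i) = algebraMap k _ (c i) := by
    intro i
    have h : π (tup f i - C (c i)) = 0 := Ideal.Quotient.eq_zero_iff_mem.mpr
      (Ideal.subset_span ⟨i, rfl⟩)
    rw [map_sub, ← algebraMap_eq, AlgHom.commutes, sub_eq_zero] at h
    exact h
  have hq : ∀ i, q (tup (fun i : Fin r => f i.succ) i) = algebraMap k _ (c i.succ) := by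
    intro i
    have h : q (tup (fun i : Fin r => f i.succ) i - C (c i.succ)) = 0 :=
      Ideal.Quotient.eq_zero_iff_mem.mpr (Ideal.subset_span ⟨i, rfl⟩)
    rw [map_sub, ← algebraMap_eq, AlgHom.commutes, sub_eq_zero] at h
    exact h
  -- the map of the variables
  let ρ : MvPolynomial (Σ i : Fin r, σ i.succ) k →ₐ[k] MvPolynomial (Σ i, σ i) k :=
    rename fun v => (⟨v.1.succ, v.2⟩ : Σ i, σ i)
  have hρ : ∀ i, ρ (tup (fun i : Fin r => f i.succ) i) = tup f i.succ := by
    intro i
    change rename _ (rename _ _) = _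
    rw [rename_rename]
    rfl
  obtain ⟨d, hd⟩ : ∃ d : (MvPolynomial (Σ i : Fin r, σ i.succ) k ⧸ I) →ₐ[k]
      (MvPolynomial (Σ i, σ i) k ⧸ J), ∀ p, d (q p) = π (ρ p) :=
    ⟨Ideal.Quotient.liftₐ I (π.comp ρ) (by
      have h1 : I ≤ RingHom.ker (π.comp ρ) := by
        rw [Ideal.span_le]
        rintro _ ⟨i, rfl⟩
        change π (ρ (tup (fun i : Fin r => f i.succ) i - C (c i.succ))) = 0
        have h2 : ρ (C (c i.succ)) = C (c i.succ) := ρ.commutes _
        rw [map_sub, hρ, h2, map_sub, hπ, ← algebraMap_eq, AlgHom.commutes, sub_self]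
      exact fun a ha => h1 ha), fun p => rfl⟩
  let b : Unit → (MvPolynomial (Σ i : Fin r, σ i.succ) k ⧸ I) := fun _ => algebraMap k _ (c 0)
  let E := Ev (fun _ : Unit => f 0) (MvPolynomial (Σ i : Fin r, σ i.succ) k ⧸ I) b
  let z : (Σ i, σ i) → E := fun v => Fin.cases (motive := fun i => σ i → E)
    (fun v => evx (fun _ : Unit => f 0) b v)
    (fun i v => evB (fun _ : Unit => f 0) b (q (X (⟨i, v⟩ : Σ i : Fin r, σ i.succ)))) v.1 v.2
  have hz0 : ∀ p : MvPolynomial (σ 0) k, aeval z (rename (Sigma.mk 0) p) =
      aeval (evx (fun _ : Unit => f 0) b) p := by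
    intro p
    rw [aeval_rename]
    rfl
  have hz1 : ∀ p : MvPolynomial (Σ i : Fin r, σ i.succ) k, aeval z (ρ p) =
      evB (fun _ : Unit => f 0) b (q p) := by
    intro p
    have h : (aeval z).comp ρ = (evB (fun _ : Unit => f 0) b).comp q := by
      apply MvPolynomial.algHom_ext
      rintro ⟨i, v⟩
      rw [AlgHom.comp_apply]
      change aeval z (rename _ (X _)) = _
      rw [rename_X, aeval_X]
      rfl
    exact congrArg (fun φ : MvPolynomial (Σ i : Fin r, σ i.succ) k →ₐ[k] E => φ p) h
  obtain ⟨G, hG⟩ : ∃ G : (MvPolynomial (Σ i, σ i) k ⧸ J) →ₐ[k] E, ∀ p, G (π p) = aeval z p :=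
    ⟨Ideal.Quotient.liftₐ J (aeval z) (by
      have h1 : J ≤ RingHom.ker (aeval z) := by
        rw [Ideal.span_le]
        rintro _ ⟨i, rfl⟩
        change aeval z (tup f i - C (c i)) = 0
        have h2 : aeval z (C (c i)) = algebraMap k E (c i) := (aeval z).commutes _
        rw [map_sub, h2]
        refine Fin.cases ?_ (fun i => ?_) i
        · rw [tup, hz0, ev_rel (fun _ : Unit => f 0) b ()]
          change evB (fun _ : Unit => f 0) b (algebraMap k _ (c 0)) - _ = 0
          rw [AlgHom.commutes, sub_self]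
        · rw [← hρ, hz1, hq, AlgHom.commutes, sub_self]
      exact fun a ha => h1 ha), fun p => rfl⟩
  refine ev_iso (b := b) d (fun v => π (X (⟨0, v⟩ : Σ i, σ i))) ?_ G ?_ ?_ ?_
  · intro i
    have h : aeval (fun v => π (X (⟨0, v⟩ : Σ i, σ i))) = π.comp (rename (Sigma.mk 0)) := by
      apply MvPolynomial.algHom_ext
      intro v
      rw [aeval_X, AlgHom.comp_apply, rename_X]
    rw [h]
    change π (tup f 0) = d (algebraMap k _ (c 0))
    rw [hπ, AlgHom.commutes]
  · intro a
    obtain ⟨p, rfl⟩ := hqs a
    rw [hd, hG, hz1]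
  · intro v
    rw [hG, aeval_X]
    rfl
  · intro φ h1 h2 y
    have h3 : φ = AlgHom.id k _ := by
      apply Ideal.Quotient.algHom_ext
      apply MvPolynomial.algHom_ext
      rintro ⟨i, v⟩
      refine Fin.cases (motive := fun i => ∀ v : σ i, (φ.comp (Ideal.Quotient.mkₐ k J)) (X ⟨i, v⟩) =
        ((AlgHom.id k _).comp (Ideal.Quotient.mkₐ k J)) (X ⟨i, v⟩)) ?_ (fun i v => ?_) i v
      · exact h2
      · have h4 := h1 (q (X (⟨i, v⟩ : Σ i : Fin r, σ i.succ)))
        rw [hd] at h4
        have h5 : ρ (X (⟨i, v⟩ : Σ i : Fin r, σ i.succ)) = X (⟨i.succ, v⟩ : Σ i, σ i) := rename_X _ _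
        rw [h5] at h4
        exact h4
    rw [h3]
    rfl

variable (hQ : ClK k Q)

include hQ in
/-- the fibres of a tuple -/
lemma fib_tup : ∀ {r : ℕ} (σ : Fin r → Type) (_ : ∀ i, Finite (σ i))
    (f : ∀ i, MvPolynomial (σ i) k), (∀ i, Fib Q (fun _ : Unit => f i)) → Fib Q (tup f) := by
  intro r
  induction r with
  | zero =>
    intro σ _ f _ c hc
    have h1 : (Set.range fun i => tup f i - C (c i)) = ∅ := Set.range_eq_empty _
    have h2 : Q (MvPolynomial (Σ i, σ i) k) := hQ.iso (isEmptyAlgEquiv k (Σ i, σ i)).symm hQ.base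
    have h3 : Ideal.span (Set.range fun i => tup f i - C (c i)) = ⊥ := by
      rw [h1, Ideal.span_empty]
    exact hQ.iso ((Ideal.quotientEquivAlgOfEq k h3).trans (AlgEquiv.quotientBot k _)).symm h2
  | succ r ih =>
    intro σ hσ f hf c hc
    obtain ⟨e⟩ := fam_succ σ f c
    have h1 := ih (fun i => σ i.succ) (fun i => hσ i.succ) (fun i => f i.succ)
      (fun i => hf i.succ) (fun i => c i.succ) (fun i => hc i.succ)
    refine hQ.iso e (q_const hQ (hf 0) _ (fun _ => ?_) h1)
    rcases hc 0 with h | h
    · left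
      rw [h, map_zero]
    · right
      rw [h, map_one]

variable {n : ℕ} (hn : ∀ (A : Type) [CommRing A] [Algebra k A] [Algebra.FiniteType k A],
    ringKrullDim A ≤ n → Q A)

include hQ hn

/-- Polynomials given by read-once formulas are semi-invariant, and their fibres have the property. -/
theorem readOnce_good {σ : Type} {f : MvPolynomial σ k} (hf : ReadOnce k n σ f) :
    Finite σ ∧ (∃ d : ℕ, 0 < d ∧ Semi f d) ∧ Fib Q (fun _ : Unit => f) := by
  -- one relation
  have hone : ∀ {τ : Type} (g : MvPolynomial τ k) (c : Unit → k),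
      (Set.range fun i : Unit => g - C (c i)) = {g - C (c ())} := by
    intro τ g c
    ext x
    constructor
    · rintro ⟨⟨⟩, rfl⟩
      rfl
    · intro h
      exact ⟨(), (Set.mem_singleton_iff.mp h).symm⟩
  induction hf with
  | var =>
    refine ⟨inferInstance, ⟨1, Nat.one_pos, semi_var⟩, fun c hc => hn _ ?_⟩
    have h1 : ringKrullDim (MvPolynomial Unit k ⧸
        Ideal.span (Set.range fun i : Unit => X () - C (c i))) ≤ ringKrullDim k := by
      refine ringKrullDim_le_of_surjective (algebraMap k _) ?_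
      intro x
      obtain ⟨p, rfl⟩ := Ideal.Quotient.mk_surjective x
      have h2 : ∀ p : MvPolynomial Unit k, ∃ a : k, algebraMap k (MvPolynomial Unit k ⧸
          Ideal.span (Set.range fun i : Unit => X () - C (c i))) a =
            Ideal.Quotient.mkₐ k (Ideal.span (Set.range fun i : Unit => X () - C (c i))) p := by
        intro p
        induction p using MvPolynomial.induction_on with
        | C a => exact ⟨a, (AlgHom.commutes _ a).symm⟩
        | add p q hp hq =>
          obtain ⟨a, ha⟩ := hp
          obtain ⟨b, hb⟩ := hq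
          exact ⟨a + b, by rw [map_add, map_add, ha, hb]⟩
        | mul_X p v hp =>
          obtain ⟨a, ha⟩ := hp
          refine ⟨a * c (), ?_⟩
          have h3 : Ideal.Quotient.mkₐ k (Ideal.span (Set.range fun i : Unit => X () - C (c i)))
              (X v - C (c ())) = 0 :=
            Ideal.Quotient.eq_zero_iff_mem.mpr (Ideal.subset_span ⟨(), rfl⟩)
          have h4 : Ideal.Quotient.mkₐ k (Ideal.span (Set.range fun i : Unit => X () - C (c i)))
              (C (c ())) = algebraMap k _ (c ()) := AlgHom.commutes _ _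
          rw [map_sub, sub_eq_zero, h4] at h3
          rw [map_mul, map_mul, ha, h3]
      exact h2 p
    refine h1.trans ?_
    rw [ringKrullDim_eq_zero_of_field]
    exact_mod_cast Nat.zero_le n
  | @auto σ τ _ e f hf ih =>
    obtain ⟨h1, ⟨d, hd, h2⟩, h3⟩ := ih
    refine ⟨inferInstance, ⟨d, hd, semi_auto e h2⟩, fun c hc => ?_⟩
    have h4 := h3 c hc
    have h5 : Ideal.span (Set.range fun i : Unit => e f - C (c i)) =
        (Ideal.span (Set.range fun i : Unit => f - C (c i))).map
          (e : MvPolynomial σ k →+* MvPolynomial τ k) := by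
      rw [hone, hone, Ideal.map_span, Set.image_singleton]
      congr 2
      change _ = e (f - C (c ()))
      have h6 : e (C (c ())) = C (c ()) := e.commutes _
      rw [map_sub, h6]
    exact hQ.iso (Ideal.quotientEquivAlg _ _ e h5) h4
  | @gate r hr σ f hf h w e hw he h0 ih =>
    choose h1 h2 h3 using ih
    choose d hd h4 using h2
    have hfin : Finite (Σ i, σ i) := inferInstance
    refine ⟨hfin, ?_, fun c hc => ?_⟩
    · -- the degree
      have h5 := semi_gate (f := f) h4 hw
      refine ⟨(((∏ i, d i : ℕ) * e : ℤ)).natAbs, ?_, ?_⟩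
      · rw [Int.natAbs_pos]
        refine mul_ne_zero ?_ he
        exact_mod_cast (Finset.prod_pos fun i _ => hd i).ne'
      · rcases Int.natAbs_eq ((∏ i, d i : ℕ) * e : ℤ) with h6 | h6
        · rw [← h6]
          exact h5
        · have h7 := semi_zpow h5 (-1)
          rw [neg_one_mul] at h7
          have h8 : ((((∏ i, d i : ℕ) * e : ℤ).natAbs : ℕ) : ℤ) = -((∏ i, d i : ℕ) * e : ℤ) := by
            omega
          rw [h8]
          exact h7
    · -- the fibres
      have h5 : h - C (c ()) ≠ 0 := by
        intro h6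
        have h7 : h = C (c ()) := sub_eq_zero.mp h6
        rcases eq_or_ne (c ()) 0 with h8 | h8
        · rw [h8, C_0] at h7
          exact h0 h7
        · have h9 : coeff 0 h ≠ 0 := by
            rw [h7, coeff_zero_C]
            exact h8
          have h10 := hw h9
          rw [map_zero] at h10
          exact he h10.symm
      have h6 : ringKrullDim (MvPolynomial (Fin r) k ⧸ Ideal.span {h - C (c ())}) ≤ n := by
        rcases r with _ | r
        · -- no variables
          exfalso
          have h7 : h ≠ C (coeff 0 h) := by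
            intro h8
            have h9 : coeff 0 h ≠ 0 := by
              intro h10
              rw [h10, C_0] at h8
              exact h0 h8
            have h10 := hw h9
            rw [map_zero] at h10
            exact he h10.symm
          exact h7 (eq_C_of_isEmpty h)
        · have h7 : Ideal.span {h - C (c ())} ≠ ⊥ := by
            rw [Ne, Ideal.span_singleton_eq_bot]
            exact h5
          refine (dim_quot _ h7).trans ?_
          have h8 : r ≤ n := by omega
          exact_mod_cast h8
      have h7 := q_inverse hQ (fib_tup hQ σ h1 f h3) (multi_tup h4) hn hd {h - C (c ())} h6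
      have h8 : Ideal.span (Set.range fun i : Unit => aeval (tup f) h - C (c i)) =
          Ideal.span (aeval (tup f) '' {h - C (c ())}) := by
        rw [hone, Set.image_singleton, map_sub]
        congr 3
        exact ((aeval (tup f)).commutes (c ())).symm
      exact hQ.iso (Ideal.quotientEquivAlgOfEq k h8).symm h7

/-- **Systems of equations between read-once formulas.** -/
theorem readOnce_systems {r : ℕ} (σ : Fin r → Type) (f : ∀ i, MvPolynomial (σ i) k)
    (hf : ∀ i, ReadOnce k n (σ i) (f i)) (S : Set (MvPolynomial (Fin r) k))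
    (hS : ringKrullDim (MvPolynomial (Fin r) k ⧸ Ideal.span S) ≤ n) :
    Q (MvPolynomial (Σ i, σ i) k ⧸ Ideal.span (aeval (tup f) '' S)) := by
  have h := fun i => readOnce_good hQ hn (hf i)
  choose h1 h2 h3 using h
  choose d hd h4 using h2
  have hfin : Finite (Σ i, σ i) := inferInstance
  exact q_inverse hQ (fib_tup hQ σ h1 f h3) (multi_tup h4) hn hd S hS

end fam

end Pool.Agent.W5h68.SP
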