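import Pool.Agent.H79.L.W5h68_PJ_Cone
import Pool.Agent.H79.L.W5h68_SP_Fm2

/-!
# Slices of weighted cones
-/

set_option autoImplicit false

open MvPolynomial Pool.Agent.W5h68.SP Pool.Agent.Z125.UN

namespace Pool.Agent.W5h68.PJ

variable {k : Type} [Field k] {σ : Type}

/-- weighted homogeneous polynomials at multiples -/
lemma aeval_wt {w : σ → ℕ} {h : MvPolynomial σ k} {e : ℕ} (hw : IsWeightedHomogeneous w h e)
    {D : Type} [CommRing D] [Algebra k D] (t : D) (z : σ → D) :
    aeval (fun i => t ^ w i * z i) h = t ^ e * aeval z h := by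
  rw [aeval_def, aeval_def, eval₂_eq, eval₂_eq, Finset.mul_sum]
  refine Finset.sum_congr rfl fun s hs => ?_
  have h1 : ∑ i ∈ s.support, w i * s i = e := by
    have h2 := hw (mem_support_iff.mp hs)
    rw [Finsupp.weight_apply, Finsupp.sum] at h2
    rw [← h2]
    exact Finset.sum_congr rfl fun i _ => by rw [smul_eq_mul, mul_comm]
  have h3 : ∏ i ∈ s.support, (t ^ w i * z i) ^ s i = t ^ e * ∏ i ∈ s.support, z i ^ s i := by
    rw [Finset.prod_congr rfl fun i _ => mul_pow _ (z i) (s i), Finset.prod_mul_distrib]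
    congr 1
    rw [← h1, ← Finset.prod_pow_eq_pow_sum]
    exact Finset.prod_congr rfl fun i _ => by rw [pow_mul]
  rw [h3]
  ring

lemma slice_aux {S : Set (MvPolynomial σ k)} {w : σ → ℕ}
    (hS : ∀ g ∈ S, ∃ m, IsWeightedHomogeneous w g m)
    {g : MvPolynomial σ k} {e : ℕ} (hg : IsWeightedHomogeneous w g e)
    {D : Type} [CommRing D] [Algebra k D] (p : MvPolynomial σ k →ₐ[k] D)
    (hps : Function.Surjective p) (hp0 : ∀ h ∈ S, p h = 0) (hpg : p g = 1)
    (hlD : ∀ (B : Type) [CommRing B] [Algebra k B] (φ : MvPolynomial σ k →ₐ[k] B), φ g = 1 →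
      (∀ h ∈ S, φ h = 0) → ∃ ψ : D →ₐ[k] B, ∀ h, ψ (p h) = φ h)
    {K : Type} [CommRing K] [Algebra k K] (c : MvPolynomial σ k →ₐ[k] K) (s : Kˣ)
    (hs : (s : K) ^ e = c g) (hc0 : ∀ h ∈ S, c h = 0)
    (hlK : ∀ (B : Type) [CommRing B] [Algebra k B] (φ : MvPolynomial σ k →ₐ[k] B) (t : Bˣ),
      (t : B) ^ e = φ g → (∀ h ∈ S, φ h = 0) →
        ∃ ψ : K →ₐ[k] B, (∀ h, ψ (c h) = φ h) ∧ ψ s = t)
    (hxK : ∀ f₁ f₂ : K →ₐ[k] K, (∀ l, f₁ (c (X l)) = f₂ (c (X l))) → f₁ s = f₂ s → f₁ = f₂) :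
    Nonempty (K ≃ₐ[k] LaurentPolynomial D) := by
  -- the first homomorphism
  let y : σ → LaurentPolynomial D := fun l =>
    LaurentPolynomial.T 1 ^ w l * LaurentPolynomial.C (p (X l))
  have hy : ∀ {h : MvPolynomial σ k} {m : ℕ}, IsWeightedHomogeneous w h m →
      aeval y h = LaurentPolynomial.T 1 ^ m * LaurentPolynomial.C (p h) := by
    intro h m hh
    refine (aeval_wt hh _ _).trans ?_
    congr 1
    have h1 : (aeval fun l => (LaurentPolynomial.C (p (X l)) : LaurentPolynomial D)) =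
        (IsScalarTower.toAlgHom k D (LaurentPolynomial D)).comp p := by
      apply MvPolynomial.algHom_ext
      intro l
      rw [aeval_X]
      rfl
    rw [h1]
    rfl
  have hT : IsUnit (LaurentPolynomial.T 1 : LaurentPolynomial D) := LaurentPolynomial.isUnit_T _
  obtain ⟨F, hF1, hF2⟩ := hlK _ (aeval y) hT.unit (by
    rw [hy hg, hpg, map_one, mul_one]
    rfl) (fun h hh => by
    obtain ⟨m, hm⟩ := hS h hh
    rw [hy hm, hp0 h hh, map_zero, mul_zero])
  -- the second homomorphism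
  let z : σ → K := fun l => ((s⁻¹ : Kˣ) : K) ^ w l * c (X l)
  have hz : ∀ {h : MvPolynomial σ k} {m : ℕ}, IsWeightedHomogeneous w h m →
      aeval z h = ((s⁻¹ : Kˣ) : K) ^ m * c h := by
    intro h m hh
    refine (aeval_wt hh _ _).trans ?_
    congr 1
    have h1 : (aeval fun l => c (X l)) = c := by
      apply MvPolynomial.algHom_ext
      intro l
      rw [aeval_X]
    rw [h1]
  obtain ⟨G2, hG2⟩ := hlD _ (aeval z) (by
    rw [hz hg, ← hs, ← mul_pow, s.inv_mul, one_pow]) (fun h hh => by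
    obtain ⟨m, hm⟩ := hS h hh
    rw [hz hm, hc0 h hh, mul_zero])
  obtain ⟨G, hG3, hG4⟩ := lau_lift G2 s
  have hFs : F s = LaurentPolynomial.T 1 := hF2
  have hFx : ∀ l, F (c (X l)) = LaurentPolynomial.T 1 ^ w l * LaurentPolynomial.C (p (X l)) :=
    fun l => (hF1 _).trans (aeval_X _ _)
  have hFu : F ((s⁻¹ : Kˣ) : K) * LaurentPolynomial.T 1 = 1 := by
    rw [← hFs, ← map_mul, s.inv_mul, map_one]
  refine ⟨AlgEquiv.ofAlgHom F G ?_ ?_⟩
  · apply lau_ext
    · intro a
      obtain ⟨a, rfl⟩ := hps a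
      have h1 : (F.comp G2).comp p =
          (IsScalarTower.toAlgHom k D (LaurentPolynomial D)).comp p := by
        apply MvPolynomial.algHom_ext
        intro l
        change F (G2 (p (X l))) = LaurentPolynomial.C (p (X l))
        rw [hG2, aeval_X]
        change F (((s⁻¹ : Kˣ) : K) ^ w l * c (X l)) = _
        rw [map_mul, map_pow, hFx, ← mul_assoc, ← mul_pow, hFu, one_pow, one_mul]
      have h5 := congrArg (fun φ : MvPolynomial σ k →ₐ[k] LaurentPolynomial D => φ a) h1
      change F (G (LaurentPolynomial.C _)) = LaurentPolynomial.C _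
      rw [hG3]
      exact h5
    · change F (G (LaurentPolynomial.T 1)) = LaurentPolynomial.T 1
      rw [hG4]
      exact hFs
  · apply hxK
    · intro l
      change G (F (c (X l))) = c (X l)
      rw [hFx, map_mul, map_pow, hG3, hG4, hG2, aeval_X]
      change _ * (((s⁻¹ : Kˣ) : K) ^ w l * c (X l)) = _
      rw [← mul_assoc, ← mul_pow, s.mul_inv, one_pow, one_mul]
    · change G (F s) = s
      rw [hFs, hG4]

/-- **Slices.** For a weighted homogeneous polynomial `g` of degree `e` the covering `s ^ e = g` of the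
open part `g ≠ 0` of a weighted cone is the product of the slice `g = 1` with `𝔾_m`. -/
lemma slice {S : Set (MvPolynomial σ k)} {w : σ → ℕ} (hS : ∀ g ∈ S, ∃ m, IsWeightedHomogeneous w g m)
    {g : MvPolynomial σ k} {e : ℕ} (hg : IsWeightedHomogeneous w g e) (he : 0 < e)
    {D : Type} [CommRing D] [Algebra k D] (p : MvPolynomial σ k →ₐ[k] D)
    (hps : Function.Surjective p) (hp0 : ∀ h ∈ S, p h = 0) (hpg : p g = 1)
    (hlD : ∀ (B : Type) [CommRing B] [Algebra k B] (φ : MvPolynomial σ k →ₐ[k] B), φ g = 1 →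
      (∀ h ∈ S, φ h = 0) → ∃ ψ : D →ₐ[k] B, ∀ h, ψ (p h) = φ h) :
    Nonempty (Cyc (Localization.Away (Ideal.Quotient.mk (Ideal.span S) g)) e
      (algebraMap _ _ (Ideal.Quotient.mk (Ideal.span S) g)) ≃ₐ[k] LaurentPolynomial D) := by
  let g' : Cn S := Ideal.Quotient.mk (Ideal.span S) g
  let q : MvPolynomial σ k →ₐ[k] Cn S := Ideal.Quotient.mkₐ k _
  let j : Cn S →ₐ[k] Localization.Away g' := IsScalarTower.toAlgHom k _ _
  let c : Localization.Away g' →ₐ[k] Cyc (Localization.Away g') e (algebraMap _ _ g') :=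
    cycA e (algebraMap _ _ g')
  let s : Cyc (Localization.Away g') e (algebraMap _ _ g') := cycs e (algebraMap _ _ g')
  have hs : s ^ e = c (j g') := cyc_rel (k := k) _ _
  have hq0 : ∀ h ∈ S, q h = 0 := fun h hh =>
    Ideal.Quotient.eq_zero_iff_mem.mpr (Ideal.subset_span hh)
  have hu0 : IsUnit (j g') := IsLocalization.Away.algebraMap_isUnit g'
  have hu : IsUnit s := by
    have h1 : IsUnit (s ^ e) := by
      rw [hs]
      exact hu0.map c
    exact (isUnit_pow_iff he.ne').mp h1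
  obtain ⟨u, hu1⟩ := hu
  refine slice_aux hS hg p hps hp0 hpg hlD ((c.comp j).comp q) u (by rw [hu1]; exact hs)
    (fun h hh => ?_) (fun B _ _ φ t ht h0 => ?_) (fun f₁ f₂ h1 h2 => ?_)
  · change c (j (q h)) = 0
    rw [hq0 h hh, map_zero, map_zero]
  · obtain ⟨F0, hF0⟩ := quot_lift S φ h0
    obtain ⟨F1, hF1⟩ := away_lift g' F0 (by
      have h3 : F0 g' = φ g := hF0 g
      rw [h3, ← ht]
      exact t.isUnit.pow _)
    obtain ⟨F, hF2, hF3⟩ := cyc_lift (d := e) (u := algebraMap _ (Localization.Away g') g') F1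
      (t : B) (by
        rw [hF1, ht]
        exact (hF0 g).symm)
    refine ⟨F, fun h => ?_, ?_⟩
    · exact (hF2 _).trans ((hF1 _).trans (hF0 _))
    · rw [hu1]
      exact hF3
  · apply cyc_ext
    · have h6 : f₁.comp c = f₂.comp c := by
        apply IsLocalization.algHom_ext (Submonoid.powers g')
        apply Ideal.Quotient.algHom_ext
        apply MvPolynomial.algHom_ext
        exact h1
      intro a
      exact congrArg (fun φ : Localization.Away g' →ₐ[k] _ => φ a) h6
    · rw [hu1] at h2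
      exact h2

end Pool.Agent.W5h68.PJ
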