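import Mathlib

/-!
# The fibre products of polynomial maps
-/

set_option autoImplicit false

open MvPolynomial TensorProduct

namespace Pool.Agent.W5h68.SP

section ev

variable {k : Type} [Field k] {σ ι : Type} (f : ι → MvPolynomial σ k)

/-- the ideal of the fibre product -/
noncomputable abbrev EvI (B : Type) [CommRing B] [Algebra k B] (b : ι → B) : Ideal (MvPolynomial σ B) :=
  Ideal.span (Set.range fun i => MvPolynomial.map (algebraMap k B) (f i) - C (b i))

/-- The ring of functions on the scheme of the `(β, x)` with `f_i(x) = b_i(β)`, where `β` is a point of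
`Spec B` and `x` is a point of the affine space. -/
def Ev (B : Type) [CommRing B] [Algebra k B] (b : ι → B) : Type := MvPolynomial σ B ⧸ EvI f B b

variable {B : Type} [CommRing B] [Algebra k B] (b : ι → B)

noncomputable instance : CommRing (Ev f B b) := Ideal.Quotient.commRing (EvI f B b)

noncomputable instance : Algebra k (Ev f B b) := Ideal.Quotient.algebra k

instance [Finite σ] [Algebra.FiniteType k B] : Algebra.FiniteType k (Ev f B b) := by
  have : Algebra.FiniteType k (MvPolynomial σ B) :=
    Algebra.FiniteType.trans (S := B) inferInstance inferInstance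
  exact Algebra.FiniteType.of_surjective (Ideal.Quotient.mkₐ k (EvI f B b))
    (Ideal.Quotient.mkₐ_surjective k _)

/-- the class -/
noncomputable def evq : MvPolynomial σ B →ₐ[k] Ev f B b := Ideal.Quotient.mkₐ k (EvI f B b)

lemma evq_surj : Function.Surjective (evq f b) := Ideal.Quotient.mkₐ_surjective k (EvI f B b)

/-- the structure over `B` -/
noncomputable def evB : B →ₐ[k] Ev f B b :=
  (evq f b).comp (IsScalarTower.toAlgHom k B (MvPolynomial σ B))

/-- the coordinates -/
noncomputable def evx (v : σ) : Ev f B b := evq f b (X v)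

lemma evq_C (a : B) : evq f b (C a) = evB f b a := rfl

lemma evq_map (p : MvPolynomial σ k) :
    evq f b (MvPolynomial.map (algebraMap k B) p) = aeval (evx f b) p := by
  have h : (evq f b).comp (mapAlgHom (Algebra.ofId k B)) = aeval (evx f b) := by
    apply MvPolynomial.algHom_ext
    intro v
    rw [AlgHom.comp_apply, aeval_X]
    change evq f b (MvPolynomial.map _ (X v)) = _
    rw [map_X]
    rfl
  rw [← h]
  rfl

lemma ev_rel (i : ι) : aeval (evx f b) (f i) = evB f b (b i) := by
  have h : evq f b (MvPolynomial.map (algebraMap k B) (f i) - C (b i)) = 0 :=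
    Ideal.Quotient.eq_zero_iff_mem.mpr (Ideal.subset_span ⟨i, rfl⟩)
  rw [map_sub, evq_map, evq_C, sub_eq_zero] at h
  exact h

variable {f b} {D : Type} [CommRing D] [Algebra k D]

lemma aevalTower_map (φ : B →ₐ[k] D) (x : σ → D) (p : MvPolynomial σ k) :
    aevalTower φ x (MvPolynomial.map (algebraMap k B) p) = aeval x p := by
  have h : (aevalTower φ x).comp (mapAlgHom (Algebra.ofId k B)) = aeval x := by
    apply MvPolynomial.algHom_ext
    intro v
    rw [AlgHom.comp_apply, aeval_X]
    change aevalTower φ x (MvPolynomial.map _ (X v)) = _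
    rw [map_X, aevalTower_X]
  rw [← h]
  rfl

/-- homomorphisms from the fibre product -/
lemma ev_lift (φ : B →ₐ[k] D) (x : σ → D) (h : ∀ i, aeval x (f i) = φ (b i)) :
    ∃ F : Ev f B b →ₐ[k] D, (∀ a, F (evB f b a) = φ a) ∧ ∀ v, F (evx f b v) = x v := by
  refine ⟨Ideal.Quotient.liftₐ (EvI f B b) (aevalTower φ x) (by
    have h1 : EvI f B b ≤
        RingHom.ker (aevalTower φ x : MvPolynomial σ B →ₐ[k] D) := by
      rw [Ideal.span_le]
      rintro _ ⟨i, rfl⟩
      change aevalTower φ x (MvPolynomial.map (algebraMap k B) (f i) - C (b i)) = 0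
      rw [map_sub, aevalTower_map, aevalTower_C, h, sub_self]
    exact fun a ha => h1 ha), ?_, ?_⟩
  · intro a
    change aevalTower φ x (C a) = φ a
    rw [aevalTower_C]
  · intro v
    change aevalTower φ x (X v) = x v
    rw [aevalTower_X]

lemma ev_ext {g g' : Ev f B b →ₐ[k] D} (h1 : ∀ a, g (evB f b a) = g' (evB f b a))
    (h2 : ∀ v, g (evx f b v) = g' (evx f b v)) : g = g' := by
  apply AlgHom.ext
  intro y
  obtain ⟨p, rfl⟩ := evq_surj f b y
  have h3 : (g.comp (evq f b) : MvPolynomial σ B →+* D) = g'.comp (evq f b) := by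
    apply MvPolynomial.ringHom_ext
    · exact h1
    · exact h2
  exact congrArg (fun φ : MvPolynomial σ B →+* D => φ p) h3

lemma ev_aeval (F : Ev f B b →ₐ[k] D) (p : MvPolynomial σ k) :
    aeval (fun v => F (evx f b v)) p = F (aeval (evx f b) p) := by
  have h1 : aeval (fun v => F (evx f b v)) = F.comp (aeval (evx f b)) := by
    apply MvPolynomial.algHom_ext
    intro v
    rw [AlgHom.comp_apply, aeval_X, aeval_X]
  rw [h1]
  rfl

/-- isomorphisms from the universal property -/
lemma ev_iso (d : B →ₐ[k] D) (y : σ → D) (hrel : ∀ i, aeval y (f i) = d (b i))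
    (G : D →ₐ[k] Ev f B b) (hG1 : ∀ a, G (d a) = evB f b a) (hG2 : ∀ v, G (y v) = evx f b v)
    (hD : ∀ φ : D →ₐ[k] D, (∀ a, φ (d a) = d a) → (∀ v, φ (y v) = y v) → ∀ z, φ z = z) :
    Nonempty (Ev f B b ≃ₐ[k] D) := by
  obtain ⟨F, hF1, hF2⟩ := ev_lift d y hrel
  refine ⟨AlgEquiv.ofAlgHom F G ?_ ?_⟩
  · apply AlgHom.ext
    apply hD (F.comp G)
    · intro a
      rw [AlgHom.comp_apply, hG1, hF1]
    · intro v
      rw [AlgHom.comp_apply, hG2, hF2]
  · apply ev_ext
    · intro a
      rw [AlgHom.comp_apply, hF1, hG1]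
      rfl
    · intro v
      rw [AlgHom.comp_apply, hF2, hG2]
      rfl

end ev

section quot

variable {k : Type} [Field k] {σ ι : Type} {f : ι → MvPolynomial σ k}
  {B : Type} [CommRing B] [Algebra k B] {b : ι → B} (c : B)

/-- the fibre product over a principal closed subscheme -/
lemma ev_quot : Nonempty (Ev f (B ⧸ Ideal.span {c})
    (fun i => Ideal.Quotient.mk (Ideal.span {c}) (b i)) ≃ₐ[k] (Ev f B b ⧸ Ideal.span {evB f b c})) := by
  let q : B →ₐ[k] (B ⧸ Ideal.span {c}) := Ideal.Quotient.mkₐ k _
  have hqc : q c = 0 := Ideal.Quotient.eq_zero_iff_mem.mpr (Ideal.mem_span_singleton_self _)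
  have hqs : Function.Surjective q := Ideal.Quotient.mkₐ_surjective k _
  let π : Ev f B b →ₐ[k] (Ev f B b ⧸ Ideal.span {evB f b c}) := Ideal.Quotient.mkₐ k _
  have hπs : Function.Surjective π := Ideal.Quotient.mkₐ_surjective k _
  have hπc : π (evB f b c) = 0 :=
    Ideal.Quotient.eq_zero_iff_mem.mpr (Ideal.mem_span_singleton_self _)
  obtain ⟨d, hd⟩ : ∃ d : (B ⧸ Ideal.span {c}) →ₐ[k] (Ev f B b ⧸ Ideal.span {evB f b c}),
      ∀ a, d (q a) = π (evB f b a) :=
    ⟨Ideal.Quotient.liftₐ _ (π.comp (evB f b)) (by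
      have h1 : Ideal.span {c} ≤ RingHom.ker (π.comp (evB f b)) := by
        rw [Ideal.span_le, Set.singleton_subset_iff]
        exact hπc
      exact fun a ha => h1 ha), fun a => rfl⟩
  let b' : ι → (B ⧸ Ideal.span {c}) := fun i => q (b i)
  obtain ⟨G0, hG1, hG2⟩ := ev_lift (f := f) (b := b) ((evB f b').comp q) (evx f b')
    (ev_rel f b')
  obtain ⟨G, hG⟩ : ∃ G : (Ev f B b ⧸ Ideal.span {evB f b c}) →ₐ[k] Ev f _ b',
      ∀ a, G (π a) = G0 a :=
    ⟨Ideal.Quotient.liftₐ _ G0 (by
      have h1 : Ideal.span {evB f b c} ≤ RingHom.ker G0 := by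
        rw [Ideal.span_le, Set.singleton_subset_iff]
        change G0 (evB f b c) = 0
        rw [hG1, AlgHom.comp_apply, hqc, map_zero]
      exact fun a ha => h1 ha), fun a => rfl⟩
  refine ev_iso (b := b') d (fun v => π (evx f b v)) ?_ G ?_ ?_ ?_
  · intro i
    rw [ev_aeval π, ev_rel]
    exact (hd (b i)).symm
  · intro a
    obtain ⟨a, rfl⟩ := hqs a
    rw [hd, hG, hG1]
    rfl
  · intro v
    rw [hG, hG2]
  · intro φ h1 h2 z
    obtain ⟨z, rfl⟩ := hπs z
    have h3 : φ.comp π = π := by
      apply ev_ext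
      · intro a
        rw [AlgHom.comp_apply, ← hd, h1]
      · exact h2
    exact congrArg (fun ψ : Ev f B b →ₐ[k] _ => ψ z) h3

/-- the fibre product over a principal open subscheme -/
lemma ev_away : Nonempty (Ev f (Localization.Away c)
    (fun i => algebraMap B (Localization.Away c) (b i)) ≃ₐ[k] Localization.Away (evB f b c)) := by
  let q : B →ₐ[k] Localization.Away c := IsScalarTower.toAlgHom k B (Localization.Away c)
  have hqc : IsUnit (q c) := IsLocalization.Away.algebraMap_isUnit c
  let π : Ev f B b →ₐ[k] Localization.Away (evB f b c) :=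
    IsScalarTower.toAlgHom k _ (Localization.Away (evB f b c))
  have hπc : IsUnit (π (evB f b c)) := IsLocalization.Away.algebraMap_isUnit _
  obtain ⟨d, hd⟩ : ∃ d : Localization.Away c →ₐ[k] Localization.Away (evB f b c),
      ∀ a, d (q a) = π (evB f b a) :=
    ⟨IsLocalization.liftAlgHom (M := Submonoid.powers c) (f := π.comp (evB f b)) (by
      rintro ⟨_, n, rfl⟩
      change IsUnit (π (evB f b (c ^ n)))
      rw [map_pow, map_pow]
      exact hπc.pow n), fun a => by
        change IsLocalization.liftAlgHom _ (algebraMap _ _ a) = _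
        rw [IsLocalization.liftAlgHom_apply, IsLocalization.lift_eq]
        rfl⟩
  let b' : ι → Localization.Away c := fun i => q (b i)
  obtain ⟨G0, hG1, hG2⟩ := ev_lift (f := f) (b := b) ((evB f b').comp q) (evx f b')
    (ev_rel f b')
  obtain ⟨G, hG⟩ : ∃ G : Localization.Away (evB f b c) →ₐ[k] Ev f _ b', ∀ a, G (π a) = G0 a :=
    ⟨IsLocalization.liftAlgHom (M := Submonoid.powers (evB f b c)) (f := G0) (by
      rintro ⟨_, n, rfl⟩
      change IsUnit (G0 (evB f b c ^ n))
      rw [map_pow, hG1]
      exact (hqc.map (evB f b')).pow n), fun a => by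
        change IsLocalization.liftAlgHom _ (algebraMap _ _ a) = _
        rw [IsLocalization.liftAlgHom_apply, IsLocalization.lift_eq]
        rfl⟩
  refine ev_iso (b := b') d (fun v => π (evx f b v)) ?_ G ?_ ?_ ?_
  · intro i
    rw [ev_aeval π, ev_rel]
    exact (hd (b i)).symm
  · have h3 : (G.comp d) = evB f b' := by
      apply IsLocalization.algHom_ext (Submonoid.powers c)
      apply AlgHom.ext
      intro a
      change G (d (q a)) = evB f b' (q a)
      rw [hd, hG, hG1]
      rfl
    intro a
    exact congrArg (fun φ : Localization.Away c →ₐ[k] Ev f _ b' => φ a) h3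
  · intro v
    rw [hG, hG2]
  · intro φ h1 h2 z
    have h3 : φ = AlgHom.id k _ := by
      apply IsLocalization.algHom_ext (Submonoid.powers (evB f b c))
      apply ev_ext
      · intro a
        change φ (π (evB f b a)) = π (evB f b a)
        rw [← hd, h1]
      · exact h2
    rw [h3]
    rfl

end quot

end Pool.Agent.W5h68.SP
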