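import Pool.Agent.H89.L.Y116_UV_Defs

/-!
# Read-once formulas: definitions
-/

set_option autoImplicit false

open CategoryTheory AlgebraicGeometry MvPolynomial Pool.Agent.Y116.UV

namespace Pool.Agent.W5h68.SP

/-- The polynomials given by read-once formulas with quasi-homogeneous gates in at most `n + 1`
variables: the smallest class of polynomials (in finite sets of variables `σ`) which

* contains the polynomial `x` in one variable `x`,
* is closed under automorphisms of the polynomial rings and changes of the names of the variables (for
  example linear changes of the variables), and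
* contains with the polynomials `f_1, …, f_r` in disjoint sets of variables, `r ≤ n + 1`, also the
  polynomial `h(f_1, …, f_r)`, if `h` is a nonzero polynomial in `r` variables which is homogeneous of
  degree `e ≠ 0` for some integral weights `w_1, …, w_r` of the variables. -/
inductive ReadOnce (k : Type) [Field k] (n : ℕ) : (σ : Type) → MvPolynomial σ k → Prop
  | var : ReadOnce k n Unit (X ())
  | auto {σ τ : Type} [Finite τ] (e : MvPolynomial σ k ≃ₐ[k] MvPolynomial τ k)
      (f : MvPolynomial σ k) (hf : ReadOnce k n σ f) : ReadOnce k n τ (e f)
  | gate {r : ℕ} (hr : r ≤ n + 1) (σ : Fin r → Type) (f : ∀ i, MvPolynomial (σ i) k)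
      (hf : ∀ i, ReadOnce k n (σ i) (f i)) (h : MvPolynomial (Fin r) k) (w : Fin r → ℤ) (e : ℤ)
      (hw : IsWeightedHomogeneous w h e) (he : e ≠ 0) (h0 : h ≠ 0) :
      ReadOnce k n (Σ i, σ i) (aeval (fun i => rename (Sigma.mk i) (f i)) h)

/-- `P` is true for the closed subschemes `h(f_1, …, f_r) = 0`, `h ∈ S`, of affine spaces, where
`f_1, …, f_r` are polynomials in disjoint sets of variables given by read-once formulas with
quasi-homogeneous gates in at most `n + 1` variables, and `S` is a set of polynomials in `r` variables such
that the scheme `S = 0` has dimension at most `n`. -/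
def ReadOnceSystems (k : Type) [Field k] (n : ℕ) (P : Sch k → Prop) : Prop :=
  ∀ (r : ℕ) (σ : Fin r → Type) (f : ∀ i, MvPolynomial (σ i) k), (∀ i, ReadOnce k n (σ i) (f i)) →
    ∀ S : Set (MvPolynomial (Fin r) k), ringKrullDim (MvPolynomial (Fin r) k ⧸ Ideal.span S) ≤ n →
    P (aff k (MvPolynomial (Σ i, σ i) k ⧸
      Ideal.span ((aeval fun i => rename (Sigma.mk i) (f i)) '' S)))

end Pool.Agent.W5h68.SP
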