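import Pool.Agent.H79.L.W5h68_SP_Gt

/-!
# Closure properties and products with a fixed scheme
-/

set_option autoImplicit false

open TensorProduct

namespace Pool.Agent.W5h68.SP

section iso

variable {k : Type} [Field k] {A B : Type} [CommRing A] [Algebra k A] [CommRing B] [Algebra k B]

/-- homomorphisms from a tensor product that agree on the factors -/
lemma ten_ext {D : Type} [CommRing D] [Algebra k D] {f g : A ⊗[k] B →ₐ[k] D}
    (h1 : ∀ a, f (a ⊗ₜ 1) = g (a ⊗ₜ 1)) (h2 : ∀ b, f (1 ⊗ₜ b) = g (1 ⊗ₜ b)) : f = g := by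
  apply Algebra.TensorProduct.ext
  · exact AlgHom.ext h1
  · exact AlgHom.ext h2

lemma ten_lift {D : Type} [CommRing D] [Algebra k D] (f : A →ₐ[k] D) (g : B →ₐ[k] D) :
    ∃ F : A ⊗[k] B →ₐ[k] D, (∀ a, F (a ⊗ₜ 1) = f a) ∧ ∀ b, F (1 ⊗ₜ b) = g b := by
  refine ⟨Algebra.TensorProduct.lift f g (fun _ _ => Commute.all _ _), fun a => ?_, fun b => ?_⟩
  · rw [Algebra.TensorProduct.lift_tmul, map_one, mul_one]
  · rw [Algebra.TensorProduct.lift_tmul, map_one, one_mul]

variable (k B) in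
/-- the first factor -/
noncomputable def inl' : A →ₐ[k] A ⊗[k] B := Algebra.TensorProduct.includeLeft

variable (k A) in
/-- the second factor -/
noncomputable def inr' : B →ₐ[k] A ⊗[k] B := Algebra.TensorProduct.includeRight

/-- the product with a closed subscheme -/
lemma ten_quot (f : A) : Nonempty (((A ⧸ Ideal.span {f}) ⊗[k] B) ≃ₐ[k]
    ((A ⊗[k] B) ⧸ Ideal.span {(inl' k B f : A ⊗[k] B)})) := by
  let q : A →ₐ[k] (A ⧸ Ideal.span {f}) := Ideal.Quotient.mkₐ k _
  have hqs : Function.Surjective q := Ideal.Quotient.mkₐ_surjective k _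
  have hqf : q f = 0 := Ideal.Quotient.eq_zero_iff_mem.mpr (Ideal.mem_span_singleton_self _)
  let π : A ⊗[k] B →ₐ[k] ((A ⊗[k] B) ⧸ Ideal.span {(inl' k B f : A ⊗[k] B)}) :=
    Ideal.Quotient.mkₐ k _
  have hπf : π (inl' k B f) = 0 :=
    Ideal.Quotient.eq_zero_iff_mem.mpr (Ideal.mem_span_singleton_self _)
  obtain ⟨d, hd⟩ : ∃ d : (A ⧸ Ideal.span {f}) →ₐ[k]
      ((A ⊗[k] B) ⧸ Ideal.span {(inl' k B f : A ⊗[k] B)}), ∀ a, d (q a) = π (inl' k B a) :=
    ⟨Ideal.Quotient.liftₐ _ (π.comp (inl' k B)) (by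
      have h1 : Ideal.span {f} ≤ RingHom.ker (π.comp (inl' k B)) := by
        rw [Ideal.span_le, Set.singleton_subset_iff]
        exact hπf
      exact fun a ha => h1 ha), fun a => rfl⟩
  obtain ⟨F, hF1, hF2⟩ := ten_lift d (π.comp (inr' k A))
  obtain ⟨G0, hG1, hG2⟩ := ten_lift ((inl' k B).comp q) (inr' k (A ⧸ Ideal.span {f}) (B := B))
  obtain ⟨G, hG⟩ : ∃ G : ((A ⊗[k] B) ⧸ Ideal.span {(inl' k B f : A ⊗[k] B)}) →ₐ[k]
      ((A ⧸ Ideal.span {f}) ⊗[k] B), ∀ a, G (π a) = G0 a :=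
    ⟨Ideal.Quotient.liftₐ _ G0 (by
      have h1 : Ideal.span {(inl' k B f : A ⊗[k] B)} ≤ RingHom.ker G0 := by
        rw [Ideal.span_le, Set.singleton_subset_iff]
        change G0 (f ⊗ₜ 1) = 0
        rw [hG1, AlgHom.comp_apply, hqf, map_zero]
      exact fun a ha => h1 ha), fun a => rfl⟩
  refine ⟨AlgEquiv.ofAlgHom F G ?_ ?_⟩
  · apply Ideal.Quotient.algHom_ext
    apply ten_ext
    · intro a
      change F (G (π (a ⊗ₜ 1))) = π (a ⊗ₜ 1)
      rw [hG, hG1]
      change F ((q a) ⊗ₜ 1) = _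
      rw [hF1, hd]
      rfl
    · intro b
      change F (G (π (1 ⊗ₜ b))) = π (1 ⊗ₜ b)
      rw [hG, hG2]
      change F (1 ⊗ₜ b) = _
      rw [hF2]
      rfl
  · apply ten_ext
    · intro a
      obtain ⟨a, rfl⟩ := hqs a
      rw [AlgHom.comp_apply, hF1, hd, hG]
      change G0 (a ⊗ₜ 1) = _
      rw [hG1]
      rfl
    · intro b
      rw [AlgHom.comp_apply, hF2]
      change G (π (1 ⊗ₜ b)) = _
      rw [hG, hG2]
      rfl

/-- the product with an open subscheme -/
lemma ten_away (f : A) : Nonempty (((Localization.Away f) ⊗[k] B) ≃ₐ[k]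
    Localization.Away (inl' k B f : A ⊗[k] B)) := by
  let q : A →ₐ[k] Localization.Away f := IsScalarTower.toAlgHom k A _
  have hqf : IsUnit (q f) := IsLocalization.Away.algebraMap_isUnit f
  let π : A ⊗[k] B →ₐ[k] Localization.Away (inl' k B f : A ⊗[k] B) :=
    IsScalarTower.toAlgHom k _ _
  have hπf : IsUnit (π (inl' k B f)) := IsLocalization.Away.algebraMap_isUnit _
  obtain ⟨d, hd⟩ : ∃ d : Localization.Away f →ₐ[k]
      Localization.Away (inl' k B f : A ⊗[k] B), ∀ a, d (q a) = π (inl' k B a) :=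
    ⟨IsLocalization.liftAlgHom (M := Submonoid.powers f) (f := π.comp (inl' k B)) (by
      rintro ⟨_, n, rfl⟩
      change IsUnit (π (inl' k B (f ^ n)))
      rw [map_pow, map_pow]
      exact hπf.pow n), fun a => by
        change IsLocalization.liftAlgHom _ (algebraMap _ _ a) = _
        rw [IsLocalization.liftAlgHom_apply, IsLocalization.lift_eq]
        rfl⟩
  obtain ⟨F, hF1, hF2⟩ := ten_lift d (π.comp (inr' k A))
  obtain ⟨G0, hG1, hG2⟩ := ten_lift ((inl' k B).comp q) (inr' k (Localization.Away f) (B := B))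
  obtain ⟨G, hG⟩ : ∃ G : Localization.Away (inl' k B f : A ⊗[k] B) →ₐ[k]
      ((Localization.Away f) ⊗[k] B), ∀ a, G (π a) = G0 a :=
    ⟨IsLocalization.liftAlgHom (M := Submonoid.powers (inl' k B f : A ⊗[k] B)) (f := G0) (by
      rintro ⟨_, n, rfl⟩
      change IsUnit (G0 ((f ⊗ₜ 1) ^ n))
      rw [map_pow, hG1]
      exact (hqf.map (inl' k B)).pow n), fun a => by
        change IsLocalization.liftAlgHom _ (algebraMap _ _ a) = _
        rw [IsLocalization.liftAlgHom_apply, IsLocalization.lift_eq]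
        rfl⟩
  refine ⟨AlgEquiv.ofAlgHom F G ?_ ?_⟩
  · apply IsLocalization.algHom_ext (Submonoid.powers (inl' k B f : A ⊗[k] B))
    apply ten_ext
    · intro a
      change F (G (π (a ⊗ₜ 1))) = π (a ⊗ₜ 1)
      rw [hG, hG1]
      change F ((q a) ⊗ₜ 1) = _
      rw [hF1, hd]
      rfl
    · intro b
      change F (G (π (1 ⊗ₜ b))) = π (1 ⊗ₜ b)
      rw [hG, hG2]
      change F (1 ⊗ₜ b) = _
      rw [hF2]
      rfl
  · apply ten_ext
    · have h : (G.comp F).comp (inl' k B) = inl' k B := by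
        apply IsLocalization.algHom_ext (Submonoid.powers f)
        apply AlgHom.ext
        intro a
        change G (F ((q a) ⊗ₜ 1)) = (q a) ⊗ₜ 1
        rw [hF1, hd, hG]
        change G0 (a ⊗ₜ 1) = _
        rw [hG1]
        rfl
      intro a
      exact congrArg (fun φ : Localization.Away f →ₐ[k] _ => φ a) h
    · intro b
      rw [AlgHom.comp_apply, hF2]
      change G (π (1 ⊗ₜ b)) = _
      rw [hG, hG2]
      rfl

lemma ten_cyc_aux {C : Type} [CommRing C] [Algebra k C] (d : ℕ) (u : A) (q : A →ₐ[k] C) (s : C)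
    (hs : s ^ d = q u)
    (hl : ∀ (D : Type) [CommRing D] [Algebra k D] (φ : A →ₐ[k] D) (t : D), t ^ d = φ u →
      ∃ F : C →ₐ[k] D, (∀ a, F (q a) = φ a) ∧ F s = t)
    (hx : ∀ (D : Type) [CommRing D] [Algebra k D] (f g : C →ₐ[k] D),
      (∀ a, f (q a) = g (q a)) → f s = g s → f = g) :
    Nonempty ((C ⊗[k] B) ≃ₐ[k] Cyc (A ⊗[k] B) d (inl' k B u)) := by
  let u' : A ⊗[k] B := inl' k B u
  let π : A ⊗[k] B →ₐ[k] Cyc (A ⊗[k] B) d u' := cycA d u'
  obtain ⟨e, he1, he2⟩ := hl (Cyc (A ⊗[k] B) d u') (π.comp (inl' k B)) (cycs d u')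
    (cyc_rel (k := k) d u')
  obtain ⟨F, hF1, hF2⟩ := ten_lift e (π.comp (inr' k A))
  obtain ⟨G0, hG1, hG2⟩ := ten_lift ((inl' k B).comp q) (inr' k C (B := B))
  obtain ⟨G, hG3, hG4⟩ := cyc_lift (d := d) (u := u') G0 (inl' k B s) (by
    rw [← map_pow, hs]
    change _ = G0 (u ⊗ₜ 1)
    rw [hG1]
    rfl)
  refine ⟨AlgEquiv.ofAlgHom F G ?_ ?_⟩
  · apply cyc_ext
    · have h : (F.comp G).comp π = π := by
        apply ten_ext
        · intro a
          change F (G (π (a ⊗ₜ 1))) = π (a ⊗ₜ 1)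
          rw [hG3, hG1]
          change F ((q a) ⊗ₜ 1) = _
          rw [hF1]
          exact he1 a
        · intro b
          change F (G (π (1 ⊗ₜ b))) = π (1 ⊗ₜ b)
          rw [hG3, hG2]
          change F (1 ⊗ₜ b) = _
          rw [hF2]
          rfl
      intro a
      exact congrArg (fun φ : A ⊗[k] B →ₐ[k] _ => φ a) h
    · rw [AlgHom.comp_apply, hG4]
      change F (s ⊗ₜ 1) = _
      rw [hF1, he2]
      rfl
  · apply ten_ext
    · have h : (G.comp F).comp (inl' k B) = inl' k B := by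
        apply hx
        · intro a
          change G (F ((q a) ⊗ₜ 1)) = (q a) ⊗ₜ 1
          rw [hF1]
          have h1 : e (q a) = π (inl' k B a) := he1 a
          rw [h1, hG3]
          change G0 (a ⊗ₜ 1) = _
          rw [hG1]
          rfl
        · change G (F (s ⊗ₜ 1)) = _
          rw [hF1, he2, hG4]
      intro a
      exact congrArg (fun φ : C →ₐ[k] _ => φ a) h
    · intro b
      rw [AlgHom.comp_apply, hF2]
      change G (π (1 ⊗ₜ b)) = _
      rw [hG3, hG2]
      rfl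

/-- the product with a cyclic covering -/
lemma ten_cyc (d : ℕ) (u : A) : Nonempty ((Cyc A d u ⊗[k] B) ≃ₐ[k]
    Cyc (A ⊗[k] B) d (inl' k B u)) :=
  ten_cyc_aux d u (cycA d u) (cycs d u) (cyc_rel (k := k) d u)
    (fun D _ _ φ t h => cyc_lift φ t h) (fun D _ _ f g h1 h2 => cyc_ext h1 h2)

lemma poly_lift {D : Type} [CommRing D] [Algebra k D] (φ : A →ₐ[k] D) (s : D) :
    ∃ F : Polynomial A →ₐ[k] D, (∀ a, F (Polynomial.C a) = φ a) ∧ F Polynomial.X = s := by
  refine ⟨{ Polynomial.eval₂RingHom (φ : A →+* D) s with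
    commutes' := fun r => by
      change Polynomial.eval₂ (φ : A →+* D) s (Polynomial.C (algebraMap k A r)) = _
      rw [Polynomial.eval₂_C]
      exact φ.commutes r }, fun a => ?_, ?_⟩
  · exact Polynomial.eval₂_C _ _
  · exact Polynomial.eval₂_X _ _

lemma poly_ext {D : Type} [CommRing D] [Algebra k D] {f g : Polynomial A →ₐ[k] D}
    (h1 : ∀ a, f (Polynomial.C a) = g (Polynomial.C a)) (h2 : f Polynomial.X = g Polynomial.X) :
    f = g := by
  apply AlgHom.coe_ringHom_injective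
  apply Polynomial.ringHom_ext
  · exact h1
  · exact h2

/-- the product with an affine line -/
lemma ten_poly : Nonempty ((Polynomial A ⊗[k] B) ≃ₐ[k] Polynomial (A ⊗[k] B)) := by
  let q : A →ₐ[k] Polynomial A := IsScalarTower.toAlgHom k A _
  let π : A ⊗[k] B →ₐ[k] Polynomial (A ⊗[k] B) := IsScalarTower.toAlgHom k _ _
  obtain ⟨e, he1, he2⟩ := poly_lift (π.comp (inl' k B)) (Polynomial.X : Polynomial (A ⊗[k] B))
  obtain ⟨F, hF1, hF2⟩ := ten_lift e (π.comp (inr' k A))
  obtain ⟨G0, hG1, hG2⟩ := ten_lift ((inl' k B).comp q) (inr' k (Polynomial A) (B := B))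
  obtain ⟨G, hG3, hG4⟩ := poly_lift G0 (inl' k B (Polynomial.X : Polynomial A))
  refine ⟨AlgEquiv.ofAlgHom F G ?_ ?_⟩
  · apply poly_ext
    · have h : (F.comp G).comp π = π := by
        apply ten_ext
        · intro a
          have h1 : G (π (a ⊗ₜ 1)) = G0 (a ⊗ₜ 1) := hG3 _
          change F (G (π (a ⊗ₜ 1))) = π (a ⊗ₜ 1)
          rw [h1, hG1]
          change F ((Polynomial.C a) ⊗ₜ 1) = _
          rw [hF1, he1]
          rfl
        · intro b
          have h1 : G (π (1 ⊗ₜ b)) = G0 (1 ⊗ₜ b) := hG3 _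
          change F (G (π (1 ⊗ₜ b))) = π (1 ⊗ₜ b)
          rw [h1, hG2]
          change F (1 ⊗ₜ b) = _
          rw [hF2]
          rfl
      intro a
      exact congrArg (fun φ : A ⊗[k] B →ₐ[k] _ => φ a) h
    · rw [AlgHom.comp_apply, hG4]
      change F ((Polynomial.X : Polynomial A) ⊗ₜ 1) = _
      rw [hF1, he2]
      rfl
  · apply ten_ext
    · have h : (G.comp F).comp (inl' k B) = inl' k B := by
        apply poly_ext
        · intro a
          change G (F ((Polynomial.C a) ⊗ₜ 1)) = (Polynomial.C a) ⊗ₜ 1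
          rw [hF1, he1]
          have h1 : G ((π.comp (inl' k B)) a) = G0 (a ⊗ₜ 1) := hG3 _
          rw [h1, hG1]
          rfl
        · change G (F ((Polynomial.X : Polynomial A) ⊗ₜ 1)) = _
          rw [hF1, he2, hG4]
      intro a
      exact congrArg (fun φ : Polynomial A →ₐ[k] _ => φ a) h
    · intro b
      rw [AlgHom.comp_apply, hF2]
      have h1 : G ((π.comp (inr' k A)) b) = G0 (1 ⊗ₜ b) := hG3 _
      rw [h1, hG2]
      rfl

instance ten_ft [Algebra.FiniteType k A] [Algebra.FiniteType k B] :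
    Algebra.FiniteType k (A ⊗[k] B) :=
  Algebra.FiniteType.trans (S := A) inferInstance inferInstance

end iso

end Pool.Agent.W5h68.SP
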