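import Mathlib

/-!
# Generalised eigenvectors
-/

open Module

namespace Pool.Agent.Y136.UB

variable {F : Type*} [Field F] {V : Type*} [AddCommGroup V] [Module F V]

lemma mem_gen {f : End F V} {c : F} {x : V} :
    x ∈ f.maxGenEigenspace c ↔ ∃ N : ℕ, ((f - algebraMap F _ c) ^ N) x = 0 := by
  rw [End.mem_maxGenEigenspace, Algebra.algebraMap_eq_smul_one]

lemma gen_pow {f : End F V} {c : F} {x : V} (hx : x ∈ f.maxGenEigenspace c) (A : ℕ) :
    x ∈ (f ^ A).maxGenEigenspace (c ^ A) := by
  rw [mem_gen] at hx ⊢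
  obtain ⟨N, hN⟩ := hx
  refine ⟨N, ?_⟩
  obtain ⟨Q, hQ⟩ := sub_dvd_pow_sub_pow (Polynomial.X : Polynomial F) (Polynomial.C c) A
  have h1 : f ^ A - algebraMap F _ (c ^ A) =
      Polynomial.aeval f (Q * (Polynomial.X - Polynomial.C c)) := by
    rw [mul_comm, ← hQ, map_sub, map_pow (Polynomial.aeval f), Polynomial.aeval_X,
      map_pow (Polynomial.aeval f), Polynomial.aeval_C, map_pow]
  have h2 : f - algebraMap F _ c = Polynomial.aeval f (Polynomial.X - Polynomial.C c) := by
    rw [map_sub, Polynomial.aeval_X, Polynomial.aeval_C]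
  rw [h1, ← map_pow, mul_pow, map_mul, End.mul_apply, map_pow (Polynomial.aeval f) (_ - _), ← h2,
    hN, map_zero]

/-- Linear maps which intertwine two operators map generalised eigenvectors to generalised
eigenvectors. -/
lemma gen_map {V' : Type*} [AddCommGroup V'] [Module F V'] {f : End F V} {g : End F V'}
    (φ : V →ₗ[F] V') (h : ∀ x, g (φ x) = φ (f x)) {c : F} {x : V}
    (hx : x ∈ f.maxGenEigenspace c) : φ x ∈ g.maxGenEigenspace c := by
  rw [mem_gen] at hx ⊢
  obtain ⟨N, hN⟩ := hx
  refine ⟨N, ?_⟩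
  have key : ∀ (N : ℕ) (x : V), ((g - algebraMap F _ c) ^ N) (φ x) =
      φ (((f - algebraMap F _ c) ^ N) x) := by
    intro N
    induction N with
    | zero => intro x; rfl
    | succ N ih =>
      intro x
      rw [pow_succ, End.mul_apply, pow_succ, End.mul_apply, ← ih]
      congr 1
      rw [LinearMap.sub_apply, LinearMap.sub_apply, h, map_sub, Module.algebraMap_end_apply,
        Module.algebraMap_end_apply, map_smul]
  rw [key, hN, map_zero]

/-- The sum of two commuting operators which are nilpotent at a vector is nilpotent at it. -/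
lemma add_pow_apply {A B : End F V} (hc : Commute A B) {z : V} {m n : ℕ} (hA : (A ^ m) z = 0)
    (hB : (B ^ n) z = 0) : ((A + B) ^ (m + n)) z = 0 := by
  rw [hc.add_pow, LinearMap.sum_apply]
  refine Finset.sum_eq_zero fun i _ => ?_
  rw [← nsmul_eq_mul', LinearMap.smul_apply]
  by_cases hi : m ≤ i
  · have h2 : (A ^ i * B ^ (m + n - i)) z = 0 := by
      rw [(hc.pow_pow i (m + n - i)).eq, End.mul_apply, show i = (i - m) + m by omega, pow_add A,
        End.mul_apply, hA, map_zero, map_zero]
    rw [h2, smul_zero]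
  · have h2 : (A ^ i * B ^ (m + n - i)) z = 0 := by
      rw [End.mul_apply, show m + n - i = (m - i) + n by omega, pow_add, End.mul_apply, hB,
        map_zero, map_zero]
    rw [h2, smul_zero]

/-- Tensor products of generalised eigenvectors. -/
lemma gen_tmul {V' : Type*} [AddCommGroup V'] [Module F V'] {f : End F V} {g : End F V'}
    {c d : F} {x : V} {y : V'} (hx : x ∈ f.maxGenEigenspace c) (hy : y ∈ g.maxGenEigenspace d) :
    x ⊗ₜ[F] y ∈ Module.End.maxGenEigenspace (TensorProduct.map f g) (c * d) := by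
  rw [mem_gen] at hx hy
  obtain ⟨m, hm⟩ := hx
  obtain ⟨n, hn⟩ := hy
  let P : End F (TensorProduct F V V') := TensorProduct.map (f - algebraMap F _ c) g
  let Q : End F (TensorProduct F V V') := c • TensorProduct.map 1 (g - algebraMap F _ d)
  have hfc : Commute (f - algebraMap F (End F V) c) 1 := Commute.one_right _
  have hfd : Commute g (g - algebraMap F (End F V') d) :=
    Commute.sub_right (Commute.refl g) (Algebra.commutes d g).symm
  have hPQ : Commute P Q := by
    refine Commute.smul_right ?_ c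
    show TensorProduct.map _ _ * TensorProduct.map _ _ = TensorProduct.map _ _ *
      TensorProduct.map _ _
    rw [← TensorProduct.map_mul, ← TensorProduct.map_mul, hfc.eq, hfd.eq]
  have hP : ∀ m : ℕ, (P ^ m) (x ⊗ₜ y) =
      (((f - algebraMap F _ c) ^ m) x) ⊗ₜ[F] ((g ^ m) y) := by
    intro m
    rw [show P ^ m = TensorProduct.map ((f - algebraMap F _ c) ^ m) (g ^ m) from
      TensorProduct.map_pow _ _ m, TensorProduct.map_tmul]
  have hQ : ∀ n : ℕ, (Q ^ n) (x ⊗ₜ y) =
      c ^ n • (x ⊗ₜ[F] (((g - algebraMap F _ d) ^ n) y)) := by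
    intro n
    rw [show Q ^ n = c ^ n • TensorProduct.map 1 ((g - algebraMap F _ d) ^ n) by
      rw [smul_pow, TensorProduct.map_pow, one_pow], LinearMap.smul_apply,
      TensorProduct.map_tmul, End.one_apply]
  have h1 := add_pow_apply hPQ (z := x ⊗ₜ[F] y) (m := m) (n := n)
    (by rw [hP, hm, TensorProduct.zero_tmul]) (by rw [hQ, hn, TensorProduct.tmul_zero, smul_zero])
  have h2 : P + Q = TensorProduct.map f g - algebraMap F _ (c * d) := by
    refine TensorProduct.ext' fun a b => ?_
    simp only [P, Q, LinearMap.add_apply, LinearMap.sub_apply, LinearMap.smul_apply,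
      TensorProduct.map_tmul, Module.algebraMap_end_apply, End.one_apply,
      TensorProduct.sub_tmul, TensorProduct.tmul_sub, smul_sub, TensorProduct.smul_tmul',
      TensorProduct.tmul_smul, smul_smul]
    abel
  rw [mem_gen]
  exact ⟨m + n, by rw [← h2]; exact h1⟩

/-- Products of generalised eigenvectors of a multiplicative operator. -/
lemma gen_mul {A : Type*} [Ring A] [Algebra F A] {f : End F A}
    (hf : ∀ x y, f (x * y) = f x * f y) {c d : F} {x y : A} (hx : x ∈ f.maxGenEigenspace c)
    (hy : y ∈ f.maxGenEigenspace d) : x * y ∈ f.maxGenEigenspace (c * d) := by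
  have h4 := gen_map (LinearMap.mul' F A) (g := f) (fun z => by
    induction z using TensorProduct.induction_on with
    | zero => simp
    | tmul a b => rw [TensorProduct.map_tmul, LinearMap.mul'_apply, LinearMap.mul'_apply, hf]
    | add a b ha hb => simp only [map_add, ha, hb]) (gen_tmul hx hy)
  rwa [LinearMap.mul'_apply] at h4

/-- Elements of a member of an independent family of subspaces, and spanning sets adapted to the
family. -/
lemma mem_span_inter {ι : Type*} {U : ι → Submodule F V} (hU : iSupIndep U) {S : Set V}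
    (hS : ∀ y ∈ S, ∃ t, y ∈ U t) {t₀ : ι} {x : V} (hx : x ∈ Submodule.span F S)
    (hx0 : x ∈ U t₀) : x ∈ Submodule.span F (S ∩ U t₀) := by
  have h1 : Submodule.span F S ≤ Submodule.span F (S ∩ U t₀) ⊔ ⨆ (j) (_ : j ≠ t₀), U j := by
    rw [Submodule.span_le]
    intro y hy
    obtain ⟨t, ht⟩ := hS y hy
    by_cases h : t = t₀
    · subst h
      exact Submodule.mem_sup_left (Submodule.subset_span ⟨hy, ht⟩)
    · exact Submodule.mem_sup_right (Submodule.mem_iSup_of_mem t (Submodule.mem_iSup_of_mem h ht))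
  obtain ⟨y, hy, z, hz, hyz⟩ := Submodule.mem_sup.mp (h1 hx)
  have hy' : y ∈ U t₀ := (Submodule.span_le.mpr (fun w hw => hw.2) : _ ≤ U t₀) hy
  have hz' : z ∈ U t₀ := by
    have : z = x - y := by rw [← hyz]; abel
    rw [this]; exact Submodule.sub_mem _ hx0 hy'
  have h2 : z = 0 := by
    have := (hU t₀).le_bot ⟨hz', hz⟩
    exact (Submodule.mem_bot F).mp this
  rw [← hyz, h2, add_zero]
  exact hy

/-- A basis of generalised eigenvectors which is adapted to a grading. -/
theorem exists_gen_basis [FiniteDimensional F V] [IsAlgClosed F] {gr : ℕ → Submodule F V}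
    (hgr : ⨆ n, gr n = ⊤) (f : End F V) (hf : ∀ n, ∀ x ∈ gr n, f x ∈ gr n) :
    ∃ (b : Basis (Fin (finrank F V)) F V) (deg : Fin (finrank F V) → ℕ)
      (μ : Fin (finrank F V) → F), ∀ j, b j ∈ gr (deg j) ∧ b j ∈ f.maxGenEigenspace (μ j) := by
  classical
  let S : Set V := {x | ∃ n μ, x ∈ gr n ∧ x ∈ f.maxGenEigenspace μ}
  have hspan : Submodule.span F S = ⊤ := by
    rw [eq_top_iff, ← hgr, iSup_le_iff]
    intro n
    have h1 : gr n = ⨆ μ, gr n ⊓ f.genEigenspace μ ⊤ := by
      rw [← Submodule.inf_iSup_genEigenspace (h := hf n)]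
      have h2 : ⨆ μ, f.genEigenspace μ ⊤ = ⊤ := Module.End.iSup_maxGenEigenspace_eq_top f
      rw [h2, inf_top_eq]
    rw [h1, iSup_le_iff]
    intro μ x hx
    exact Submodule.subset_span ⟨n, μ, hx.1, hx.2⟩
  obtain ⟨B, hBS, hB, hlin⟩ := exists_linearIndependent F S
  have hBtop : ⊤ ≤ Submodule.span F (Set.range ((↑) : B → V)) := by
    rw [Subtype.range_coe, hB, hspan]
  let b₀ : Basis B F V := Basis.mk hlin hBtop
  have : Fintype B := FiniteDimensional.fintypeBasisIndex b₀
  let e : B ≃ Fin (finrank F V) := Fintype.equivFinOfCardEq (finrank_eq_card_basis b₀).symm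
  have h1 : ∀ j : Fin (finrank F V), (b₀.reindex e) j = ((e.symm j : B) : V) := by
    intro j
    rw [Basis.reindex_apply, Basis.mk_apply]
  choose n μ h2 h3 using fun j : Fin (finrank F V) => hBS (e.symm j).2
  exact ⟨b₀.reindex e, n, μ, fun j => by rw [h1]; exact ⟨h2 j, h3 j⟩⟩

end Pool.Agent.Y136.UB
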