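import Pool.Agent.H79.L.Y163_MW_Base

/-! Job MW-L of helper163: in a representation of `sl(2)` the power `N ^ m` of the lowering operator
is a bijection from the weight space of `m` to the one of `-m`. -/

set_option autoImplicit false

open Module

namespace Pool.Agent.Y141.MW

universe u v

namespace L

section

variable {K : Type u} [Field K] {V : Type v} [AddCommGroup V] [Module K V]

/-- An `sl(2)`-triple. -/
structure Tr (e N h : Module.End K V) : Prop where
  eN : e * N - N * e = h
  hN : h * N - N * h = (-2 : K) • N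
  he : h * e - e * h = (2 : K) • e

theorem Tr.swap {e N h : Module.End K V} (T : Tr e N h) : Tr N e (-h) where
  eN := by rw [← T.eN, neg_sub]
  hN := by
    calc (-h) * e - e * (-h) = -(h * e - e * h) := by noncomm_ring
      _ = (-2 : K) • e := by rw [T.he, neg_smul]
  he := by
    calc (-h) * N - N * (-h) = -(h * N - N * h) := by noncomm_ring
      _ = (2 : K) • N := by rw [T.hN, ← neg_smul, neg_neg]

variable {e N h : Module.End K V}

theorem Tr.Ne (T : Tr e N h) (x : V) : N (e x) = e (N x) - h x := by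
  have h1 := LinearMap.congr_fun T.eN x
  rw [LinearMap.sub_apply, Module.End.mul_apply, Module.End.mul_apply] at h1
  rw [← h1]
  abel

theorem Tr.wtN (T : Tr e N h) {r : K} {x : V} (hx : h x = r • x) : h (N x) = (r - 2) • N x := by
  have h1 := LinearMap.congr_fun T.hN x
  rw [LinearMap.sub_apply, Module.End.mul_apply, Module.End.mul_apply, LinearMap.smul_apply,
    hx, map_smul] at h1
  rw [sub_eq_iff_eq_add.1 h1, sub_smul, neg_smul]
  abel

theorem Tr.wte (T : Tr e N h) {r : K} {x : V} (hx : h x = r • x) : h (e x) = (r + 2) • e x := by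
  have h1 := LinearMap.congr_fun T.he x
  rw [LinearMap.sub_apply, Module.End.mul_apply, Module.End.mul_apply, LinearMap.smul_apply,
    hx, map_smul] at h1
  rw [sub_eq_iff_eq_add.1 h1, add_smul]
  abel

theorem Tr.wtNk (T : Tr e N h) {r : K} {x : V} (hx : h x = r • x) (k : ℕ) :
    h ((N ^ k) x) = (r - 2 * k) • (N ^ k) x := by
  induction k with
  | zero => simpa using hx
  | succ k ih =>
    have h1 := T.wtN ih
    rw [pow_succ', Module.End.mul_apply, h1]
    congr 1
    push_cast
    ring

theorem Tr.wtek (T : Tr e N h) {r : K} {x : V} (hx : h x = r • x) (k : ℕ) :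
    h ((e ^ k) x) = (r + 2 * k) • (e ^ k) x := by
  induction k with
  | zero => simpa using hx
  | succ k ih =>
    have h1 := T.wte ih
    rw [pow_succ', Module.End.mul_apply, h1]
    congr 1
    push_cast
    ring

theorem Tr.Nek (T : Tr e N h) {r : K} {y : V} (hy : h y = r • y) (hN : N y = 0) (k : ℕ) :
    N ((e ^ (k + 1)) y) = (-((k + 1 : K) * (r + k))) • (e ^ k) y := by
  induction k with
  | zero =>
    rw [zero_add, pow_one, T.Ne, hN, map_zero, zero_sub, hy, pow_zero, Module.End.one_apply,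
      ← neg_smul]
    congr 1
    push_cast
    ring
  | succ k ih =>
    rw [pow_succ', Module.End.mul_apply, T.Ne, ih, map_smul, T.wtek hy (k + 1)]
    have h1 : e ((e ^ k) y) = (e ^ (k + 1)) y := by
      rw [pow_succ', Module.End.mul_apply]
    rw [h1, ← sub_smul]
    congr 1
    push_cast
    ring

theorem Tr.prim [CharZero K] (T : Tr e N h) {m : ℕ} {y : V} (hy : h y = (-(m : K)) • y)
    (hN : N y = 0) (k : ℕ) (hk : k ≤ m) : ∃ c : K, c ≠ 0 ∧ (N ^ k) ((e ^ k) y) = c • y := by
  induction k with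
  | zero => exact ⟨1, one_ne_zero, by simp⟩
  | succ k ih =>
    obtain ⟨c, hc, h1⟩ := ih (by omega)
    refine ⟨(-((k + 1 : K) * (-(m : K) + k))) * c, mul_ne_zero ?_ hc, ?_⟩
    · rw [neg_ne_zero]
      refine mul_ne_zero ?_ ?_
      · exact_mod_cast Nat.succ_ne_zero k
      · intro h0
        have h2 : (k : K) = m := by linear_combination h0
        have h3 : k = m := by exact_mod_cast h2
        omega
    · rw [pow_succ, Module.End.mul_apply, T.Nek hy hN k, map_smul, h1, smul_smul]

/-- surjectivity -/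
theorem Tr.surj [CharZero K] (T : Tr e N h) (j : ℕ) :
    ∀ (m : ℕ) (y : V), h y = (-(m : K)) • y → (N ^ j) y = 0 →
      ∃ x, h x = (m : K) • x ∧ (N ^ m) x = y := by
  induction j with
  | zero =>
    intro m y _ h1
    refine ⟨0, by simp, ?_⟩
    rw [map_zero]
    simpa using h1.symm
  | succ j ih =>
    intro m y hy h1
    obtain ⟨z, hz⟩ : ∃ z, z = (N ^ j) y := ⟨_, rfl⟩
    have hz1 : N z = 0 := by
      rw [hz, ← Module.End.mul_apply, ← pow_succ']
      exact h1
    have hz2 : h z = (-((m + 2 * j : ℕ) : K)) • z := by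
      rw [hz, T.wtNk hy j]
      congr 1
      push_cast
      ring
    obtain ⟨c, hc, hx⟩ := T.prim hz2 hz1 (m + 2 * j) le_rfl
    obtain ⟨x', hx'⟩ : ∃ x', x' = c⁻¹ • (e ^ (m + 2 * j)) z := ⟨_, rfl⟩
    have hx1 : h x' = ((m + 2 * j : ℕ) : K) • x' := by
      rw [hx', map_smul, T.wtek hz2, smul_comm]
      congr 1
      ring
    have hx2 : (N ^ (m + 2 * j)) x' = z := by
      rw [hx', map_smul, hx, smul_smul, inv_mul_cancel₀ hc, one_smul]
    obtain ⟨x, h2, h3⟩ := ih m (y - (N ^ (m + j)) x') (by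
      rw [map_sub, hy, T.wtNk hx1, smul_sub]
      congr 2
      push_cast
      ring) (by
      rw [map_sub, ← Module.End.mul_apply, ← pow_add, show j + (m + j) = m + 2 * j by ring, hx2,
        hz, sub_self])
    refine ⟨x + (N ^ j) x', ?_, ?_⟩
    · rw [map_add, h2, T.wtNk hx1, smul_add]
      congr 2
      push_cast
      ring
    · rw [map_add, h3, ← Module.End.mul_apply, ← pow_add]
      abel

theorem Tr.surj' [CharZero K] (T : Tr e N h) (B : ℕ)
    (hB : ∀ k : ℕ, B < k → ∀ x, h x = (-(k : K)) • x → x = 0) (m : ℕ) (y : V)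
    (hy : h y = (-(m : K)) • y) : ∃ x, h x = (m : K) • x ∧ (N ^ m) x = y := by
  refine T.surj (B + 1) m y hy ?_
  refine hB (m + 2 * (B + 1)) (by omega) _ ?_
  rw [T.wtNk hy]
  congr 1
  push_cast
  ring

/-- the bound for the weights -/
theorem bound [CharZero K] {ι : Type} [Fintype ι] (b : Basis ι K V) (a : ι → ℤ)
    (hb : ∀ i, h (b i) = (a i : K) • b i) :
    ∃ B : ℕ, ∀ r : ℤ, (B : ℤ) < |r| → ∀ x, h x = (r : K) • x → x = 0 := by
  refine ⟨∑ i, (a i).natAbs, fun r hr x hx => ?_⟩
  have h1 : ∀ i, b.repr x i = 0 := by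
    intro i
    have h2 : b.repr (h x) i = (a i : K) * b.repr x i := by
      conv_lhs => rw [← b.sum_repr x]
      rw [map_sum, map_sum, Finsupp.finsetSum_apply, Finset.sum_eq_single i]
      · rw [map_smul, hb, map_smul, map_smul, Basis.repr_self]
        simp
        ring
      · intro k _ hk
        rw [map_smul, hb, map_smul, map_smul, Basis.repr_self]
        simp [hk]
      · intro h
        exact absurd (Finset.mem_univ i) h
    rw [hx, map_smul, Finsupp.smul_apply, smul_eq_mul] at h2
    have h3 : ((r : K) - a i) * b.repr x i = 0 := by rw [sub_mul, h2, sub_self]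
    refine (mul_eq_zero.1 h3).resolve_left ?_
    intro h4
    have h5 : (r : K) = (a i : K) := sub_eq_zero.1 h4
    have h6 : r = a i := by exact_mod_cast h5
    have h7 : (a i).natAbs ≤ ∑ i, (a i).natAbs :=
      Finset.single_le_sum (f := fun i => (a i).natAbs) (fun _ _ => Nat.zero_le _)
        (Finset.mem_univ i)
    rw [h6, ← Int.natCast_natAbs] at hr
    omega
  have h8 : b.repr x = 0 := Finsupp.ext h1
  exact (LinearEquiv.map_eq_zero_iff _).1 h8

end

end L

open L in
theorem stL : Pool.Agent.Y163.MW.StL.{u, v} := by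
  intro K _ _ V _ _ N ι _ b a e h hS m
  have T : Tr e N h := ⟨hS.eN, hS.hN, hS.he⟩
  obtain ⟨B, hB⟩ := bound (h := h) b a hS.wt
  have hB1 : ∀ k : ℕ, B < k → ∀ x, h x = (-(k : K)) • x → x = 0 := by
    intro k hk x hx
    refine hB (-(k : ℤ)) ?_ x ?_
    · rw [abs_neg, Nat.abs_cast]
      exact_mod_cast hk
    · rw [hx]
      push_cast
      rfl
  have hB2 : ∀ k : ℕ, B < k → ∀ x, (-h) x = (-(k : K)) • x → x = 0 := by
    intro k hk x hx
    refine hB (k : ℤ) ?_ x ?_
    · rw [Nat.abs_cast]
      exact_mod_cast hk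
    · rw [LinearMap.neg_apply, neg_smul, neg_inj] at hx
      rw [hx]
      push_cast
      rfl
  have hsN : ∀ y, h y = (-(m : K)) • y → ∃ x, h x = (m : K) • x ∧ (N ^ m) x = y :=
    T.surj' B hB1 m
  have hse : ∀ y, h y = (m : K) • y → ∃ x, h x = (-(m : K)) • x ∧ (e ^ m) x = y := by
    intro y hy
    obtain ⟨x, h1, h2⟩ := T.swap.surj' B hB2 m y (by
      rw [LinearMap.neg_apply, hy, neg_smul])
    refine ⟨x, ?_, h2⟩
    rw [LinearMap.neg_apply] at h1
    rw [neg_smul, ← h1, neg_neg]
  refine ⟨?_, hsN⟩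
  have hfin : Module.Finite K V := Module.Finite.of_basis b
  let P := LinearMap.ker (h - (m : K) • LinearMap.id)
  let Q := LinearMap.ker (h + (m : K) • LinearMap.id)
  have hP : ∀ x, x ∈ P ↔ h x = (m : K) • x := by
    intro x
    change (h - (m : K) • LinearMap.id : Module.End K V) x = 0 ↔ _
    rw [LinearMap.sub_apply, LinearMap.smul_apply, LinearMap.id_apply, sub_eq_zero]
  have hQ : ∀ x, x ∈ Q ↔ h x = (-(m : K)) • x := by
    intro x
    change (h + (m : K) • LinearMap.id : Module.End K V) x = 0 ↔ _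
    rw [LinearMap.add_apply, LinearMap.smul_apply, LinearMap.id_apply, neg_smul,
      add_eq_zero_iff_eq_neg]
  have hNm : ∀ x ∈ P, (N ^ m) x ∈ Q := by
    intro x hx
    rw [hQ, T.wtNk ((hP x).1 hx)]
    congr 1
    ring
  have hem : ∀ x ∈ Q, (e ^ m) x ∈ P := by
    intro x hx
    rw [hP, T.wtek ((hQ x).1 hx)]
    congr 1
    ring
  have f1 : Function.Surjective ((N ^ m).restrict hNm) := by
    rintro ⟨y, hy⟩
    obtain ⟨x, h1, h2⟩ := hsN y ((hQ y).1 hy)
    exact ⟨⟨x, (hP x).2 h1⟩, Subtype.ext h2⟩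
  have f2 : Function.Surjective ((e ^ m).restrict hem) := by
    rintro ⟨y, hy⟩
    obtain ⟨x, h1, h2⟩ := hse y ((hP y).1 hy)
    exact ⟨⟨x, (hQ x).2 h1⟩, Subtype.ext h2⟩
  have hfr : finrank K P = finrank K Q :=
    le_antisymm (LinearMap.finrank_le_finrank_of_surjective f2)
      (LinearMap.finrank_le_finrank_of_surjective f1)
  have f3 := (LinearMap.injective_iff_surjective_of_finrank_eq_finrank hfr).2 f1
  intro x hx h0
  have h1 : (N ^ m).restrict hNm ⟨x, (hP x).2 hx⟩ = (N ^ m).restrict hNm 0 := by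
    rw [map_zero]
    exact Subtype.ext h0
  exact congrArg Subtype.val (f3 h1)

end Pool.Agent.Y141.MW
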