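import Mathlib

/-!
# The weight spectral sequence of a projective strictly semistable scheme: definitions

`O` is a henselian discrete valuation ring with finite residue field `k` with `q` elements, `X` is a
projective strictly semistable scheme over `O` of relative dimension `n`, with special fibre
`Y = ⋃ Y_i`. We write `Y^(m)` for the disjoint union of the intersections of `m` different components
over an algebraic closure of `k`; it is smooth projective of dimension `n + 1 - m`. The coefficient
field `Ω` is an algebraic closure of `ℚ_ℓ` (or any field of characteristic zero).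
-/

namespace Pool.Agent.Y143

universe u v

open Module

/-! ### mw purity -/

/-- `α` is a `q`-Weil number of weight `w`: an algebraic number all of whose complex conjugates have
absolute value `q ^ (w / 2)`. -/
def IsWeilNumber {Ω : Type u} [Field Ω] [CharZero Ω] (q : ℕ) (w : ℤ) (α : Ω) : Prop :=
  IsAlgebraic ℚ α ∧
    ∀ z : ℂ, Polynomial.aeval z (minpoly ℚ α) = 0 → ‖z‖ = (q : ℝ) ^ ((w : ℝ) / 2)

section Pure

variable {Ω : Type u} [Field Ω] {V : Type v} [AddCommGroup V] [Module Ω V]

/-- `M` is the monodromy filtration of the (nilpotent) operator `N`: a finite increasing filtration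
such that `N (M_a) ⊆ M_(a - 2)` and `N ^ a` induces an isomorphism of `M_a / M_(a - 1)` with
`M_(-a) / M_(-a - 1)` for all `a ≥ 0`. -/
structure IsMonodromyFiltration (N : Module.End Ω V) (M : ℤ → Submodule Ω V) : Prop where
  mono : Monotone M
  bot : ∃ a, M a = ⊥
  top : ∃ a, M a = ⊤
  map : ∀ a x, x ∈ M a → N x ∈ M (a - 2)
  inj : ∀ (a : ℕ) x, x ∈ M a → (N ^ a) x ∈ M (-a - 1) → x ∈ M (a - 1)
  surj : ∀ (a : ℕ) y, y ∈ M (-a) → ∃ x ∈ M a, y - (N ^ a) x ∈ M (-a - 1)

/-- `V`, with the action `Φ` of a geometric Frobenius element and the logarithm `N` of the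
monodromy, is mw pure of weight `i`: every eigenvalue of `Φ` on the graded piece `M_a / M_(a - 1)` of
the monodromy filtration `M` is a `q`-Weil number of weight `a + i`. -/
def IsMWPure [CharZero Ω] (q : ℕ) (i : ℤ) (Φ N : Module.End Ω V) : Prop :=
  ∃ M : ℤ → Submodule Ω V, IsMonodromyFiltration N M ∧ (∀ a x, x ∈ M a → Φ x ∈ M a) ∧
    ∀ (a : ℤ) (α : Ω) (x : V), x ∈ M a → x ∉ M (a - 1) → Φ x - α • x ∈ M (a - 1) →
      IsWeilNumber q (a + i) α

end Pure

/-! ### The cohomology of a smooth projective variety -/

section Variety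

variable {Ω : Type u} [Field Ω] {Γ : Type} {H : Type v} [AddCommGroup H] [Module Ω H]
  {H' : Type v} [AddCommGroup H'] [Module Ω H']

/-- The value `B(x, y)` of a bilinear form. -/
def ev (B : H →ₗ[Ω] H →ₗ[Ω] Ω) (x y : H) : Ω := B x y

/-- The value `L^s x` of a power of the operator `L`. -/
def pw (L : Module.End Ω H) (s : ℕ) (x : H) : H := (L ^ s) x

/-- `H = ⨁ gr m` is finite-dimensional and `gr m = 0` unless `0 ≤ m ≤ 2 d`. -/
structure IsGraded (gr : ℤ → Submodule Ω H) (d : ℤ) : Prop where
  finite : Module.Finite Ω H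
  isInternal : DirectSum.IsInternal gr
  gr_eq_bot : ∀ m, (m < 0 ∨ 2 * d < m) → gr m = ⊥

/-- Poincare duality: `B` is a perfect pairing between `gr m` and `gr (2 d - m)`, symmetric or
alternating according to the parity of `m`. -/
structure IsPoincare (gr : ℤ → Submodule Ω H) (d : ℤ) (B : H →ₗ[Ω] H →ₗ[Ω] Ω) : Prop where
  pair_gr : ∀ m m' x y, x ∈ gr m → y ∈ gr m' → m + m' ≠ 2 * d → ev B x y = 0
  pair_nondeg : ∀ x, (∀ y, ev B x y = 0) → x = 0
  pair_symm : ∀ m x y, x ∈ gr m → ev B y x = (-1 : Ω) ^ m * ev B x y

/-- The hard Lefschetz theorem: `L` has degree `2`, is self-adjoint, and `L ^ s` is an isomorphism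
from `gr (d - s)` to `gr (d + s)`. -/
structure IsLefschetz (gr : ℤ → Submodule Ω H) (d : ℤ) (B : H →ₗ[Ω] H →ₗ[Ω] Ω)
    (L : Module.End Ω H) : Prop where
  lef_gr : ∀ m x, x ∈ gr m → L x ∈ gr (m + 2)
  lef_pair : ∀ x y, ev B (L x) y = ev B x (L y)
  lef_inj : ∀ (s : ℕ) x, x ∈ gr (d - s) → pw L s x = 0 → x = 0
  lef_surj : ∀ (s : ℕ) y, y ∈ gr (d + s) → ∃ x ∈ gr (d - s), pw L s x = y

/-- The operators `T g` commute with each other, have degree `0`, multiply the class of a hyperplane
by `c g`, and `T (tr g)` is the transpose of `T g` (up to the factor `c g ^ d`). -/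
structure IsOperators (gr : ℤ → Submodule Ω H) (d : ℤ) (B : H →ₗ[Ω] H →ₗ[Ω] Ω)
    (L : Module.End Ω H) (T : Γ → Module.End Ω H) (c : Γ → Ωˣ) (tr : Γ → Γ) : Prop where
  act_comm : ∀ g h x, T g (T h x) = T h (T g x)
  act_gr : ∀ m g x, x ∈ gr m → T g x ∈ gr m
  act_pair : ∀ g x y, ev B (T g x) y = ((c g ^ d : Ωˣ) : Ω) * ev B x (T (tr g) y)
  lef_act : ∀ g x, T g (L x) = (c g : Ω) • L (T g x)

/-- `F` is the geometric Frobenius: it is invertible with inverse `F'`, and (Weil conjectures) its
eigenvalues on `gr m` are `q`-Weil numbers of weight `m`. -/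
structure IsFrobenius [CharZero Ω] (gr : ℤ → Submodule Ω H) (q : ℕ) (F F' : Module.End Ω H) :
    Prop where
  frob_inv : ∀ x, F' (F x) = x
  weil : ∀ m (α : Ω) x, x ∈ gr m → x ≠ 0 → F x = α • x → IsWeilNumber q m α

/-- The restriction `ρ` (of degree `0`) is compatible with the Lefschetz operators and the operators
`T g`. -/
structure IsRestriction (gr : ℤ → Submodule Ω H) (gr' : ℤ → Submodule Ω H')
    (L : Module.End Ω H) (L' : Module.End Ω H') (T : Γ → Module.End Ω H)
    (T' : Γ → Module.End Ω H') (ρ : H →ₗ[Ω] H') : Prop where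
  res_gr : ∀ m x, x ∈ gr m → ρ x ∈ gr' m
  res_act : ∀ g x, T' g (ρ x) = ρ (T g x)
  res_lef : ∀ x, ρ (L x) = L' (ρ x)

/-- The Gysin map `τ` is the transpose of the restriction `ρ`. -/
def IsTranspose (B : H →ₗ[Ω] H →ₗ[Ω] Ω) (B' : H' →ₗ[Ω] H' →ₗ[Ω] Ω) (ρ : H →ₗ[Ω] H')
    (τ : H' →ₗ[Ω] H) : Prop := ∀ x y, ev B' (ρ x) y = ev B x (τ y)

/-- The composite `g ∘ f` is zero. -/
def IsZeroComp {H'' : Type v} [AddCommGroup H''] [Module Ω H''] (f : H →ₗ[Ω] H')
    (g : H' →ₗ[Ω] H'') : Prop := ∀ x, g (f x) = 0

/-- The relation `ρ τ + τ' ρ' = 0`. -/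
def Anticommute {H'' : Type v} [AddCommGroup H''] [Module Ω H''] (τ : H' →ₗ[Ω] H)
    (ρ : H →ₗ[Ω] H') (ρ' : H' →ₗ[Ω] H'') (τ' : H'' →ₗ[Ω] H') : Prop :=
  ∀ x, ρ (τ x) + τ' (ρ' x) = 0

end Variety

/-! ### The strata of the special fibre -/

/-- The data given by the cohomology of the strata of the special fibre: for `a ≥ 0`, `H a` is the
cohomology `⨁_m H^m(Y^(a+1), Ω)` of `Y^(a+1)`, with

* the subspaces `gr a m = H^m(Y^(a+1), Ω)` and the Poincare pairing `pair a`;
* the Lefschetz operator `lef a` (the cup product with an ample class of `X`);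
* the restriction `res` (the alternating sum of the pull-backs) and the Gysin map `gys` (the
  alternating sum of the push-forwards);
* the action of a family `Γ` of operators; `cyc g` is the factor by which `g` acts on the Tate twist
  `Ω(-1)`, `tr g` is the transpose of `g` and `frob` is the geometric Frobenius. For example `Γ`
  consists of `frob` and `tr frob`, or of these and of commuting automorphisms or Hecke
  correspondences. -/
structure StrataData (Ω : Type u) [Field Ω] (Γ : Type) where
  H : ℕ → Type v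
  [addCommGroup : ∀ a, AddCommGroup (H a)]
  [module : ∀ a, Module Ω (H a)]
  gr : ∀ a, ℤ → Submodule Ω (H a)
  pair : ∀ a, H a →ₗ[Ω] H a →ₗ[Ω] Ω
  lef : ∀ a, Module.End Ω (H a)
  res : ∀ a, H a →ₗ[Ω] H (a + 1)
  gys : ∀ a, H (a + 1) →ₗ[Ω] H a
  act : ∀ a, Γ → Module.End Ω (H a)
  cyc : Γ → Ωˣ
  tr : Γ → Γ
  frob : Γ

attribute [instance] StrataData.addCommGroup StrataData.module

namespace StrataData

variable {Ω : Type u} [Field Ω] {Γ : Type} (X : StrataData.{u, v} Ω Γ)

/-- The stratum `Y^(a+1)` has dimension `n - a`: Poincare duality and the hard Lefschetz theorem. -/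
def HasDuality (n : ℕ) : Prop := ∀ a : ℕ, IsGraded (X.gr a) (n - a) ∧
  IsPoincare (X.gr a) (n - a) (X.pair a) ∧ IsLefschetz (X.gr a) (n - a) (X.pair a) (X.lef a)

/-- The operators in `Γ` commute and are stable under transposition. -/
def HasOperators (n : ℕ) : Prop :=
  (∀ a : ℕ, IsOperators (X.gr a) (n - a) (X.pair a) (X.lef a) (X.act a) X.cyc X.tr) ∧
    (∀ g, X.tr (X.tr g) = g) ∧ ∀ g, X.cyc (X.tr g) = (X.cyc g)⁻¹

/-- The operator `frob` is the geometric Frobenius for the residue field with `q` elements. -/
def HasFrobenius [CharZero Ω] (q : ℕ) : Prop :=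
  (∀ a : ℕ, IsFrobenius (X.gr a) q (X.act a X.frob) (X.act a (X.tr X.frob))) ∧
    ((X.cyc X.frob : Ωˣ) : Ω) = q

/-- The restriction maps `ρ` and the Gysin maps `τ` satisfy `ρ ρ = 0` and `ρ τ + τ ρ = 0`, `τ` is the
transpose of `ρ`, and they are compatible with the other structures. -/
structure HasRestriction : Prop where
  restriction : ∀ a : ℕ, IsRestriction (X.gr a) (X.gr (a + 1)) (X.lef a) (X.lef (a + 1)) (X.act a)
    (X.act (a + 1)) (X.res a)
  transpose : ∀ a : ℕ, IsTranspose (X.pair a) (X.pair (a + 1)) (X.res a) (X.gys a)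
  res_res : ∀ a : ℕ, IsZeroComp (X.res a) (X.res (a + 1))
  res_gys : ∀ a : ℕ, Anticommute (X.gys a) (X.res a) (X.res (a + 1)) (X.gys (a + 1))

end StrataData

/-- The cohomology of the strata of the special fibre `Y` of a projective strictly semistable scheme
of relative dimension `n` over `O`, `|k| = q`. -/
structure SpecialFibre (Ω : Type u) [Field Ω] [CharZero Ω] (Γ : Type) (n q : ℕ)
    extends StrataData.{u, v} Ω Γ where
  duality : toStrataData.HasDuality n
  operators : toStrataData.HasOperators n
  frobenius : toStrataData.HasFrobenius q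
  restriction : toStrataData.HasRestriction

/-- The index `a` occurs in the `r`-th column of the weight spectral sequence:
`a = 2 k + |r|` with `k ≥ 0`. -/
def InColumn (r : ℤ) (a : ℕ) : Prop := |r| ≤ a ∧ 2 ∣ (a : ℤ) - r

namespace StrataData

variable {Ω : Type u} [Field Ω] {Γ : Type} (X : StrataData.{u, v} Ω Γ)

/-- Families of cohomology classes on all the `Y^(a+1)`. -/
abbrev C : Type v := ∀ a, X.H a

/-- The term `E_1^(r, w)` of the weight spectral sequence of Rapoport and Zink:
the sum of the `H^(w + r - a)(Y^(a+1))(- (a - r) / 2)` for the `a` in the `r`-th column. -/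
def E₁ (r w : ℤ) : Submodule Ω X.C where
  carrier := {x | ∀ a, x a ∈ X.gr a (w + r - a) ∧ (¬ InColumn r a → x a = 0)}
  add_mem' hx hy a := ⟨Submodule.add_mem _ (hx a).1 (hy a).1, fun h => by
    rw [Pi.add_apply, (hx a).2 h, (hy a).2 h, add_zero]⟩
  zero_mem' a := ⟨Submodule.zero_mem _, fun _ => rfl⟩
  smul_mem' c x hx a := ⟨Submodule.smul_mem _ c (hx a).1, fun h => by
    rw [Pi.smul_apply, (hx a).2 h, smul_zero]⟩

/-- The restriction on families. -/
def resC : X.C →ₗ[Ω] X.C where
  toFun x a := match a with
    | 0 => 0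
    | b + 1 => X.res b (x b)
  map_add' x y := by
    ext a
    cases a with
    | zero => simp
    | succ b => simp
  map_smul' c x := by
    ext a
    cases a with
    | zero => simp
    | succ b => simp

/-- The Gysin map on families. -/
def gysC : X.C →ₗ[Ω] X.C where
  toFun x a := X.gys a (x (a + 1))
  map_add' x y := by ext a; simp
  map_smul' c x := by ext a; simp

open Classical in
/-- The projection to the components in the `r`-th column. -/
noncomputable def cut (r : ℤ) : X.C →ₗ[Ω] X.C where
  toFun x a := if InColumn r a then x a else 0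
  map_add' x y := by
    ext a
    by_cases h : InColumn r a <;> simp [h]
  map_smul' c x := by
    ext a
    by_cases h : InColumn r a <;> simp [h]

/-- The differential `d_1 = res + gys` from the column `r` to the column `r + 1`. -/
noncomputable def diff (r : ℤ) : X.C →ₗ[Ω] X.C := X.cut (r + 1) ∘ₗ (X.resC + X.gysC)

/-- The Lefschetz operator on families. -/
def lefC : X.C →ₗ[Ω] X.C where
  toFun x a := X.lef a (x a)
  map_add' x y := by ext a; simp
  map_smul' c x := by ext a; simp

/-- The action of an operator on the column `r`, with the Tate twists. -/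
def actC (r : ℤ) (g : Γ) : X.C →ₗ[Ω] X.C where
  toFun x a := ((X.cyc g ^ (((a : ℤ) - r) / 2) : Ωˣ) : Ω) • X.act a g (x a)
  map_add' x y := by ext a; simp
  map_smul' c x := by
    ext a
    simp only [Pi.smul_apply, map_smul, RingHom.id_apply]
    rw [smul_comm]

/-- Cocycles: the kernel of `d_1` on `E_1^(r, w)`. -/
noncomputable def cocycles (r w : ℤ) : Submodule Ω X.C := X.E₁ r w ⊓ LinearMap.ker (X.diff r)

/-- Coboundaries: the image of `E_1^(r - 1, w)` in `E_1^(r, w)`. The quotient of the cocycles by the
coboundaries is `E_2^(r, w)`. -/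
noncomputable def coboundaries (r w : ℤ) : Submodule Ω X.C :=
  (X.E₁ (r - 1) w).map (X.diff (r - 1))

end StrataData

/-! ### The generic fibre -/

section Generic

variable {Ω : Type u} [Field Ω] {C : Type v} [AddCommGroup C] [Module Ω C] {V : Type v}
  [AddCommGroup V] [Module Ω V] {Γ : Type}

/-- `f` induces an isomorphism `Z / B ≅ Z' / B'` (for `f` mapping `Z` to `Z'` and `B` to `B'`). -/
def IsoOn (f : Module.End Ω C) (Z B Z' B' : Submodule Ω C) : Prop :=
  (∀ x ∈ Z, f x ∈ B' → x ∈ B) ∧ ∀ y ∈ Z', ∃ x ∈ Z, y - f x ∈ B'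

/-- `W` is a finite increasing filtration of `V`, and `S w` is the graph of a surjection from `W w`
to `Z w / B w` with kernel `W (w - 1)`: the graded pieces of `W` are the `Z w / B w`. -/
structure HasGraded (W : ℤ → Submodule Ω V) (S : ℤ → Submodule Ω (V × C))
    (Z B : ℤ → Submodule Ω C) : Prop where
  W_mono : Monotone W
  W_bot : ∃ w, W w = ⊥
  W_top : ∃ w, W w = ⊤
  sp_mem : ∀ w v x, (v, x) ∈ S w → v ∈ W w ∧ x ∈ Z w
  sp_left : ∀ w v, v ∈ W w → ∃ x, (v, x) ∈ S w
  sp_right : ∀ w x, x ∈ Z w → ∃ v, (v, x) ∈ S w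
  sp_ker : ∀ w v x, (v, x) ∈ S w → (v ∈ W (w - 1) ↔ x ∈ B w)

/-- The identification `S` of the graded pieces is compatible with the operators (`T g` on `V` and
`T' w g` on the graded piece of weight `w`) and with `N` (given by `N' w` on the graded pieces). -/
structure IsCompatible (S : ℤ → Submodule Ω (V × C)) (T : Γ → Module.End Ω V)
    (T' : ℤ → Γ → Module.End Ω C) (N : Module.End Ω V) (N' : ℤ → Module.End Ω C) : Prop where
  sp_act : ∀ w v x g, (v, x) ∈ S w → (T g v, T' w g x) ∈ S w
  sp_N : ∀ w v x, (v, x) ∈ S w → (N v, N' w x) ∈ S (w - 2)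

end Generic

/-- The data given by the cohomology `V i = H^i(X_{\bar K}, Ω)` of the geometric generic fibre, for
`X` with cohomology of the strata `Y`: the action `act` of the operators, the logarithm `N` of the
monodromy, the weight filtration `W` and the identification `sp` of its graded pieces with the terms
of the weight spectral sequence (given by its graph). -/
structure GenericData {Ω : Type u} [Field Ω] {Γ : Type} (Y : StrataData.{u, v} Ω Γ) where
  V : ℕ → Type v
  [addCommGroup : ∀ i, AddCommGroup (V i)]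
  [module : ∀ i, Module Ω (V i)]
  act : ∀ i, Γ → Module.End Ω (V i)
  N : ∀ i, Module.End Ω (V i)
  W : ∀ i, ℤ → Submodule Ω (V i)
  sp : ∀ i, ℤ → Submodule Ω (V i × Y.C)

attribute [instance] GenericData.addCommGroup GenericData.module

/-- The Rapoport-Zink weight spectral sequence: `W_w V^i / W_(w - 1) V^i ≅ E_2^(i - w, w)`. -/
def GenericData.HasWeightSequence {Ω : Type u} [Field Ω] {Γ : Type} {Y : StrataData.{u, v} Ω Γ}
    (G : GenericData Y) : Prop :=
  ∀ i : ℕ, HasGraded (G.W i) (G.sp i) (fun w => Y.cocycles (i - w) w)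
    (fun w => Y.coboundaries (i - w) w)

/-- The spectral sequence is compatible with the operators and with `N`, which is induced on the
`E_2` term by the identity of the common summands. -/
def GenericData.HasMonodromy {Ω : Type u} [Field Ω] {Γ : Type} {Y : StrataData.{u, v} Ω Γ}
    (G : GenericData Y) : Prop :=
  ∀ i : ℕ, IsCompatible (G.sp i) (G.act i) (fun w => Y.actC (i - w)) (G.N i)
    (fun w => Y.cut (i - w + 2))

/-- The hard Lefschetz theorem for the generic fibre, on the `E_2` term of the weight spectral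
sequence. -/
def StrataData.HasHardLefschetz {Ω : Type u} [Field Ω] {Γ : Type} (Y : StrataData.{u, v} Ω Γ)
    (n : ℕ) : Prop :=
  ∀ (r : ℤ) (s : ℕ), IsoOn (Y.lefC ^ s) (Y.cocycles r (n - s - r)) (Y.coboundaries r (n - s - r))
    (Y.cocycles r (n + s - r)) (Y.coboundaries r (n + s - r))

/-- The cohomology of a proper rigid-analytic space (or scheme) `X` of dimension `n` with a strictly
semistable formal model over `O` with projective special fibre: the cohomology of the strata of the
special fibre together with the cohomology of the geometric generic fibre and the weight spectral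
sequence of Rapoport and Zink (which degenerates at `E_2`). -/
structure SemistableModel (Ω : Type u) [Field Ω] [CharZero Ω] (Γ : Type) (n q : ℕ)
    extends SpecialFibre.{u, v} Ω Γ n q where
  generic : GenericData toStrataData
  weightSequence : generic.HasWeightSequence
  monodromy : generic.HasMonodromy

namespace SemistableModel

variable {Ω : Type u} [Field Ω] [CharZero Ω] {Γ : Type} {n q : ℕ}
  (X : SemistableModel.{u, v} Ω Γ n q)

/-- `V i` is the cohomology `H^i` of the geometric generic fibre. -/
abbrev V (i : ℕ) : Type v := X.generic.V i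

/-- The action of the operators on `H^i` of the geometric generic fibre. -/
def actV (i : ℕ) : Γ → Module.End Ω (X.V i) := X.generic.act i

/-- The logarithm of the monodromy on `H^i` of the geometric generic fibre. -/
def N (i : ℕ) : Module.End Ω (X.V i) := X.generic.N i

/-- The weight filtration on `H^i` of the geometric generic fibre. -/
def W (i : ℕ) : ℤ → Submodule Ω (X.V i) := X.generic.W i

/-- The identification of the graded pieces of the weight filtration. -/
def sp (i : ℕ) : ℤ → Submodule Ω (X.V i × X.C) := X.generic.sp i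

end SemistableModel

/-- The cohomology of a projective strictly semistable scheme `X` of relative dimension `n` over `O`:
as before, together with the hard Lefschetz theorem for the generic fibre. -/
structure Degeneration (Ω : Type u) [Field Ω] [CharZero Ω] (Γ : Type) (n q : ℕ)
    extends SemistableModel.{u, v} Ω Γ n q where
  hardLefschetz : toStrataData.HasHardLefschetz n

end Pool.Agent.Y143
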