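import Pool.Agent.H79.L.Y143_Mon

/-!
# Graded nilpotent operators: strings, sl(2) data, statements of the jobs of project MW
-/

set_option autoImplicit false

open Module Filter Topology

namespace Pool.Agent.Y163.MW

open Pool.Agent.Y143

universe u v

section

variable {K : Type u} [Field K] {V : Type v} [AddCommGroup V] [Module K V]

/-- A basis of the graded space `V` made of strings of the operator `N` of degree `-2`: the
string `s` consists of the vectors `b (s, 0), ..., b (s, len s)`, the vector `b (s, i)` has degree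
`top s - 2 i`, `N` maps each vector to the next one and kills the last one. -/
structure Strings (gr : ℤ → Submodule K V) (N : Module.End K V) where
  /-- the strings -/
  ι : Type
  /-- there are finitely many -/
  fintype : Fintype ι
  /-- the length of a string -/
  len : ι → ℕ
  /-- the degree of the first vector -/
  top : ι → ℤ
  /-- the basis -/
  b : Basis (Σ s : ι, Fin (len s + 1)) K V
  mem : ∀ s (i : Fin (len s + 1)), b ⟨s, i⟩ ∈ gr (top s - 2 * (i : ℕ))
  succ : ∀ s (i : Fin (len s)), N (b ⟨s, i.castSucc⟩) = b ⟨s, i.succ⟩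
  last : ∀ s, N (b ⟨s, Fin.last (len s)⟩) = 0

attribute [instance] Strings.fintype

/-- The operator `N` is the lowering operator of a representation of `sl(2)` for which the basis
`b` consists of weight vectors of weights `a i`. -/
structure IsSl2 (N : Module.End K V) {ι : Type} (b : Basis ι K V) (a : ι → ℤ)
    (e h : Module.End K V) : Prop where
  wt : ∀ i, h (b i) = (a i : K) • b i
  eN : e * N - N * e = h
  hN : h * N - N * h = (-2 : K) • N
  he : h * e - e * h = (2 : K) • e

/-- `N ^ a` induces a bijection from `gr a` to `gr (-a)` for all `a ≥ 0`. -/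
def Centred (gr : ℤ → Submodule K V) (N : Module.End K V) : Prop :=
  ∀ a : ℕ, (∀ x ∈ gr a, (N ^ a) x = 0 → x = 0) ∧ ∀ y ∈ gr (-(a : ℤ)), ∃ x ∈ gr a, (N ^ a) x = y

end

/-- Job MW-A: existence of a basis of homogeneous strings. -/
def StA : Prop := ∀ (K : Type u) [Field K] (V : Type v) [AddCommGroup V] [Module K V]
  [Module.Finite K V] (gr : ℤ → Submodule K V) (N : Module.End K V), DirectSum.IsInternal gr →
  (∀ r, ∀ x ∈ gr r, N x ∈ gr (r - 2)) → Nonempty (Strings gr N)

/-- Job MW-L: `N ^ m` is a bijection from the eigenspace of `h` for `m` to the one for `-m`. -/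
def StL : Prop := ∀ (K : Type u) [Field K] [CharZero K] (V : Type v) [AddCommGroup V] [Module K V]
  (N : Module.End K V) (ι : Type) [Fintype ι] (b : Basis ι K V) (a : ι → ℤ)
  (e h : Module.End K V), IsSl2 N b a e h → ∀ m : ℕ,
    (∀ x, h x = (m : K) • x → (N ^ m) x = 0 → x = 0) ∧
    ∀ y, h y = (-(m : K)) • y → ∃ x, h x = (m : K) • x ∧ (N ^ m) x = y

/-- Job MW-B1: the dimension of the kernel of the lowering operator. -/
def StB1 : Prop := ∀ (K : Type u) [Field K] [CharZero K] (V : Type v) [AddCommGroup V] [Module K V]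
  (N : Module.End K V) (ι : Type) [Fintype ι] (b : Basis ι K V) (a : ι → ℤ)
  (e h : Module.End K V), IsSl2 N b a e h →
  finrank K (LinearMap.ker N) = Nat.card {i : ι // a i = 0 ∨ a i = 1}

/-- Job MW-B2: the representation of `sl(2)` given by strings. -/
def StB2 : Prop := ∀ (K : Type u) [Field K] [CharZero K] (V : Type v) [AddCommGroup V] [Module K V]
  (gr : ℤ → Submodule K V) (N : Module.End K V) (S : Strings gr N),
  ∃ e h : Module.End K V, IsSl2 N S.b (fun p => (S.len p.1 : ℤ) - 2 * (p.2 : ℕ)) e h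

/-- Job MW-B3: tensor products. -/
def StB3 : Prop := ∀ (K : Type u) [Field K] (V : Type v) [AddCommGroup V] [Module K V]
  (V' : Type v) [AddCommGroup V'] [Module K V']
  (N : Module.End K V) (ι : Type) (b : Basis ι K V) (a : ι → ℤ) (e h : Module.End K V)
  (N' : Module.End K V') (ι' : Type) (b' : Basis ι' K V') (a' : ι' → ℤ) (e' h' : Module.End K V'),
  IsSl2 N b a e h → IsSl2 N' b' a' e' h' →
  IsSl2 (TensorProduct.map N LinearMap.id + TensorProduct.map LinearMap.id N' :
      Module.End K (TensorProduct K V V')) (b.tensorProduct b') (fun p => a p.1 + a' p.2)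
    (TensorProduct.map e LinearMap.id + TensorProduct.map LinearMap.id e')
    (TensorProduct.map h LinearMap.id + TensorProduct.map LinearMap.id h')

/-- Job MW-D: the monodromy filtration is the filtration by the weights of `h`. -/
def StD : Prop := ∀ (K : Type u) [Field K] [CharZero K] (V : Type v) [AddCommGroup V] [Module K V]
  (N : Module.End K V) (ι : Type) [Fintype ι] (b : Basis ι K V) (a : ι → ℤ)
  (e h : Module.End K V), IsSl2 N b a e h → ∀ M : ℤ → Submodule K V,
  IsMonodromyFiltrationOn ⊤ N M → ∀ s, M s = Submodule.span K (b '' {i | a i ≤ s})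

/-- Job MW-F: strings and `Centred`. -/
def StF : Prop := ∀ (K : Type u) [Field K] (V : Type v) [AddCommGroup V] [Module K V]
  (gr : ℤ → Submodule K V) (N : Module.End K V), DirectSum.IsInternal gr →
  ∀ S : Strings gr N, Centred gr N ↔ ∀ s, S.top s = S.len s

/-- Job MW-G: purity of the graded pieces of the monodromy filtration (`S` is the cohomology
group, `W c` its part of weight `c` more than expected, `P c` the set of the numbers which are
eigenvalues of this weight). -/
def StG : Prop := ∀ (K : Type u) [Field K] [IsAlgClosed K] (V : Type v) [AddCommGroup V]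
  [Module K V] [Module.Finite K V] (S : Submodule K V) (W : ℤ → Submodule K V)
  (F N : Module.End K V) (q : K) (P : ℤ → K → Prop),
  (⨆ c, W c = S) → iSupIndep W → (∀ c, ∀ x ∈ W c, F x ∈ W c) →
  (∀ c, ∀ x ∈ W c, N x ∈ W (c - 2)) → q ≠ 0 → (∀ x ∈ S, N (F x) = q • F (N x)) →
  (∀ c α x, x ∈ W c → x ≠ 0 → F x = α • x → P c α) → (∀ c c' α, P c α → P c' α → c = c') →
  ((∃ M, IsMonodromyFiltrationOn S N M ∧
    ∀ s α x, x ∈ M s → x ∉ M (s - 1) → F x - α • x ∈ M (s - 1) → P s α) ↔ Centred W N)

/-- Job MW-H: the ranks of the powers of `N` and the second moment. -/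
def StH : Prop := ∀ (K : Type u) [Field K] (V : Type v) [AddCommGroup V] [Module K V]
  (gr : ℤ → Submodule K V) (N : Module.End K V) (S : Strings gr N),
  ∑ᶠ k : ℕ, 2 * (k : ℤ) * finrank K (LinearMap.range (N ^ k)) =
    ∑ p : Σ s : S.ι, Fin (S.len s + 1), ((S.len p.1 : ℤ) - 2 * (p.2 : ℕ)) ^ 2

/-- The sum of the cosines. -/
noncomputable def cs {ι : Type} [Fintype ι] (a : ι → ℤ) (θ : ℝ) : ℝ := ∑ i, Real.cos (a i * θ)

/-- Job MW-C1: Fourier formula. -/
def StC1 : Prop := ∀ (ι : Type) [Fintype ι] (a : ι → ℤ),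
  (∀ r : ℤ, Nat.card {i : ι // a i = r} = Nat.card {i : ι // a i = -r}) → ∀ n : ℕ,
  (Nat.card {g : Fin n → ι // ∑ k, a (g k) = 0 ∨ ∑ k, a (g k) = 1} : ℝ) =
    (1 / (2 * Real.pi)) * ∫ θ in (-Real.pi)..Real.pi, cs a θ ^ n * (1 + Real.cos θ)

/-- Job MW-C2: asymptotics of the integral. -/
def StC2 : Prop := ∀ (ι : Type) [Fintype ι] (a : ι → ℤ), (∃ i j, a i = a j + 2) →
  Tendsto (fun n : ℕ => √(n : ℝ) * ((1 / (2 * Real.pi)) *
      ∫ θ in (-Real.pi)..Real.pi, (cs a θ / Fintype.card ι) ^ n * (1 + Real.cos θ))) atTop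
    (𝓝 (√(2 * (Fintype.card ι : ℝ) / (Real.pi * ∑ i, (a i : ℝ) ^ 2))))

/-- Job MW-E: zero law. -/
def StE : Prop := ∀ (ι : Type) [Fintype ι] (δ : ι → ℤ), (∃ i, δ i ≠ 0) →
  Tendsto (fun n : ℕ => (Nat.card {g : Fin (n + 1) → ι // ∑ k, δ (g k) = 0} : ℝ) /
    (Fintype.card ι : ℝ) ^ (n + 1)) atTop (𝓝 0)

end Pool.Agent.Y163.MW
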