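import Pool.Agent.H79.L.Y163_MW_Base

/-!
# Tensor products of representations of sl(2)
-/

set_option autoImplicit false

open Module TensorProduct

namespace Pool.Agent.Y210.MW

open Pool.Agent.Y163.MW

universe u v

theorem comm_aux {K : Type u} [Field K] {V : Type v} [AddCommGroup V] [Module K V]
    {V' : Type v} [AddCommGroup V'] [Module K V'] (A B : Module.End K V) (A' B' : Module.End K V') :
    ((TensorProduct.map A LinearMap.id + TensorProduct.map LinearMap.id A' :
        Module.End K (TensorProduct K V V')) *
      (TensorProduct.map B LinearMap.id + TensorProduct.map LinearMap.id B') -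
      (TensorProduct.map B LinearMap.id + TensorProduct.map LinearMap.id B') *
      (TensorProduct.map A LinearMap.id + TensorProduct.map LinearMap.id A')) =
      TensorProduct.map (A * B - B * A) LinearMap.id +
        TensorProduct.map LinearMap.id (A' * B' - B' * A') := by
  refine TensorProduct.ext' fun x y => ?_
  simp only [LinearMap.sub_apply, Module.End.mul_apply, LinearMap.add_apply,
    TensorProduct.map_tmul, LinearMap.id_apply, map_add, TensorProduct.sub_tmul,
    TensorProduct.tmul_sub]
  abel

theorem t_B3 : StB3.{u, v} := by
  intro K _ V _ _ V' _ _ N ι b a e h N' ι' b' a' e' h' h1 h2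
  refine ⟨?_, ?_, ?_, ?_⟩
  · rintro ⟨i, j⟩
    simp only [Basis.tensorProduct_apply, LinearMap.add_apply, TensorProduct.map_tmul,
      LinearMap.id_apply, h1.wt, h2.wt, Int.cast_add, add_smul, TensorProduct.smul_tmul',
      TensorProduct.tmul_smul]
  · rw [comm_aux, h1.eN, h2.eN]
  · rw [comm_aux, h1.hN, h2.hN, TensorProduct.map_smul_left, TensorProduct.map_smul_right,
      smul_add]
  · rw [comm_aux, h1.he, h2.he, TensorProduct.map_smul_left, TensorProduct.map_smul_right,
      smul_add]

end Pool.Agent.Y210.MW
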